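import Pool.Agent.Lib.Q28.Geo

/-! Smallness in the first-order norm on the surface, uniform local injectivity. -/

namespace Pool.Agent.Lib.Q28

open scoped ContDiff RealInnerProductSpace Topology
open Metric Set Function Filter

set_option linter.unusedSectionVars false

variable [Sf]

theorem smooth_diff {P F : Type*} [NormedAddCommGroup P] [NormedSpace ℝ P] [NormedAddCommGroup F]
    [NormedSpace ℝ F] {f : P → F} (hf : ContDiff ℝ ∞ f) : Differentiable ℝ f :=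
  hf.differentiable (by simp)

theorem smooth_cont_fderiv {P F : Type*} [NormedAddCommGroup P] [NormedSpace ℝ P]
    [NormedAddCommGroup F] [NormedSpace ℝ F] {f : P → F} (hf : ContDiff ℝ ∞ f) :
    Continuous (fderiv ℝ f) :=
  hf.continuous_fderiv (by simp)

theorem continuous_nrm {f : E → E} (hf : ContDiff ℝ ∞ f) : Continuous (nrm f) := by
  have := smooth_cont_fderiv hf
  have := unv_smooth.continuous
  unfold nrm; fun_prop

theorem Small.mono {δ δ' : ℝ} {p : E → E} (h : Small δ p) (hδ : δ ≤ δ') : Small δ' p :=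
  fun x hx => ⟨(h x hx).1.trans hδ, fun w hw =>
    ((h x hx).2 w hw).trans (mul_le_mul_of_nonneg_right hδ (norm_nonneg _))⟩

theorem small_zero {δ : ℝ} (hδ : 0 ≤ δ) : Small δ 0 := by
  intro x _
  refine ⟨by simpa using hδ, fun w _ => ?_⟩
  have : fderiv ℝ (0 : E → E) x = 0 := by simp
  rw [this]; simp; positivity

theorem Small.add {δ δ' : ℝ} {p p' : E → E} (h : Small δ p) (h' : Small δ' p')
    (hp : Differentiable ℝ p) (hp' : Differentiable ℝ p') : Small (δ + δ') (p + p') := by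
  intro x hx
  refine ⟨(norm_add_le _ _).trans (add_le_add (h x hx).1 (h' x hx).1), fun w hw => ?_⟩
  rw [fderiv_add (hp x) (hp' x), add_apply, add_mul]
  exact (norm_add_le _ _).trans (add_le_add ((h x hx).2 w hw) ((h' x hx).2 w hw))

theorem Small.smul_const {δ : ℝ} {p : E → E} (h : Small δ p) (hp : Differentiable ℝ p) (t : ℝ) :
    Small (|t| * δ) (t • p) := by
  intro x hx
  refine ⟨?_, fun w hw => ?_⟩
  · rw [Pi.smul_apply, norm_smul, Real.norm_eq_abs]
    exact mul_le_mul_of_nonneg_left (h x hx).1 (abs_nonneg _)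
  · rw [fderiv_const_smul (hp x), smul_apply, norm_smul, Real.norm_eq_abs,
      mul_assoc]
    exact mul_le_mul_of_nonneg_left ((h x hx).2 w hw) (abs_nonneg _)

theorem Small.nonneg {δ : ℝ} {p : E → E} (h : Small δ p) : 0 ≤ δ := by
  obtain ⟨x, hx⟩ := S_nonempty
  exact (norm_nonneg _).trans (h _ hx).1

theorem Small.smul_unit {δ : ℝ} {p : E → E} (h : Small δ p) (hp : Differentiable ℝ p) {t : ℝ}
    (ht : t ∈ Icc (0 : ℝ) 1) : Small δ (t • p) :=
  (h.smul_const hp t).mono (by rw [abs_of_nonneg ht.1]; nlinarith [h.nonneg, ht.2])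

theorem Small.neg {δ : ℝ} {p : E → E} (h : Small δ p) : Small δ (-p) := by
  intro x hx
  refine ⟨by simpa using (h x hx).1, fun w hw => ?_⟩
  rw [fderiv_neg]; simpa using (h x hx).2 w hw

theorem Small.sub_comm {δ : ℝ} {f g : E → E} (h : Small δ (g - f)) : Small δ (f - g) := by
  simpa using h.neg

theorem Small.triangle {δ δ' : ℝ} {f g h : E → E} (h1 : Small δ (g - f)) (h2 : Small δ' (h - g))
    (hf : Differentiable ℝ f) (hg : Differentiable ℝ g) (hh : Differentiable ℝ h) :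
    Small (δ + δ') (h - f) := by
  have := h1.add h2 (hg.sub hf) (hh.sub hg)
  rwa [show g - f + (h - g) = h - f by abel] at this

theorem Small.sum {ι : Type*} (s : Finset ι) {δ : ι → ℝ} {p : ι → E → E}
    (h : ∀ i ∈ s, Small (δ i) (p i)) (hp : ∀ i ∈ s, Differentiable ℝ (p i)) :
    Small (∑ i ∈ s, δ i) (∑ i ∈ s, p i) := by
  classical
  induction s using Finset.induction_on with
  | empty => simpa using small_zero le_rfl
  | insert a s ha ih =>
    rw [Finset.sum_insert ha, Finset.sum_insert ha]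
    refine (h a (by simp)).add (ih (fun i hi => h i (by simp [hi])) fun i hi => hp i (by simp [hi]))
      (hp a (by simp)) ?_
    have := Differentiable.sum (u := s) (A := p) fun i hi => hp i (by simp [hi])
    exact this

/-- Multiplication by a fixed smooth function is bounded. -/
theorem exists_small_smul {χ : E → ℝ} (hχ : ContDiff ℝ ∞ χ) :
    ∃ C, 0 < C ∧ ∀ (δ : ℝ) (p : E → E), Differentiable ℝ p → Small δ p →
      Small (C * δ) (fun x => χ x • p x) := by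
  obtain ⟨C1, hC1⟩ := isCompact_S.exists_bound_of_continuousOn hχ.continuous.continuousOn
  obtain ⟨C2, hC2⟩ :=
    isCompact_S.exists_bound_of_continuousOn (smooth_cont_fderiv hχ).continuousOn
  refine ⟨|C1| + |C2| + 1, by positivity, fun δ p hp h x hx => ?_⟩
  have h0 := h.nonneg
  have h1 : ‖χ x‖ ≤ |C1| := (hC1 x hx).trans (le_abs_self _)
  have h2 : ‖fderiv ℝ χ x‖ ≤ |C2| := (hC2 x hx).trans (le_abs_self _)
  refine ⟨?_, fun w hw => ?_⟩
  · rw [norm_smul]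
    calc ‖χ x‖ * ‖p x‖ ≤ |C1| * δ := mul_le_mul h1 (h x hx).1 (norm_nonneg _) (abs_nonneg _)
      _ ≤ _ := by nlinarith [abs_nonneg C2]
  · have := fderiv_fun_smul (smooth_diff hχ x) (hp x)
    rw [this]
    simp only [add_apply, smul_apply,
      ContinuousLinearMap.smulRight_apply]
    have h3 : ‖fderiv ℝ χ x w‖ ≤ |C2| * ‖w‖ :=
      ((fderiv ℝ χ x).le_opNorm w).trans (mul_le_mul_of_nonneg_right h2 (norm_nonneg _))
    calc _ ≤ ‖χ x • fderiv ℝ p x w‖ + ‖fderiv ℝ χ x w • p x‖ := norm_add_le _ _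
      _ ≤ |C1| * (δ * ‖w‖) + |C2| * ‖w‖ * δ := by
        rw [norm_smul, norm_smul]
        exact add_le_add (mul_le_mul h1 ((h x hx).2 w hw) (norm_nonneg _) (abs_nonneg _))
          (mul_le_mul h3 (h x hx).1 (norm_nonneg _) (by positivity))
      _ ≤ _ := by nlinarith [mul_nonneg h0 (norm_nonneg w)]

theorem Small.comp_clm {δ : ℝ} {p : E → E} (h : Small δ p) (hp : Differentiable ℝ p)
    (L : E →L[ℝ] E) : Small (‖L‖ * δ) (fun x => L (p x)) := by
  intro x hx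
  refine ⟨(L.le_opNorm _).trans (mul_le_mul_of_nonneg_left (h x hx).1 (norm_nonneg _)),
    fun w hw => ?_⟩
  have : fderiv ℝ (fun x => L (p x)) x = L.comp (fderiv ℝ p x) :=
    (L.hasFDerivAt.comp x (hp x).hasFDerivAt).fderiv
  rw [this, mul_assoc]
  exact (L.le_opNorm _).trans (mul_le_mul_of_nonneg_left ((h x hx).2 w hw) (norm_nonneg _))

/-- Core first-order estimate, uniform for small perturbations. -/
theorem core_estimate {f : E → E} (hf : ContDiff ℝ ∞ f) {x₀ : E} (hx₀ : x₀ ∈ S) {η : ℝ}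
    (hη : 0 < η) :
    ∃ ρ, 0 < ρ ∧ ∃ δ, 0 < δ ∧ ∀ g : E → E, Differentiable ℝ g → Small δ (g - f) →
      ∀ x ∈ S, ∀ x' ∈ S, x ∈ ball x₀ ρ → x' ∈ ball x₀ ρ →
        ‖g x' - g x - fderiv ℝ f x₀ (x' - x)‖ ≤ η * ‖x' - x‖ := by
  have hs : HasStrictFDerivAt f (fderiv ℝ f x₀) x₀ :=
    hf.contDiffAt.hasStrictFDerivAt (by simp)
  have h1 := hs.isLittleO.def (half_pos hη)
  rw [nhds_prod_eq] at h1
  obtain ⟨s, hs1, t, ht1, hst⟩ := Filter.mem_prod_iff.1 h1
  obtain ⟨r, hr, hrst⟩ := Metric.mem_nhds_iff.1 (inter_mem hs1 ht1)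
  obtain ⟨r', hr', hlip⟩ := tangential_lip hx₀
  refine ⟨min r r', by positivity, η / 8, by positivity, fun g hg hgf x hx x' hx' hb hb' => ?_⟩
  have h2 : (x', x) ∈ s ×ˢ t := ⟨(hrst (ball_subset_ball (min_le_left _ _) hb')).1,
    (hrst (ball_subset_ball (min_le_left _ _) hb)).2⟩
  have h3 := hst h2
  simp only [mem_ofPred_eq] at h3
  have h4 := hlip (hg.sub (smooth_diff hf)) hx hx' (ball_subset_ball (min_le_right _ _) hb)
    (ball_subset_ball (min_le_right _ _) hb') (A := univ) (fun _ _ _ => trivial) hgf.nonneg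
    fun y hy _ => (hgf y hy).2
  have e : g x' - g x - fderiv ℝ f x₀ (x' - x) =
      (f x' - f x - fderiv ℝ f x₀ (x' - x)) + ((g - f) x' - (g - f) x) := by
    simp only [Pi.sub_apply]; abel
  rw [e]
  calc _ ≤ _ := norm_add_le _ _
    _ ≤ η / 2 * ‖x' - x‖ + 4 * (η / 8) * ‖x' - x‖ := add_le_add h3 h4
    _ = _ := by ring

/-- The linear map `w ↦ M w_tangential + ⟪x₀, w⟫ v`. -/
noncomputable def lin (M : E →L[ℝ] E) (x₀ v : E) : E →L[ℝ] E :=
  M + (innerSL ℝ x₀).smulRight (v - M x₀)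

theorem lin_apply (M : E →L[ℝ] E) (x₀ v w : E) :
    lin M x₀ v w = M (w - ⟪x₀, w⟫ • x₀) + ⟪x₀, w⟫ • v := by
  simp [lin, smul_sub]; abel

theorem lin_injective {f : E → E} {x₀ v : E} (hx₀ : x₀ ∈ S) (hv : ⟪nrm f x₀, v⟫ ≠ 0) :
    Injective (lin (fderiv ℝ f x₀) (unv x₀) v) := by
  rw [injective_iff_map_eq_zero]
  intro w hw
  rw [lin_apply] at hw
  have hp : ⟪unv x₀, w - ⟪unv x₀, w⟫ • unv x₀⟫ = 0 := by
    rw [inner_sub_right, real_inner_smul_right, inner_self_S hx₀]; ring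
  have h1 : ⟪nrm f x₀, fderiv ℝ f x₀ (w - ⟪unv x₀, w⟫ • unv x₀) + ⟪unv x₀, w⟫ • v⟫ = 0 := by rw [hw]; simp
  rw [inner_add_right, inner_nrm_fderiv f hp, real_inner_smul_right, zero_add] at h1
  have h2 : ⟪unv x₀, w⟫ = 0 := (mul_eq_zero.1 h1).resolve_right hv
  have hn : nrm f x₀ ≠ 0 := by rintro h; simp [h] at hv
  rw [h2] at hw
  exact inj_of_nrm_ne hn h2 (by simpa using hw)

theorem exists_antilip {L : E →L[ℝ] E} (hL : Injective L) :
    ∃ c, 0 < c ∧ ∀ w, c * ‖w‖ ≤ ‖L w‖ := by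
  obtain ⟨K, hK, hKL⟩ := LinearMap.exists_antilipschitzWith (L : E →ₗ[ℝ] E)
    (LinearMap.ker_eq_bot.2 hL)
  refine ⟨(K : ℝ)⁻¹, by positivity, fun w => ?_⟩
  have := hKL.le_mul_dist w 0
  simp only [dist_zero_right, map_zero, ContinuousLinearMap.coe_coe] at this
  rw [inv_mul_le_iff₀ (by positivity)]
  exact this

/-- Quantitative transversality of the direction `v` near `x₀`, robust under small changes of the
map and of the direction. -/
theorem robust_lower {f : E → E} (hf : ContDiff ℝ ∞ f) {x₀ v : E} (hx₀ : x₀ ∈ S)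
    (hv : ⟪nrm f x₀, v⟫ ≠ 0) :
    ∃ c, 0 < c ∧ ∃ ρ, 0 < ρ ∧ ∃ δ, 0 < δ ∧ ∀ g : E → E, Differentiable ℝ g → Small δ (g - f) →
      ∀ v' : E, ‖v' - v‖ ≤ δ → ∀ x ∈ S, ∀ x' ∈ S, x ∈ ball x₀ ρ → x' ∈ ball x₀ ρ → ∀ t : ℝ,
        c * (‖x' - x‖ + |t|) ≤ ‖g x' - g x + t • v'‖ := by
  set M := fderiv ℝ f x₀
  obtain ⟨c, hc, hL⟩ := exists_antilip (lin_injective hx₀ hv)
  obtain ⟨ρ, hρ, δ, hδ, h⟩ := core_estimate hf hx₀ (η := c / 16) (by positivity)
  have hM : 0 < ‖M‖ + 1 := by positivity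
  obtain ⟨ρ', hρ', hch⟩ := inner_chord hx₀ (η := min (1 / 2) (c / 16 / (‖M‖ + 1))) (by positivity)
  refine ⟨c / 16, by positivity, min ρ ρ', by positivity,
    min δ (c / 8), by positivity, fun g hg hgf v' hv' x hx x' hx' hb hb' t => ?_⟩
  have h1 := h g hg (hgf.mono (min_le_left _ _)) x hx x' hx'
    (ball_subset_ball (min_le_left _ _) hb) (ball_subset_ball (min_le_left _ _) hb')
  have h2 := hch x hx x' hx' (ball_subset_ball (min_le_right _ _) hb)
    (ball_subset_ball (min_le_right _ _) hb')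
  have hx1 := norm_unv hx₀
  have hxx := inner_self_S hx₀
  set n₀ := unv x₀
  set Δ := x' - x
  set s := ⟪n₀, Δ⟫
  have hρ1 : min (1 / 2) (c / 16 / (‖M‖ + 1)) ≤ 1 / 2 := min_le_left _ _
  have hρ2 : min (1 / 2) (c / 16 / (‖M‖ + 1)) ≤ c / 16 / (‖M‖ + 1) := min_le_right _ _
  have hs1 : |s| ≤ 1 / 2 * ‖Δ‖ := h2.trans (mul_le_mul_of_nonneg_right hρ1 (norm_nonneg _))
  have hs2 : |s| ≤ c / 16 / (‖M‖ + 1) * ‖Δ‖ :=
    h2.trans (mul_le_mul_of_nonneg_right hρ2 (norm_nonneg _))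
  set w := Δ - s • n₀ + t • n₀ with hw
  have hw1 : ⟪n₀, w⟫ = t := by
    simp only [hw, inner_add_right, inner_sub_right, real_inner_smul_right, hxx, s]; ring
  have hLw : lin M n₀ v w = M Δ - s • M n₀ + t • v := by
    rw [lin_apply, hw1, hw]; simp
  have ht1 : |t| ≤ ‖w‖ := by
    rw [← hw1]; simpa [hx1] using abs_real_inner_le_norm n₀ w
  have hΔ : ‖Δ‖ ≤ 4 * ‖w‖ := by
    have e : Δ = w - t • n₀ + s • n₀ := by rw [hw]; abel
    have : ‖Δ‖ ≤ ‖w‖ + |t| + |s| := by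
      calc ‖Δ‖ = ‖w - t • n₀ + s • n₀‖ := by rw [← e]
        _ ≤ ‖w‖ + ‖t • n₀‖ + ‖s • n₀‖ := (norm_add_le _ _).trans (by gcongr; exact norm_sub_le _ _)
        _ = _ := by simp [norm_smul, hx1]
    linarith
  have hsM : ‖s • M n₀‖ ≤ c / 16 * ‖Δ‖ := by
    rw [norm_smul, Real.norm_eq_abs]
    have : ‖M n₀‖ ≤ ‖M‖ + 1 := by
      have := M.le_opNorm n₀; rw [hx1] at this; linarith
    calc |s| * ‖M n₀‖ ≤ (c / 16 / (‖M‖ + 1) * ‖Δ‖) * (‖M‖ + 1) :=
          mul_le_mul hs2 this (norm_nonneg _) (by positivity)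
      _ = _ := by field_simp
  have htv : ‖t • (v' - v)‖ ≤ c / 8 * |t| := by
    rw [norm_smul, Real.norm_eq_abs, mul_comm]
    exact mul_le_mul_of_nonneg_right (hv'.trans (min_le_right _ _)) (abs_nonneg _)
  have e : lin M n₀ v w = (g x' - g x + t • v') - (g x' - g x - M Δ) - s • M n₀ - t • (v' - v) := by
    rw [hLw, smul_sub]; abel
  have h5 : ‖lin M n₀ v w‖ ≤ ‖g x' - g x + t • v'‖ + c / 16 * ‖Δ‖ + c / 16 * ‖Δ‖ + c / 8 * |t| := by
    rw [e]
    calc _ ≤ ‖(g x' - g x + t • v') - (g x' - g x - M Δ) - s • M n₀‖ + ‖t • (v' - v)‖ :=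
          norm_sub_le _ _
      _ ≤ ‖(g x' - g x + t • v') - (g x' - g x - M Δ)‖ + ‖s • M n₀‖ + ‖t • (v' - v)‖ := by
          gcongr; exact norm_sub_le _ _
      _ ≤ ‖g x' - g x + t • v'‖ + ‖g x' - g x - M Δ‖ + ‖s • M n₀‖ + ‖t • (v' - v)‖ := by
          gcongr; exact norm_sub_le _ _
      _ ≤ _ := by gcongr
  have h6 : c * ‖w‖ ≤ ‖lin M n₀ v w‖ := hL w
  have h7 := mul_le_mul_of_nonneg_left hΔ hc.le
  have h8 := mul_le_mul_of_nonneg_left ht1 hc.le
  have h9 := mul_nonneg hc.le (norm_nonneg w)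
  linarith

/-- The normal vector changes little under small perturbations. -/
theorem nrm_close {f : E → E} (hf : ContDiff ℝ ∞ f) {η : ℝ} (hη : 0 < η) :
    ∃ δ, 0 < δ ∧ ∀ g : E → E, Differentiable ℝ g → Small δ (g - f) →
      ∀ x ∈ S, ‖nrm g x - nrm f x‖ ≤ η := by
  obtain ⟨C, hC⟩ := isCompact_S.exists_bound_of_continuousOn (smooth_cont_fderiv hf).continuousOn
  have hC0 : 0 < 2 * |C| + 1 := by positivity
  refine ⟨min 1 (η / (2 * |C| + 1)), by positivity, fun g hg hgf x hx => ?_⟩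
  obtain ⟨a, b, ha, hb, ha1, hb1, -, hab⟩ := exists_tangent_basis (norm_unv hx)
  rw [nrm_eq_cross f hab, nrm_eq_cross g hab]
  have hd : fderiv ℝ (g - f) x = fderiv ℝ g x - fderiv ℝ f x :=
    fderiv_sub (hg x) (smooth_diff hf x)
  have h1 := (hgf x hx).2 a ha
  have h2 := (hgf x hx).2 b hb
  rw [hd, sub_apply, ha1, mul_one] at h1
  rw [hd, sub_apply, hb1, mul_one] at h2
  have h3 : ‖fderiv ℝ f x a‖ ≤ |C| := by
    have := (fderiv ℝ f x).le_opNorm a; rw [ha1, mul_one] at this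
    exact this.trans ((hC x hx).trans (le_abs_self _))
  have h4 : ‖fderiv ℝ f x b‖ ≤ |C| := by
    have := (fderiv ℝ f x).le_opNorm b; rw [hb1, mul_one] at this
    exact this.trans ((hC x hx).trans (le_abs_self _))
  set A := fderiv ℝ f x a
  set B := fderiv ℝ f x b
  set A' := fderiv ℝ g x a
  set B' := fderiv ℝ g x b
  set d := min 1 (η / (2 * |C| + 1))
  have hd1 : d ≤ 1 := min_le_left _ _
  have hd2 : d * (2 * |C| + 1) ≤ η := by
    rw [← le_div_iff₀ hC0]; exact min_le_right _ _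
  have hd0 : 0 ≤ d := hgf.nonneg
  have e : cross A' B' - cross A B =
      cross (A' - A) (B' - B) + cross (A' - A) B + cross A (B' - B) := by
    apply ext3 <;> simp <;> ring
  rw [e]
  have k1 : ‖cross (A' - A) (B' - B)‖ ≤ d * 1 :=
    (norm_cross_le _ _).trans (mul_le_mul h1 (h2.trans hd1) (norm_nonneg _) hd0)
  have k2 : ‖cross (A' - A) B‖ ≤ d * |C| :=
    (norm_cross_le _ _).trans (mul_le_mul h1 h4 (norm_nonneg _) hd0)
  have k3 : ‖cross A (B' - B)‖ ≤ |C| * d :=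
    (norm_cross_le _ _).trans (mul_le_mul h3 h2 (norm_nonneg _) (abs_nonneg _))
  calc _ ≤ ‖cross (A' - A) (B' - B)‖ + ‖cross (A' - A) B‖ + ‖cross A (B' - B)‖ :=
        norm_add₃_le
    _ ≤ _ := by nlinarith

theorem Imm.open {f : E → E} (hf : Imm f) :
    ∃ δ, 0 < δ ∧ ∀ g : E → E, ContDiff ℝ ∞ g → Small δ (g - f) → Imm g := by
  obtain ⟨x₁, hx₁, hmin⟩ := isCompact_S.exists_isMinOn S_nonempty
    (continuous_nrm hf.1).norm.continuousOn
  have hm : 0 < ‖nrm f x₁‖ := norm_pos_iff.2 (hf.nrm_ne hx₁)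
  obtain ⟨δ, hδ, h⟩ := nrm_close hf.1 (half_pos hm)
  refine ⟨δ, hδ, fun g hg hgf => imm_iff.2 ⟨hg, fun x hx h0 => ?_⟩⟩
  have h1 := h g (smooth_diff hg) hgf x hx
  have h2 : ‖nrm f x₁‖ ≤ ‖nrm f x‖ := hmin hx
  rw [h0, zero_sub, norm_neg] at h1
  linarith

/-- Uniform separation. -/
theorem Imm.sep' {f : E → E} (hf : Imm f) :
    ∃ ρ, 0 < ρ ∧ ∃ δ, 0 < δ ∧ ∀ g : E → E, ContDiff ℝ ∞ g → Small δ (g - f) →
      Imm g ∧ ∀ x ∈ S, ∀ x' ∈ S, dist x x' < ρ → g x = g x' → x = x' := by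
  have h := fun (x₀ : S) => robust_lower hf.1 x₀.2 (v := nrm f x₀)
    (by simpa using hf.nrm_ne x₀.2)
  choose c hc ρ hρ δ hδ h using h
  obtain ⟨t, ht⟩ := isCompact_S.elim_finite_subcover (fun x₀ : S => ball (x₀ : E) (ρ x₀ / 2))
    (fun _ => isOpen_ball) (fun x hx => mem_iUnion.2 ⟨⟨x, hx⟩, mem_ball_self (half_pos (hρ _))⟩)
  obtain ⟨δ₀, hδ₀, h₀⟩ := hf.open
  have hne : t.Nonempty := by
    obtain ⟨x, hx⟩ := S_nonempty
    obtain ⟨i, hi, -⟩ := mem_iUnion₂.1 (ht hx)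
    exact ⟨i, hi⟩
  refine ⟨t.inf' hne fun i => ρ i / 2, by simp [Finset.lt_inf'_iff, hρ],
    min δ₀ (t.inf' hne δ), by simp [Finset.lt_inf'_iff, hδ, hδ₀], fun g hg hgf =>
      ⟨h₀ g hg (hgf.mono (min_le_left _ _)), fun x hx x' hx' hd hxx => ?_⟩⟩
  obtain ⟨i, hi, hxi⟩ := mem_iUnion₂.1 (ht hx)
  have h1 : t.inf' hne (fun i => ρ i / 2) ≤ ρ i / 2 := Finset.inf'_le _ hi
  have h2 : t.inf' hne δ ≤ δ i := Finset.inf'_le _ hi
  have h3 := h i g (smooth_diff hg) (hgf.mono ((min_le_right _ _).trans h2)) (nrm f i)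
    (by simpa using (hδ i).le) x hx x' hx' (ball_subset_ball (by linarith [hρ i]) hxi)
    (by
      have := dist_triangle_left x' (i : E) x
      have := mem_ball.1 hxi
      rw [mem_ball]; linarith) 0
  rw [hxx] at h3
  simp only [abs_zero, add_zero, sub_self, zero_smul, norm_zero] at h3
  have : ‖x' - x‖ ≤ 0 := by
    by_contra h4; rw [not_le] at h4; nlinarith [hc i]
  exact (sub_eq_zero.1 (norm_le_zero_iff.1 this)).symm

theorem Imm.sep {f : E → E} (hf : Imm f) :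
    ∃ ρ, 0 < ρ ∧ ∃ δ, 0 < δ ∧ ∀ p : E → E, ContDiff ℝ ∞ p → Small δ p →
      Imm (f + p) ∧ ∀ x ∈ S, ∀ y ∈ S, dist x y < ρ → (f + p) x = (f + p) y → x = y := by
  obtain ⟨ρ, hρ, δ, hδ, h⟩ := hf.sep'
  exact ⟨ρ, hρ, δ, hδ, fun p hp hs => h (f + p) (hf.1.add hp) (by simpa using hs)⟩

/-- A map vanishing to first order at `x₀` along the surface becomes small after cutting off. -/
theorem small_cutoff {h : E → E} (hh : ContDiff ℝ ∞ h) {x₀ : E} (hx₀ : x₀ ∈ S) (h0 : h x₀ = 0)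
    (h1 : ∀ w, ⟪unv x₀, w⟫ = 0 → fderiv ℝ h x₀ w = 0) {V : Set E} (hV : V ∈ 𝓝 x₀) {δ : ℝ}
    (hδ : 0 < δ) :
    ∃ χ : E → ℝ, ContDiff ℝ ∞ χ ∧ χ =ᶠ[𝓝 x₀] 1 ∧ tsupport χ ⊆ V ∧ (∀ x, χ x ∈ Icc (0 : ℝ) 1) ∧
      Small δ (fun x => χ x • h x) := by
  let b : ContDiffBump (0 : E) := ⟨1, 2, one_pos, one_lt_two⟩
  obtain ⟨C, hC⟩ := (b.hasCompactSupport.fderiv ℝ).exists_bound_of_continuous
    (smooth_cont_fderiv b.contDiff)
  set M := fderiv ℝ h x₀
  have hC0 : 0 < 8 * |C| + 2 := by positivity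
  set η := min 1 (δ / (8 * |C| + 2)) with hη
  have hη0 : 0 < η := by positivity
  have hη1 : η * (8 * |C| + 2) ≤ δ := by rw [← le_div_iff₀ hC0]; exact min_le_right _ _
  -- tangential derivative is small near `x₀`
  have e1 : ∀ᶠ x in 𝓝 x₀, ‖fderiv ℝ h x - M‖ + ‖M (unv x₀)‖ * ‖unv x - unv x₀‖ < η / 2 ∧ ‖h x‖ < δ := by
    have c1 : ContinuousAt (fun x => ‖fderiv ℝ h x - M‖ + ‖M (unv x₀)‖ * ‖unv x - unv x₀‖) x₀ := by
      have := smooth_cont_fderiv hh
      have := unv_smooth.continuous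
      fun_prop
    have c2 : ContinuousAt (fun x => ‖h x‖) x₀ := hh.continuous.norm.continuousAt
    exact (c1.eventually_lt continuousAt_const (by simp [M, hη0])).and
      (c2.eventually_lt continuousAt_const (by simp [h0, hδ]))
  obtain ⟨r₁, hr₁, hlip⟩ := tangential_lip hx₀
  obtain ⟨r₀, hr₀, hr₀'⟩ := Metric.mem_nhds_iff.1 (inter_mem e1 hV)
  have hT : ∀ y ∈ S, y ∈ ball x₀ r₀ → ∀ w, ⟪unv y, w⟫ = 0 → ‖fderiv ℝ h y w‖ ≤ η / 2 * ‖w‖ := by
    intro y _ hy w hw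
    have k1 := (hr₀' hy).1.1
    have k2 : M w = ⟪unv x₀ - unv y, w⟫ • M (unv x₀) := by
      have : M (w - ⟪unv x₀, w⟫ • unv x₀) = 0 := h1 _ (by
        rw [inner_sub_right, real_inner_smul_right, inner_self_S hx₀]; ring)
      rw [map_sub, map_smul, sub_eq_zero] at this
      rw [this, inner_sub_left, hw, sub_zero]
    have k3 : fderiv ℝ h y w = (fderiv ℝ h y - M) w + M w := by simp
    have k4 : ‖M w‖ ≤ ‖M (unv x₀)‖ * ‖unv y - unv x₀‖ * ‖w‖ := by
      rw [k2, norm_smul, Real.norm_eq_abs, norm_sub_rev (unv y), mul_comm, mul_assoc]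
      exact mul_le_mul_of_nonneg_left (abs_real_inner_le_norm _ _) (norm_nonneg _)
    rw [k3]
    calc _ ≤ _ := norm_add_le _ _
      _ ≤ ‖fderiv ℝ h y - M‖ * ‖w‖ + ‖M (unv x₀)‖ * ‖unv y - unv x₀‖ * ‖w‖ :=
        add_le_add ((fderiv ℝ h y - M).le_opNorm w) k4
      _ ≤ _ := by rw [← add_mul]; exact mul_le_mul_of_nonneg_right k1.le (norm_nonneg _)
  set r := min (r₀ / 8) (r₁ / 8) with hr
  have hr0 : 0 < r := by positivity
  have hr1 : r ≤ r₀ / 8 := min_le_left _ _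
  have hr2 : r ≤ r₁ / 8 := min_le_right _ _
  let χ : E → ℝ := fun x => b (r⁻¹ • (x - x₀))
  have hχ : ContDiff ℝ ∞ χ := b.contDiff.comp (by fun_prop)
  have hsupp : ∀ x, χ x ≠ 0 → ‖x - x₀‖ < 2 * r := by
    intro x hx
    have : r⁻¹ • (x - x₀) ∈ support b := hx
    rw [b.support_eq, mem_ball_zero_iff, norm_smul, Real.norm_eq_abs, abs_of_pos (inv_pos.2 hr0),
      inv_mul_lt_iff₀ hr0] at this
    simpa [b, mul_comm] using this
  have htsupp : tsupport χ ⊆ closedBall x₀ (2 * r) :=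
    closure_minimal (fun x hx => by rw [mem_closedBall, dist_eq_norm]; exact (hsupp x hx).le)
      isClosed_closedBall
  have hsub : closedBall x₀ (2 * r) ⊆ ball x₀ r₀ := closedBall_subset_ball (by linarith)
  refine ⟨χ, hχ, ?_, fun x hx => (hr₀' (hsub (htsupp hx))).2, fun x => ⟨b.nonneg, b.le_one⟩, ?_⟩
  · filter_upwards [ball_mem_nhds x₀ hr0] with x hx
    apply b.one_of_mem_closedBall
    rw [mem_closedBall_zero_iff, norm_smul, Real.norm_eq_abs, abs_of_pos (inv_pos.2 hr0),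
      inv_mul_le_iff₀ hr0]
    rw [mem_ball, dist_eq_norm] at hx
    simpa [b] using hx.le
  · intro x hx
    by_cases hxs : x ∈ tsupport χ
    · have hb := htsupp hxs
      have hb' := hsub hb
      rw [mem_closedBall, dist_eq_norm] at hb
      have hχ1 : ‖χ x‖ ≤ 1 := by
        rw [Real.norm_eq_abs, abs_of_nonneg b.nonneg]; exact b.le_one
      refine ⟨?_, fun w hw => ?_⟩
      · rw [norm_smul]
        have := (hr₀' hb').1.2
        nlinarith [norm_nonneg (h x), norm_nonneg (χ x)]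
      · have hl : ‖h x - h x₀‖ ≤ 4 * (η / 2) * ‖x - x₀‖ :=
          hlip (smooth_diff hh) hx₀ hx (mem_ball_self hr₁)
            (by rw [mem_ball, dist_eq_norm]; linarith) (A := ball x₀ r₀)
            (fun y _ hy => by rw [mem_ball, dist_eq_norm]; linarith) (by positivity) hT
        rw [h0, sub_zero] at hl
        have hdχ : ‖fderiv ℝ χ x w‖ ≤ |C| * (r⁻¹ * ‖w‖) := by
          have d1 : HasFDerivAt (fun x : E => r⁻¹ • (x - x₀))
              (r⁻¹ • ContinuousLinearMap.id ℝ E) x :=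
            ((hasFDerivAt_id x).sub_const x₀).const_smul r⁻¹
          have d2 := ((smooth_diff b.contDiff (r⁻¹ • (x - x₀))).hasFDerivAt.comp x d1).fderiv
          have d3 : fderiv ℝ χ x = _ := d2
          rw [d3, ContinuousLinearMap.comp_apply]
          refine (ContinuousLinearMap.le_opNorm _ _).trans (mul_le_mul
            ((hC _).trans (le_abs_self _)) (le_of_eq ?_) (norm_nonneg _) (abs_nonneg _))
          simp [norm_smul, abs_of_pos hr0]
        rw [fderiv_fun_smul (smooth_diff hχ x) (smooth_diff hh x)]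
        simp only [add_apply, smul_apply,
          ContinuousLinearMap.smulRight_apply]
        have k1 : ‖χ x • fderiv ℝ h x w‖ ≤ η / 2 * ‖w‖ := by
          rw [norm_smul]
          have := hT x hx hb' w hw
          nlinarith [norm_nonneg (fderiv ℝ h x w), norm_nonneg (χ x)]
        have k2 : ‖fderiv ℝ χ x w • h x‖ ≤ |C| * (r⁻¹ * ‖w‖) * (4 * (η / 2) * (2 * r)) := by
          rw [norm_smul]
          exact mul_le_mul hdχ (hl.trans (by gcongr)) (norm_nonneg _) (by positivity)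
        have k3 : |C| * (r⁻¹ * ‖w‖) * (4 * (η / 2) * (2 * r)) = 4 * |C| * η * ‖w‖ := by
          field_simp
        calc _ ≤ _ := norm_add_le _ _
          _ ≤ η / 2 * ‖w‖ + 4 * |C| * η * ‖w‖ := add_le_add k1 (k3 ▸ k2)
          _ ≤ _ := by
            rw [← add_mul]
            apply mul_le_mul_of_nonneg_right _ (norm_nonneg _)
            nlinarith [abs_nonneg C]
    · have hev : (fun x => χ x • h x) =ᶠ[𝓝 x] 0 := by
        filter_upwards [notMem_tsupport_iff_eventuallyEq.1 hxs] with y hy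
        simp [hy]
      refine ⟨by beta_reduce; rw [hev.eq_of_nhds]; simpa using hδ.le, fun w _ => ?_⟩
      rw [hev.fderiv_eq]; simp; positivity

end Pool.Agent.Lib.Q28
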