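import Pool.Agent.Lib.Q28.Main

/-! Concatenation of smooth families and change of the extension off the surface. -/

namespace Pool.Agent.Lib.Q28

open scoped ContDiff RealInnerProductSpace Topology
open Metric Set Function Filter

set_option linter.unusedSectionVars false

variable [Sf]

theorem step_refl {f : E → E} (hf : I4 f) : Step f f :=
  ⟨fun _ => f, hf.1.1.comp contDiff_snd, fun _ _ => hf, rfl, rfl⟩

theorem step_trans {f g h : E → E} (h1 : Step f g) (h2 : Step g h) : Step f h := by
  obtain ⟨H1, a1, a2, a3, a4⟩ := h1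
  obtain ⟨H2, b1, b2, b3, b4⟩ := h2
  have hg : ContDiff ℝ ∞ g := by
    have := (a2 1 ⟨zero_le_one, le_rfl⟩).1.1
    rwa [a4] at this
  have hσ : ∀ t, Real.smoothTransition t ∈ Icc (0 : ℝ) 1 :=
    fun t => ⟨Real.smoothTransition.nonneg t, Real.smoothTransition.le_one t⟩
  have e1 : ∀ t : ℝ, t ≤ 1 / 2 → (fun x => H1 (Real.smoothTransition (2 * t)) x +
      H2 (Real.smoothTransition (2 * t - 1)) x - g x) = H1 (Real.smoothTransition (2 * t)) := by
    intro t ht
    funext x
    rw [Real.smoothTransition.zero_of_nonpos (x := 2 * t - 1) (by linarith), b3]; simp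
  have e2 : ∀ t : ℝ, 1 / 2 ≤ t → (fun x => H1 (Real.smoothTransition (2 * t)) x +
      H2 (Real.smoothTransition (2 * t - 1)) x - g x) =
      H2 (Real.smoothTransition (2 * t - 1)) := by
    intro t ht
    funext x
    rw [Real.smoothTransition.one_of_one_le (x := 2 * t) (by linarith), a4]; simp
  refine ⟨fun t x => H1 (Real.smoothTransition (2 * t)) x +
    H2 (Real.smoothTransition (2 * t - 1)) x - g x, ?_, fun t _ => ?_, ?_, ?_⟩
  · have c1 : ContDiff ℝ ∞ fun p : ℝ × E => Real.smoothTransition (2 * p.1) :=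
      Real.smoothTransition.contDiff.comp (by fun_prop)
    have c2 : ContDiff ℝ ∞ fun p : ℝ × E => Real.smoothTransition (2 * p.1 - 1) :=
      Real.smoothTransition.contDiff.comp (by fun_prop)
    exact ((a1.comp (c1.prodMk contDiff_snd)).add (b1.comp (c2.prodMk contDiff_snd))).sub
      (hg.comp contDiff_snd)
  · rcases le_total t (1 / 2) with ht | ht
    · simp only [e1 t ht]; exact a2 _ (hσ _)
    · simp only [e2 t ht]; exact b2 _ (hσ _)
  · simp only [e1 0 (by norm_num)]
    rw [Real.smoothTransition.zero_of_nonpos (by norm_num), a3]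
  · simp only [e2 1 (by norm_num)]
    rw [Real.smoothTransition.one_of_one_le (by norm_num), b4]

theorem step_of_rel {F G : E → E} (hF : I4 F) (h : Rel F G) : Step F G := by
  induction h with
  | refl => exact step_refl hF
  | tail _ h2 ih => exact step_trans ih h2

theorem lt_four {n : ℕ∞} : n < 4 ↔ n ≤ 3 := by
  have : (4 : ℕ∞) = 3 + 1 := by norm_num
  rw [this]
  exact ENat.lt_add_one_iff (by simp)

theorem imm_congr {F G : E → E} (hF : Imm F) (hG : ContDiff ℝ ∞ G) (h : ∀ x ∈ S, G x = F x) :
    Imm G := by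
  refine ⟨hG, fun x hx w hw h0 => hF.2 x hx w hw ?_⟩
  rw [← fderiv_congr_S (smooth_diff hF.1) (smooth_diff hG) hx (Eventually.of_forall h) hw, h0]

theorem istep_of_eqOn {F G : E → E} (hF : Imm F) (hG : ContDiff ℝ ∞ G) (h : ∀ x ∈ S, G x = F x) :
    IStep F G := by
  have hF1 := hF.1
  refine ⟨fun t x => F x + t • (G x - F x), ?_, fun t _ => imm_congr hF (by fun_prop)
    fun x hx => by simp [h x hx], by simp, by simp⟩
  change ContDiff ℝ ∞ fun p : ℝ × E => F p.2 + p.1 • (G p.2 - F p.2)
  fun_prop

end Pool.Agent.Lib.Q28
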