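import Pool.Agent.Lib.Q28.ConnPrep

/-! The arrangement of sheets in a thin cylinder about the line through two triple points. -/

namespace Pool.Agent.Lib.Q28.Connect

open scoped ContDiff RealInnerProductSpace Topology
open Metric Set Function Filter

set_option linter.unusedSectionVars false

variable [Sf]

theorem exists_pos_of_ev {P : ℝ → Prop} (h : ∀ᶠ t in 𝓝 (0 : ℝ), P t) : ∃ t, P t ∧ 0 < t :=
  ((h.filter_mono (nhdsWithin_le_nhds (s := Ioi 0))).and self_mem_nhdsWithin).exists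

theorem inner_nv {n v : E} (h : ⟪n, v⟫ ≠ 0) : ⟪nv n v, v⟫ = 1 := by
  rw [nv, real_inner_smul_left, inv_mul_cancel₀ h]

theorem smul_nv {n v : E} (h : ⟪n, v⟫ ≠ 0) : n = ⟪n, v⟫ • nv n v := by
  rw [nv, smul_smul, mul_inv_cancel₀ h, one_smul]

theorem norm_le_of_flat {ν v y : E} (h1 : ⟪ν, v⟫ = 1) (h0 : ⟪ν, y⟫ = 0) :
    ‖y‖ ≤ ‖ν‖ * ‖cross y v‖ := by
  have := cross_cross_right ν y v
  rw [h1, h0, one_smul, zero_smul, sub_zero] at this
  conv_lhs => rw [← this]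
  exact norm_cross_le _ _

theorem near_line {q v : E} (hv : v ≠ 0) {δ : ℝ} (hδ : 0 < δ) :
    ∀ᶠ r in 𝓝 (0 : ℝ), ∀ y, ‖cross (y - q) v‖ ≤ r →
      ∃ y₀ ∈ {y | cross (y - q) v = 0}, ‖y - y₀‖ ≤ δ := by
  have hvv : ⟪v, v⟫ ≠ 0 := by simpa using hv
  have c : ContinuousAt (fun r : ℝ => ‖nv v v‖ * r) 0 := by fun_prop
  filter_upwards [c.eventually_lt continuousAt_const (by simpa using hδ)] with r hr y hy
  refine ⟨q + ⟪nv v v, y - q⟫ • v, by simp [cross_smul_left], ?_⟩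
  have := cross_cross_right (nv v v) (y - q) v
  rw [inner_nv hvv, one_smul] at this
  rw [show y - (q + ⟪nv v v, y - q⟫ • v) = y - q - ⟪nv v v, y - q⟫ • v by abel, ← this]
  exact (norm_cross_le _ _).trans ((mul_le_mul_of_nonneg_left hy (norm_nonneg _)).trans hr.le)

theorem cov_sheet {f : E → E} (hf : ContDiff ℝ ∞ f) {x v ν : E} (hx : x ∈ S)
    (hv : ⟪nrm f x, v⟫ ≠ 0) (hν : ⟪ν, v⟫ = 1) {V : Set E} (hV : V ∈ 𝓝 x)
    (hflat : ∀ z ∈ V, ⟪ν, f z - f x⟫ = 0) :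
    ∀ᶠ r in 𝓝 (0 : ℝ), ∀ y, ‖cross (y - f x) v‖ ≤ r → ⟪ν, y - f x⟫ = 0 →
      ∃ z ∈ S, z ∈ V ∧ f z = y := by
  obtain ⟨η, hη, H⟩ := Metric.eventually_nhds_iff.1 (local_surj hf hx hv hV one_pos)
  have c : ContinuousAt (fun r : ℝ => ‖ν‖ * r) 0 := by fun_prop
  filter_upwards [c.eventually_lt continuousAt_const (by simpa using hη)] with r hr y hy h0
  obtain ⟨z, hz, hzV, t, -, ht⟩ := H (y := y) (by
    rw [dist_eq_norm]
    exact (norm_le_of_flat hν h0).trans_lt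
      ((mul_le_mul_of_nonneg_left hy (norm_nonneg _)).trans_lt hr))
  refine ⟨z, hz, hzV, ?_⟩
  have e : y - f x = (f z - f x) + t • v := by rw [← ht]; abel
  rw [e, inner_add_right, hflat z hzV, real_inner_smul_right, hν] at h0
  have : t = 0 := by linarith
  rw [← ht, this, zero_smul, add_zero]

/-- The arrangement of sheets in the cylinder of radius `r`. -/
structure Arr (f : E → E) (x x' : Fin 3 → E) (q q' : E) (ν ν' : Fin 3 → E) (ρ r : ℝ) : Prop where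
  ρ0 : 0 < ρ
  r0 : 0 < r
  d1 : ∀ i j, i ≠ j → Disjoint (ball (x i) ρ) (ball (x j) ρ)
  d2 : ∀ i j, Disjoint (ball (x i) ρ) (ball (x' j) ρ)
  d3 : ∀ i j, i ≠ j → Disjoint (ball (x' i) ρ) (ball (x' j) ρ)
  vd : ∀ i, VD f (ball (x i) ρ) (q' - q)
  vd' : ∀ i, VD f (ball (x' i) ρ) (q' - q)
  fl : ∀ i, ∀ z ∈ ball (x i) ρ, ⟪ν i, f z - q⟫ = 0
  fl' : ∀ i, ∀ z ∈ ball (x' i) ρ, ⟪ν' i, f z - q'⟫ = 0
  cov : ∀ i y, ‖cross (y - q) (q' - q)‖ ≤ r → ⟪ν i, y - q⟫ = 0 →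
    ∃ z ∈ S, z ∈ ball (x i) (ρ / 2) ∧ f z = y
  cov' : ∀ i y, ‖cross (y - q) (q' - q)‖ ≤ r → ⟪ν' i, y - q'⟫ = 0 →
    ∃ z ∈ S, z ∈ ball (x' i) ρ ∧ f z = y
  tr : ∀ z ∈ S, ‖cross (f z - q) (q' - q)‖ ≤ r → ∀ u : E, ‖u‖ ≤ r → ⟪nrm f z, q' - q + u⟫ ≠ 0
  one : ∀ z ∈ S, ∀ z' ∈ S, z ∉ ball (x 0) ρ → z ∉ ball (x 1) ρ → (∀ j, z ∉ ball (x' j) ρ) →
    z' ∉ ball (x 0) ρ → z' ∉ ball (x 1) ρ → (∀ j, z' ∉ ball (x' j) ρ) → f z = f z' →
    ‖cross (f z - q) (q' - q)‖ ≤ r → z = z'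
  top : ∀ z ∈ S, z ∉ ball (x 0) ρ → z ∉ ball (x 1) ρ → ‖cross (f z - q) (q' - q)‖ ≤ r →
    ∀ i, ⟪ν' i, f z - q'⟫ = 0 → ∃ j, z ∈ ball (x' j) ρ

theorem cross_shift (y q q' : E) : cross (y - q') (q' - q) = cross (y - q) (q' - q) := by
  rw [show y - q = (y - q') + (q' - q) by abel, cross_add_left, cross_self, add_zero]

theorem Prep.arr {f : E → E} {x x' : Fin 3 → E} {q q' : E} (h : Prep f x x' q q') :
    ∃ ρ r, Arr f x x' q q' (fun i => nv (nrm f (x i)) (q' - q))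
      (fun i => nv (nrm f (x' i)) (q' - q)) ρ r := by
  have hv : q' - q ≠ 0 := sub_ne_zero.2 h.ne.symm
  have hf := h.i4.1.1
  set v := q' - q with hvdef
  set X : Fin 3 ⊕ Fin 3 → E := Sum.elim x x' with hX
  have hXi : Injective X := six_inj h.tt h.tt' h.ne
  have hXS : ∀ i, X i ∈ S := by
    rintro (i | i)
    · exact h.tt.1 i
    · exact h.tt'.1 i
  have hXv : ∀ i, ⟪nrm f (X i), v⟫ ≠ 0 := by
    rintro (i | i)
    · exact h.gen.g1 i
    · exact h.gen.g2 i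
  have hXf : ∀ i, ∀ᶠ y in 𝓝 (X i), ⟪nrm f (X i), f y - f (X i)⟫ = 0 := by
    rintro (i | i)
    · have : f (X (Sum.inl i)) = q := h.tt.2.2.1 i
      rw [this]; exact h.flat i
    · have : f (X (Sum.inr i)) = q' := h.tt'.2.2.1 i
      rw [this]; exact h.flat' i
  choose ρ₁ hρ₁ hV using fun i => exists_VD_self hf (hXS i) (hXv i)
  choose ρ₂ hρ₂ hF using fun i => Metric.eventually_nhds_iff.1 (hXf i)
  obtain ⟨ρ, hρ, h1, h2, h3⟩ : ∃ ρ, 0 < ρ ∧ (∀ i, ρ ≤ ρ₁ i) ∧ (∀ i, ρ ≤ ρ₂ i) ∧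
      ∀ i j, i ≠ j → ρ ≤ dist (X i) (X j) / 2 := by
    have : ∀ᶠ t in 𝓝[>] (0 : ℝ), (∀ i, t ≤ ρ₁ i) ∧ (∀ i, t ≤ ρ₂ i) ∧
        ∀ i j, i ≠ j → t ≤ dist (X i) (X j) / 2 := by
      refine mem_nhdsWithin_of_mem_nhds ((eventually_all.2 fun i => eventually_le_nhds (hρ₁ i)).and
        ((eventually_all.2 fun i => eventually_le_nhds (hρ₂ i)).and
          (eventually_all.2 fun i => eventually_all.2 fun j => eventually_all.2 fun hij =>
            eventually_le_nhds (half_pos (dist_pos.2 (hXi.ne hij))))))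
    obtain ⟨t, ht, ht0⟩ := (this.and self_mem_nhdsWithin).exists
    exact ⟨t, ht0, ht⟩
  have hdisj : ∀ i j, i ≠ j → Disjoint (ball (X i) ρ) (ball (X j) ρ) := fun i j hij =>
    ball_disjoint_ball (by linarith [h3 i j hij])
  have hVD : ∀ i, VD f (ball (X i) ρ) v := fun i => (hV i).mono isOpen_ball (ball_subset_ball (h1 i))
  have hfl : ∀ i, ∀ z ∈ ball (X i) ρ, ⟪nv (nrm f (X i)) v, f z - f (X i)⟫ = 0 := by
    intro i z hz
    rw [nv, real_inner_smul_left, hF i ((mem_ball.1 hz).trans_le (h2 i)), mul_zero]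
  have hcov := eventually_all.2 fun i => cov_sheet hf (hXS i) (hXv i) (inner_nv (hXv i))
    (ball_mem_nhds (X i) (half_pos hρ)) (fun z hz => hfl i z (ball_subset_ball (by linarith) hz))
  -- the rest of the surface
  set C : Set E := S \ (ball (x 0) ρ ∪ ball (x 1) ρ ∪ ⋃ j, ball (x' j) ρ) with hC
  have hCc : IsCompact C :=
    isCompact_S.diff ((isOpen_ball.union isOpen_ball).union (isOpen_iUnion fun _ => isOpen_ball))
  have memC : ∀ z ∈ S, z ∉ ball (x 0) ρ → z ∉ ball (x 1) ρ → (∀ j, z ∉ ball (x' j) ρ) → z ∈ C := by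
    intro z hz a1 a2 a3
    refine ⟨hz, ?_⟩
    rintro ((b | b) | b)
    · exact a1 b
    · exact a2 b
    · obtain ⟨j, hj⟩ := mem_iUnion.1 b
      exact a3 j hj
  have notq' : ∀ z ∈ C, f z ≠ q' := by
    intro z hz he
    have : z ∈ fib f S q' := ⟨hz.1, he⟩
    rw [h.tt'.fib_eq h.i4] at this
    obtain ⟨j, rfl⟩ := this
    exact hz.2 (Or.inr (mem_iUnion.2 ⟨j, mem_ball_self hρ⟩))
  have isq : ∀ z ∈ C, f z = q → z = x 2 := by
    intro z hz he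
    have : z ∈ fib f S q := ⟨hz.1, he⟩
    rw [h.tt.fib_eq h.i4] at this
    obtain ⟨j, rfl⟩ := this
    fin_cases j
    · exact absurd (Or.inl (Or.inl (mem_ball_self hρ))) hz.2
    · exact absurd (Or.inl (Or.inr (mem_ball_self hρ))) hz.2
    · rfl
  have hL : IsClosed {y : E | cross (y - q) v = 0} := isClosed_eq (by fun_prop) continuous_const
  obtain ⟨δ₁, hδ₁, hm⟩ := mult_open h.i4.1 hCc.isClosed sdiff_subset hL (k := 1) (by
    intro y hy
    rw [Nat.cast_one, encard_le_one_iff_subsingleton]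
    intro z hz z' hz'
    by_contra hne
    rcases h.dbl z hz.1.1 z' hz'.1.1 hne (hz.2.trans hz'.2.symm) (hz.2 ▸ hy) with a | a
    · exact hne ((isq z hz.1 a).trans (isq z' hz'.1 (hz'.2.trans (hz.2.symm.trans a))).symm)
    · exact notq' z hz.1 a)
  have hm' := hm f hf (by simpa using small_zero hδ₁.le)
  obtain ⟨η, hη, hηC⟩ := Metric.isOpen_iff.1 (hCc.image hf.continuous).isClosed.isOpen_compl q'
    (by rintro ⟨z, hz, he⟩; exact notq' z hz he)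
  have htop : ∀ᶠ r in 𝓝 (0 : ℝ), ∀ i, ‖nv (nrm f (x' i)) v‖ * r < η := by
    refine eventually_all.2 fun i => ?_
    have c : ContinuousAt (fun r : ℝ => ‖nv (nrm f (x' i)) v‖ * r) 0 := by fun_prop
    exact c.eventually_lt continuousAt_const (by simpa using hη)
  -- uniform transversality
  have htr : ∀ᶠ r in 𝓝 (0 : ℝ), ∀ z ∈ S, ‖cross (f z - q) v‖ ≤ r → ∀ u : E, ‖u‖ ≤ r →
      ⟪nrm f z, v + u⟫ ≠ 0 := by
    have hn := continuous_nrm hf
    have hfc := hf.continuous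
    have := isCompact_S.eventually_forall_of_forall_eventually (x₀ := (0 : ℝ))
      (P := fun r z => r < ‖cross (f z - q) v‖ ∨ ‖nrm f z‖ * r < |⟪nrm f z, v⟫|) (by
        intro z hz
        by_cases hc : cross (f z - q) v = 0
        · have c1 : ContinuousAt (fun p : ℝ × E => ‖nrm f p.2‖ * p.1) (0, z) := by fun_prop
          have c2 : ContinuousAt (fun p : ℝ × E => |⟪nrm f p.2, v⟫|) (0, z) := by fun_prop
          filter_upwards [c1.eventually_lt c2 (by simpa using h.tr z hz hc)] with p hp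
          exact Or.inr hp
        · have c1 : ContinuousAt (fun p : ℝ × E => p.1) (0, z) := by fun_prop
          have c2 : ContinuousAt (fun p : ℝ × E => ‖cross (f p.2 - q) v‖) (0, z) := by fun_prop
          filter_upwards [c1.eventually_lt c2 (by simpa using hc)] with p hp
          exact Or.inl hp)
    filter_upwards [this] with r hr z hz hc u hu h0
    rcases hr z hz with a | a
    · linarith
    · rw [inner_add_right] at h0
      have b : ⟪nrm f z, v⟫ = -⟪nrm f z, u⟫ := by linarith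
      rw [b, abs_neg] at a
      have := (abs_real_inner_le_norm (nrm f z) u).trans
        (mul_le_mul_of_nonneg_left hu (norm_nonneg _))
      linarith
  obtain ⟨r, ⟨r1, r2, r3, r4⟩, hr⟩ := exists_pos_of_ev
    (hcov.and ((near_line (q := q) hv hδ₁).and (htop.and htr)))
  refine ⟨ρ, r, hρ, hr, fun i j hij => hdisj (Sum.inl i) (Sum.inl j) (by simpa using hij),
    fun i j => hdisj (Sum.inl i) (Sum.inr j) (by simp),
    fun i j hij => hdisj (Sum.inr i) (Sum.inr j) (by simpa using hij),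
    fun i => hVD (Sum.inl i), fun i => hVD (Sum.inr i), fun i z hz => ?_, fun i z hz => ?_,
    fun i y a b => ?_, fun i y a b => ?_, r4, fun z hz z' hz' a1 a2 a3 b1 b2 b3 he hc => ?_,
    fun z hz a1 a2 hc i h0 => ?_⟩
  · have := hfl (Sum.inl i) z hz
    rwa [show f (X (Sum.inl i)) = q from h.tt.2.2.1 i] at this
  · have := hfl (Sum.inr i) z hz
    rwa [show f (X (Sum.inr i)) = q' from h.tt'.2.2.1 i] at this
  · have := r1 (Sum.inl i) y
    rw [show f (X (Sum.inl i)) = q from h.tt.2.2.1 i] at this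
    exact this a b
  · have := r1 (Sum.inr i) y
    rw [show f (X (Sum.inr i)) = q' from h.tt'.2.2.1 i, cross_shift] at this
    obtain ⟨z, hz, hz', he⟩ := this a b
    exact ⟨z, hz, ball_subset_ball (by linarith) hz', he⟩
  · have := hm' (f z) (r2 _ hc)
    rw [Nat.cast_one, encard_le_one_iff_subsingleton] at this
    exact this ⟨memC z hz a1 a2 a3, rfl⟩ ⟨memC z' hz' b1 b2 b3, he.symm⟩
  · by_contra hcon
    push Not at hcon
    refine hηC ?_ ⟨z, memC z hz a1 a2 hcon, rfl⟩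
    rw [mem_ball, dist_eq_norm]
    refine (norm_le_of_flat (inner_nv (h.gen.g2 i)) h0).trans_lt ?_
    rw [cross_shift]
    exact (mul_le_mul_of_nonneg_left hc (norm_nonneg _)).trans_lt (r3 i)

theorem four_det (v a b c d : E) : ⟪a, v⟫ * det3 b c d - ⟪b, v⟫ * det3 a c d +
    ⟪c, v⟫ * det3 a b d - ⟪d, v⟫ * det3 a b c = 0 := by
  simp only [det3_eq, inner3]; ring

/-- The linear algebra of the tilt. -/
theorem exists_tilt {v : E} {ν ν' : Fin 3 → E} (h1 : ∀ i, ⟪ν i, v⟫ = 1) (h2 : ∀ i, ⟪ν' i, v⟫ = 1)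
    (hΔ : det3 (ν 0) (ν 1) (ν 2) ≠ 0) (g1 : ⟪ν 2 - ν 0, cross (ν' 0) (ν' 1)⟫ ≠ 0)
    (g2 : ⟪ν 2 - ν 0, cross (ν' 0) (ν' 2)⟫ ≠ 0) {r : ℝ} (hr : 0 < r) :
    ∃ m u₁ u₂ : E, ⟪m, v⟫ = 0 ∧
      (∀ s ∈ Icc (0 : ℝ) 1, det3 (ν 0 - s • m) (ν 1 - s • m) (ν 2) ≠ 0) ∧
      ‖u₁‖ ≤ r ∧ ‖cross u₁ v‖ < r / 2 ∧ ‖cross u₂ v‖ < r / 2 ∧
      ⟪ν 0 - m, v + u₁⟫ = 0 ∧ ⟪ν 1 - m, v + u₁⟫ = 0 ∧ ⟪ν' 0, u₁⟫ = 0 ∧
      ⟪ν 0 - m, v + u₂⟫ = 0 ∧ ⟪ν' 0, u₂⟫ = 0 ∧ ⟪ν' 1, u₂⟫ = 0 ∧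
      det3 (ν 0 - m) (ν' 0) (ν' 1) ≠ 0 ∧ det3 (ν 0 - m) (ν' 0) (ν' 2) ≠ 0 ∧
      det3 (ν' 0) (ν' 1) (ν 1 - m) ≠ 0 := by
  set Δ := det3 (ν 0) (ν 1) (ν 2) with hΔ'
  set w := ν 2 - ν 0 with hw
  set U₁ := Δ⁻¹ • cross (ν 0 - ν 1) (ν' 0) with hU₁
  set U₂ := ⟪w, cross (ν' 0) (ν' 1)⟫⁻¹ • cross (ν' 0) (ν' 1) with hU₂
  set Θ := det3 (ν 0) (ν 1) (ν' 0) with hΘ
  have c1 : ContinuousAt (fun e : ℝ => e * (Θ * Δ)) 0 := by fun_prop
  have c2 : ContinuousAt (fun e : ℝ => ‖e • U₁‖) 0 := by fun_prop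
  have c3 : ContinuousAt (fun e : ℝ => ‖cross (e • U₁) v‖) 0 := by fun_prop
  have c4 : ContinuousAt (fun e : ℝ => ‖cross (e • U₂) v‖) 0 := by fun_prop
  have c5 : ContinuousAt (fun e : ℝ =>
    ⟪w, cross (ν' 0) (ν' 1)⟫ + e * ⟪ν 0 - ν 1, cross (ν' 0) (ν' 1)⟫) 0 := by fun_prop
  obtain ⟨e, ⟨e1, e2, e3, e4, e5⟩, he0⟩ := exists_pos_of_ev
    ((c1.eventually_lt (g := fun _ => Δ ^ 2) continuousAt_const (by simp; positivity)).and
    ((c2.eventually_lt (g := fun _ => r) continuousAt_const (by simpa using hr)).and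
    ((c3.eventually_lt (g := fun _ => r / 2) continuousAt_const (by simpa using hr)).and
    ((c4.eventually_lt (g := fun _ => r / 2) continuousAt_const (by simpa using hr)).and
    (c5.eventually_ne (y := 0) (by simpa using g1))))))
  have hwv : ⟪w, v⟫ = 0 := by rw [hw, inner_sub_left, h1, h1, sub_self]
  have hwU₁ : ⟪w, U₁⟫ = 1 := by
    rw [hU₁, real_inner_smul_right, inv_mul_eq_one₀ hΔ]
    have := four_det v (ν 0) (ν 1) (ν 2) (ν' 0)
    rw [h1, h1, h1, h2] at this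
    simp only [hΔ', hw, det3_eq, inner3, cross0, cross1, cross2, PiLp.sub_apply] at this ⊢
    linear_combination -this
  have hwU₂ : ⟪w, U₂⟫ = 1 := by rw [hU₂, real_inner_smul_right, inv_mul_cancel₀ g1]
  have a1 : ⟪ν' 0, U₁⟫ = 0 := by rw [hU₁, real_inner_smul_right, inner_right_cross, mul_zero]
  have a2 : ⟪ν 0 - ν 1, U₁⟫ = 0 := by rw [hU₁, real_inner_smul_right, inner_left_cross, mul_zero]
  have a3 : ⟪ν' 0, U₂⟫ = 0 := by rw [hU₂, real_inner_smul_right, inner_left_cross, mul_zero]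
  have a4 : ⟪ν' 1, U₂⟫ = 0 := by rw [hU₂, real_inner_smul_right, inner_right_cross, mul_zero]
  have ea : ν 0 - (e⁻¹ • w + (ν 0 - ν' 0)) = ν' 0 - e⁻¹ • w := by abel
  have eb : ν 1 - (e⁻¹ • w + (ν 0 - ν' 0)) = ν' 0 - e⁻¹ • w - (ν 0 - ν 1) := by abel
  have ia : ∀ U : E, ⟪ν' 0, U⟫ = 0 → ⟪w, U⟫ = 1 → ⟪ν' 0 - e⁻¹ • w, v + e • U⟫ = 0 := by
    intro U b1 b2
    rw [inner_sub_left, inner_add_right, real_inner_smul_left, inner_add_right,
      real_inner_smul_right, real_inner_smul_right, h2, b1, b2, hwv]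
    field_simp
    ring
  have da : ∀ n : E, det3 (ν' 0 - e⁻¹ • w) (ν' 0) n = -(e⁻¹ * ⟪w, cross (ν' 0) n⟫) := by
    intro n
    simp only [det3_eq, inner3, cross0, cross1, cross2, PiLp.sub_apply, PiLp.smul_apply,
      smul_eq_mul]
    ring
  refine ⟨e⁻¹ • w + (ν 0 - ν' 0), e • U₁, e • U₂, ?_, fun s hs => ?_, e2.le, e3, e4, ?_, ?_, ?_, ?_,
    ?_, ?_, ?_, ?_, ?_⟩
  · rw [inner_add_left, real_inner_smul_left, hwv, inner_sub_left, h1, h2]; simp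
  · have k : det3 (ν 0 - s • (e⁻¹ • w + (ν 0 - ν' 0))) (ν 1 - s • (e⁻¹ • w + (ν 0 - ν' 0))) (ν 2) =
        Δ + s * (e⁻¹ * Δ - Θ) := by
      have := four_det v (ν 0) (ν 1) (ν 2) (ν' 0)
      rw [h1, h1, h1, h2] at this
      simp only [hΔ', hΘ, hw, det3_eq, PiLp.sub_apply, PiLp.add_apply, PiLp.smul_apply,
        smul_eq_mul] at this ⊢
      linear_combination s * this
    rw [k]
    intro h0
    have k1 : e * Δ * (Δ + s * (e⁻¹ * Δ - Θ)) = e * Δ ^ 2 + s * (Δ ^ 2 - e * (Θ * Δ)) := by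
      field_simp
    rw [h0, mul_zero] at k1
    have : 0 < e * Δ ^ 2 := by positivity
    nlinarith [mul_nonneg hs.1 (sub_nonneg.2 e1.le)]
  · rw [ea]; exact ia _ a1 hwU₁
  · rw [eb, inner_sub_left, ia _ a1 hwU₁, inner_add_right, real_inner_smul_right, a2,
      inner_sub_left, h1, h1]
    simp
  · rw [real_inner_smul_right, a1, mul_zero]
  · rw [ea]; exact ia _ a3 hwU₂
  · rw [real_inner_smul_right, a3, mul_zero]
  · rw [real_inner_smul_right, a4, mul_zero]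
  · rw [ea, da]; exact neg_ne_zero.2 (mul_ne_zero (inv_ne_zero he0.ne') g1)
  · rw [ea, da]; exact neg_ne_zero.2 (mul_ne_zero (inv_ne_zero he0.ne') g2)
  · rw [eb]
    intro h0
    apply e5
    rw [det3, inner_sub_right, inner_sub_right, inner_cross_left, real_inner_smul_right,
      real_inner_comm w, real_inner_comm (ν 0 - ν 1)] at h0
    field_simp at h0
    linarith

end Pool.Agent.Lib.Q28.Connect
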