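import Pool.Agent.Lib.Q28.ConnLine

/-! Preparing a pair of triple points: twisting, flattening and general position. -/

namespace Pool.Agent.Lib.Q28.Connect

open scoped ContDiff RealInnerProductSpace Topology
open Metric Set Function Filter

set_option linter.unusedSectionVars false

variable [Sf]

/-- The classes across `q` and `q'` agree for `f` and `g`. -/
def Same (f g : E → E) (q q' : E) : Prop :=
  ∀ γ : E → E, (Tau f q 1 γ ↔ Tau g q 1 γ) ∧ (Tau f q' 1 γ ↔ Tau g q' 1 γ)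

theorem Same.conn {f g : E → E} {q q' : E} (h : Same f g q q') (hc : Conn g q q') :
    Conn f q q' := fun γ => (h γ).1.trans ((hc γ).trans (h γ).2.symm)

theorem Same.swap {f g : E → E} {q q' : E} (h : Same f g q q') : Same f g q' q :=
  fun γ => (h γ).symm

theorem same_family {G : ℝ → E → E} (hG : ContDiff ℝ ∞ (uncurry G)) {x x' : Fin 3 → E}
    {q q' : E} (h : ∀ s ∈ Icc (0 : ℝ) 1, I4 (G s) ∧ TT (G s) x q ∧ TT (G s) x' q') :
    Same (G 0) (G 1) q q' := fun γ =>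
  ⟨tau_family hG (fun s hs => ⟨(h s hs).1, (h s hs).2.1⟩) one_ne_zero γ,
    tau_family hG (fun s hs => ⟨(h s hs).1, (h s hs).2.2⟩) one_ne_zero γ⟩

theorem same_close {f : E → E} {x x' : Fin 3 → E} {q q' : E} (hf : I4 f) (hq : TT f x q)
    (hq' : TT f x' q') : ∃ δ, 0 < δ ∧ ∀ g : E → E, ContDiff ℝ ∞ g → Small δ (g - f) →
      (∀ i, g (x i) = q) → (∀ i, g (x' i) = q') →
      I4 g ∧ TT g x q ∧ TT g x' q' ∧ Same f g q q' := by
  obtain ⟨δ, hδ, h⟩ := tau_close hf hq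
  obtain ⟨δ', hδ', h'⟩ := tau_close hf hq'
  refine ⟨min δ δ', lt_min hδ hδ', fun g hg hs h1 h2 => ?_⟩
  obtain ⟨a1, a2, a3⟩ := h g hg (hs.mono (min_le_left _ _)) h1
  obtain ⟨-, b2, b3⟩ := h' g hg (hs.mono (min_le_right _ _)) h2
  exact ⟨a1, a2, b2, fun γ => ⟨a3 1 γ one_ne_zero, b3 1 γ one_ne_zero⟩⟩

theorem twist_step {f : E → E} {x x' : Fin 3 → E} {q q' : E} (hf : I4 f) (hq : TT f x q)
    (hq' : TT f x' q') (hne : q ≠ q') (z : E) :
    ∃ g, I4 g ∧ TT g x q ∧ TT g x' q' ∧ (∀ i, nrm g (x i) = rot z (nrm f (x i))) ∧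
      (∀ i, nrm g (x' i) = nrm f (x' i)) ∧ Same f g q q' := by
  have hn : 0 < ‖q' - q‖ := norm_pos_iff.2 (sub_ne_zero.2 hne.symm)
  set κ := 2 / ‖q' - q‖ with hκ
  have hκ1 : 1 < κ * ‖q' - q‖ := by rw [hκ, div_mul_cancel₀ _ hn.ne']; norm_num
  have n1 : ∀ (u : E) i, nrm (tw q u κ ∘ f) (x i) = rot u (nrm f (x i)) := by
    intro u i
    have := nrm_tw_center hf.1.1 u κ (x i)
    rwa [hq.2.2.1 i] at this
  have e2 : ∀ (u : E) i, tw q u κ ∘ f =ᶠ[𝓝 (x' i)] f := fun u i =>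
    tw_comp_eventually_far hf.1.1.continuous u (by rw [hq'.2.2.1 i]; exact hκ1)
  have n2 : ∀ (u : E) i, nrm (tw q u κ ∘ f) (x' i) = nrm f (x' i) := fun u i =>
    nrm_congr_ev (e2 u i)
  have all : ∀ u : E, I4 (tw q u κ ∘ f) ∧ TT (tw q u κ ∘ f) x q ∧ TT (tw q u κ ∘ f) x' q' := by
    intro u
    refine ⟨(tw_amb q u κ).i4 hf, ⟨hq.1, hq.2.1, fun i => ?_, ?_⟩, hq'.1, hq'.2.1, fun i => ?_, ?_⟩
    · simp [hq.2.2.1 i]
    · rw [n1, n1, n1, det3_rot]; exact hq.2.2.2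
    · rw [(e2 u i).eq_of_nhds, hq'.2.2.1 i]
    · rw [n2, n2, n2]; exact hq'.2.2.2
  have hs := same_family (G := fun s => tw q (s • z) κ ∘ f)
    (contDiff_tw (P := ℝ × E) (c := fun _ => q) (z := fun p => p.1 • z) (κ := fun _ => κ)
      (y := fun p => f p.2) contDiff_const (by fun_prop) contDiff_const
      (hf.1.1.comp contDiff_snd)) (fun s _ => all (s • z))
  simp only [zero_smul, one_smul, tw_zero, id_comp] at hs
  exact ⟨_, (all z).1, (all z).2.1, (all z).2.2, n1 z, n2 z, hs⟩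

/-- Normalised normal vector. -/
noncomputable def nv (n v : E) : E := ⟪n, v⟫⁻¹ • n

theorem cross_ne_of_det {n : Fin 3 → E} (h : det3 (n 0) (n 1) (n 2) ≠ 0) {j k : Fin 3}
    (hjk : j ≠ k) : cross (n j) (n k) ≠ 0 := by
  intro h0
  have h1 := congrArg (· 0) h0
  have h2 := congrArg (· 1) h0
  have h3 := congrArg (· 2) h0
  simp only [cross0, cross1, cross2, PiLp.zero_apply] at h1 h2 h3
  apply h
  rw [det3_eq]
  fin_cases j <;> fin_cases k <;> simp only [Fin.zero_eta, Fin.mk_one, Fin.reduceFinMk, ne_eq,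
    not_true_eq_false] at hjk h1 h2 h3
  · linear_combination n 2 0 * h1 + n 2 1 * h2 + n 2 2 * h3
  · linear_combination - n 1 0 * h1 - n 1 1 * h2 - n 1 2 * h3
  · linear_combination - n 2 0 * h1 - n 2 1 * h2 - n 2 2 * h3
  · linear_combination n 0 0 * h1 + n 0 1 * h2 + n 0 2 * h3
  · linear_combination n 1 0 * h1 + n 1 1 * h2 + n 1 2 * h3
  · linear_combination - n 0 0 * h1 - n 0 1 * h2 - n 0 2 * h3

/-- General position of the six normals. -/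
structure GenN (n n' : Fin 3 → E) (v : E) : Prop where
  g1 : ∀ i, ⟪n i, v⟫ ≠ 0
  g2 : ∀ i, ⟪n' i, v⟫ ≠ 0
  g3 : ∀ j k, j ≠ k → det3 v (cross (n 0) (n 1)) (cross (n' j) (n' k)) ≠ 0
  g4 : ∀ j k, j ≠ k → ⟪nv (n 2) v - nv (n 0) v, cross (n' j) (n' k)⟫ ≠ 0

theorem exists_genN {f : E → E} {x x' : Fin 3 → E} {q q' : E} (hf : I4 f) (hq : TT f x q)
    (hq' : TT f x' q') (hne : q ≠ q') :
    ∃ g, I4 g ∧ TT g x q ∧ TT g x' q' ∧
      GenN (fun i => nrm g (x i)) (fun i => nrm g (x' i)) (q' - q) ∧ Same f g q q' := by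
  have hv : q' - q ≠ 0 := sub_ne_zero.2 hne.symm
  set v := q' - q
  obtain ⟨z, hz⟩ := exists_generic_rot (fun i => nrm f (x i)) (fun _ => v)
    (fun i => hf.1.nrm_ne (hq.1 i)) fun _ => hv
  obtain ⟨g, hg, t1, t1', n1, -, s1⟩ := twist_step hf hq hq' hne z
  have g1 : ∀ i, ⟪nrm g (x i), v⟫ ≠ 0 := fun i => by rw [n1]; exact hz i
  set n : Fin 3 → E := fun i => nrm g (x i) with hn
  set n' : Fin 3 → E := fun i => nrm g (x' i) with hn'
  have hd : cross (n 0) (n 1) ≠ 0 := cross_ne_of_det (n := n) t1.2.2.2 (by decide)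
  have hb1 : cross v (cross (n 0) (n 1)) ≠ 0 := by
    intro h0
    obtain ⟨t, ht⟩ := (cross_eq_zero_iff hd).1 h0
    apply g1 0
    rw [ht, real_inner_smul_right]
    change t * ⟪n 0, _⟫ = 0
    rw [inner_left_cross, mul_zero]
  have hb2 : nv (n 2) v - nv (n 0) v ≠ 0 := by
    intro h0
    have h1 := congrArg (fun u => ⟪cross (n 0) (n 1), u⟫) h0
    simp only [nv, inner_sub_right, real_inner_smul_right, inner_cross_left, mul_zero, sub_zero,
      inner_zero_right] at h1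
    exact mul_ne_zero (inv_ne_zero (g1 2)) t1.2.2.2 h1
  obtain ⟨z', hz'⟩ := exists_generic_rot
    (ι := Fin 3 ⊕ ({p : Fin 3 × Fin 3 // p.1 ≠ p.2} ⊕ {p : Fin 3 × Fin 3 // p.1 ≠ p.2}))
    (Sum.elim n' (Sum.elim (fun p => cross (n' p.1.1) (n' p.1.2))
      fun p => cross (n' p.1.1) (n' p.1.2)))
    (Sum.elim (fun _ => v) (Sum.elim (fun _ => cross v (cross (n 0) (n 1)))
      fun _ => nv (n 2) v - nv (n 0) v))
    (by
      rintro (i | p | p)
      · exact hg.1.nrm_ne (t1'.1 i)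
      · exact cross_ne_of_det (n := n') t1'.2.2.2 p.2
      · exact cross_ne_of_det (n := n') t1'.2.2.2 p.2)
    (by
      rintro (i | p | p)
      · exact hv
      · exact hb1
      · exact hb2)
  obtain ⟨g', hg', t2', t2, n2', n2, s2⟩ := twist_step hg t1' t1 hne.symm z'
  refine ⟨g', hg', t2, t2', ⟨fun i => ?_, fun i => ?_, fun j k hjk => ?_, fun j k hjk => ?_⟩,
    fun γ => ⟨(s1 γ).1.trans (s2 γ).2, (s1 γ).2.trans (s2 γ).1⟩⟩
  · simp only [n2]; exact g1 i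
  · simp only [n2']; exact hz' (Sum.inl i)
  · simp only [n2, n2', cross_rot]
    have := hz' (Sum.inr (Sum.inl ⟨(j, k), hjk⟩))
    rw [real_inner_comm] at this
    exact this
  · simp only [n2, n2', cross_rot]
    have := hz' (Sum.inr (Sum.inr ⟨(j, k), hjk⟩))
    rw [real_inner_comm] at this
    exact this

/-- A prepared pair of triple points. -/
structure Prep (f : E → E) (x x' : Fin 3 → E) (q q' : E) : Prop where
  i4 : I4 f
  tt : TT f x q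
  tt' : TT f x' q'
  ne : q ≠ q'
  gen : GenN (fun i => nrm f (x i)) (fun i => nrm f (x' i)) (q' - q)
  flat : ∀ i, ∀ᶠ y in 𝓝 (x i), ⟪nrm f (x i), f y - q⟫ = 0
  flat' : ∀ i, ∀ᶠ y in 𝓝 (x' i), ⟪nrm f (x' i), f y - q'⟫ = 0
  tr : ∀ z ∈ S, cross (f z - q) (q' - q) = 0 → ⟪nrm f z, q' - q⟫ ≠ 0
  dbl : ∀ z ∈ S, ∀ z' ∈ S, z ≠ z' → f z = f z' → cross (f z - q) (q' - q) = 0 →
    f z = q ∨ f z = q'

theorem six_inj {f : E → E} {x x' : Fin 3 → E} {q q' : E} (hq : TT f x q) (hq' : TT f x' q')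
    (hne : q ≠ q') : Injective (Sum.elim x x') := by
  refine Injective.sumElim hq.2.1 hq'.2.1 fun i j h => hne ?_
  rw [← hq.2.2.1 i, h, hq'.2.2.1 j]

theorem exists_prep {f : E → E} {x x' : Fin 3 → E} {q q' : E} (hf : I4 f) (hq : TT f x q)
    (hq' : TT f x' q') (hne : q ≠ q') : ∃ g, Prep g x x' q q' ∧ Same f g q q' := by
  have hv : q' - q ≠ 0 := sub_ne_zero.2 hne.symm
  obtain ⟨f₁, h₁, t₁, t₁', gen₁, s₁⟩ := exists_genN hf hq hq' hne
  -- flattening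
  obtain ⟨δ₁, hδ₁, c₁⟩ := same_close h₁ t₁ t₁'
  set X : Fin 3 ⊕ Fin 3 → E := Sum.elim x x' with hX
  have hXS : ∀ i, X i ∈ S := by
    rintro (i | i)
    · exact hq.1 i
    · exact hq'.1 i
  obtain ⟨f₂, hf₂, sm₂, -, fl⟩ := flatten h₁.1 hXS (six_inj hq hq' hne) (V := univ)
    (fun _ => univ_mem) hδ₁
  obtain ⟨h₂, t₂, t₂', s₂⟩ := c₁ f₂ hf₂ sm₂
    (fun i => (fl (Sum.inl i)).1.trans (t₁.2.2.1 i)) fun i => (fl (Sum.inr i)).1.trans (t₁'.2.2.1 i)
  have nn₂ : ∀ i, nrm f₂ (X i) = nrm f₁ (X i) := fun i => (fl i).2.1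
  -- general position
  obtain ⟨δ₂, hδ₂, c₂⟩ := same_close h₂ t₂ t₂'
  have hXv : ∀ i, ⟪nrm f₂ (X i), q' - q⟫ ≠ 0 := by
    rintro (i | i)
    · rw [nn₂]; exact gen₁.g1 i
    · rw [nn₂]; exact gen₁.g2 i
  choose ρ hρ δ hδ hV using fun i => exists_VD hf₂ (hXS i) (hXv i)
  obtain ⟨δ₃, hδ₃, hδ₃2, hδ₃δ⟩ : ∃ δ₃, 0 < δ₃ ∧ δ₃ ≤ δ₂ ∧ ∀ i, δ₃ ≤ δ i := by
    have : ∀ᶠ t in 𝓝[>] (0 : ℝ), t ≤ δ₂ ∧ ∀ i, t ≤ δ i :=
      mem_nhdsWithin_of_mem_nhds ((eventually_le_nhds hδ₂).and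
        (eventually_all.2 fun i => eventually_le_nhds (hδ i)))
    obtain ⟨t, ht, ht0⟩ := (this.and self_mem_nhdsWithin).exists
    exact ⟨t, ht0, ht⟩
  obtain ⟨r, hr, hrρ⟩ : ∃ r, 0 < r ∧ ∀ i, r < ρ i := by
    have : ∀ᶠ t in 𝓝[>] (0 : ℝ), ∀ i, t < ρ i :=
      mem_nhdsWithin_of_mem_nhds (eventually_all.2 fun i => eventually_lt_nhds (hρ i))
    obtain ⟨t, ht, ht0⟩ := (this.and self_mem_nhdsWithin).exists
    exact ⟨t, ht0, ht⟩
  obtain ⟨p, hp, smp, hsupp, hgen⟩ := generic (J := Unit) (fun _ => f₂) (fun _ => h₂.1)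
    (K := S \ ⋃ i, ball (X i) r) (U := (⋃ i, closedBall (X i) (r / 2))ᶜ)
    (isCompact_S.diff (isOpen_iUnion fun _ => isOpen_ball)) sdiff_subset
    (isClosed_iUnion_of_finite fun _ => isClosed_closedBall).isOpen_compl
    (by
      rintro y ⟨-, hy⟩ hy'
      obtain ⟨i, hi⟩ := mem_iUnion.1 hy'
      exact hy (mem_iUnion.2 ⟨i, closedBall_subset_ball (by linarith) hi⟩))
    q (q' - q) hv hδ₃
  obtain ⟨-, -, G3, G4⟩ := hgen ()
  set g := f₂ + p with hg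
  have hgs : ContDiff ℝ ∞ g := hf₂.add hp
  have smg : Small δ₃ (g - f₂) := by simpa [hg] using smp
  have ev : ∀ i, g =ᶠ[𝓝 (X i)] f₂ := by
    intro i
    have : X i ∉ tsupport p := fun h =>
      hsupp h (mem_iUnion.2 ⟨i, mem_closedBall_self (by linarith)⟩)
    filter_upwards [notMem_tsupport_iff_eventuallyEq.1 this] with y hy
    simp [hg, hy]
  have nn₃ : ∀ i, nrm g (X i) = nrm f₁ (X i) := fun i => (nrm_congr_ev (ev i)).trans (nn₂ i)
  obtain ⟨h₃, t₃, t₃', s₃⟩ := c₂ g hgs (smg.mono hδ₃2)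
    (fun i => (ev (Sum.inl i)).eq_of_nhds.trans (t₂.2.2.1 i))
    fun i => (ev (Sum.inr i)).eq_of_nhds.trans (t₂'.2.2.1 i)
  have hVD : ∀ i, VD g (ball (X i) r) (q' - q) := fun i =>
    (hV i g hgs (smg.mono (hδ₃δ i)) _ (by simpa using (hδ i).le)).1.mono isOpen_ball
      (ball_subset_ball (hrρ i).le)
  have hXq : ∀ i, g (X i) = q ∨ g (X i) = q' := by
    rintro (i | i)
    · exact Or.inl (t₃.2.2.1 i)
    · exact Or.inr (t₃'.2.2.1 i)
  have online : ∀ z ∈ S, (∃ i, z ∈ ball (X i) r) → cross (g z - q) (q' - q) = 0 →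
      g z = q ∨ g z = q' := by
    rintro z hz ⟨i, hi⟩ hc
    obtain ⟨t, ht⟩ := (cross_eq_zero_iff hv).1 hc
    have : z = X i := by
      rcases hXq i with h | h
      · exact (hVD i).2.2 _ (hXS i) z hz (mem_ball_self hr) hi t (by rw [h, ← ht]; abel)
      · exact (hVD i).2.2 _ (hXS i) z hz (mem_ball_self hr) hi (t - 1)
          (by rw [h, sub_smul, ← ht, one_smul]; abel)
    rw [this]; exact hXq i
  refine ⟨g, ⟨h₃, t₃, t₃', hne, ?_, fun i => ?_, fun i => ?_, fun z hz hc => ?_,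
    fun z hz z' hz' hzz he hc => ?_⟩,
    fun γ => ⟨(s₁ γ).1.trans ((s₂ γ).1.trans (s₃ γ).1), (s₁ γ).2.trans ((s₂ γ).2.trans (s₃ γ).2)⟩⟩
  · have e1 : (fun i => nrm g (x i)) = fun i => nrm f₁ (x i) := funext fun i => nn₃ (Sum.inl i)
    have e2 : (fun i => nrm g (x' i)) = fun i => nrm f₁ (x' i) := funext fun i => nn₃ (Sum.inr i)
    rw [e1, e2]; exact gen₁
  · filter_upwards [(fl (Sum.inl i)).2.2, ev (Sum.inl i)] with y h1 h2
    have h3 : nrm g (x i) = nrm f₁ (x i) := nn₃ (Sum.inl i)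
    rw [h3, h2, ← t₁.2.2.1 i]; exact h1
  · filter_upwards [(fl (Sum.inr i)).2.2, ev (Sum.inr i)] with y h1 h2
    have h3 : nrm g (x' i) = nrm f₁ (x' i) := nn₃ (Sum.inr i)
    rw [h3, h2, ← t₁'.2.2.1 i]; exact h1
  · by_cases hK : ∃ i, z ∈ ball (X i) r
    · obtain ⟨i, hi⟩ := hK
      exact (hVD i).2.1 z hz hi
    · exact G3 z ⟨hz, by simpa using hK⟩ hc
  · by_cases hK : ∃ i, z ∈ ball (X i) r
    · exact online z hz hK hc
    by_cases hK' : ∃ i, z' ∈ ball (X i) r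
    · rw [he] at hc ⊢; exact online z' hz' hK' hc
    exact absurd hc (G4 z ⟨hz, by simpa using hK⟩ z' ⟨hz', by simpa using hK'⟩ hzz he)

end Pool.Agent.Lib.Q28.Connect
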