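import Mathlib

/-!
Working definitions for immersions of a compact connected regular level surface in three-space.
Maps of the surface are handled through smooth extensions `E → E`.
-/

namespace Pool.Agent.Lib.Q28

open scoped ContDiff RealInnerProductSpace
open Metric Set Function

/-- Euclidean three-space. -/
abbrev E := EuclideanSpace ℝ (Fin 3)

/-- Cross product. -/
noncomputable def cross (a b : E) : E :=
  !₂[a 1 * b 2 - a 2 * b 1, a 2 * b 0 - a 0 * b 2, a 0 * b 1 - a 1 * b 0]

/-- Determinant of three vectors. -/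
noncomputable def det3 (a b c : E) : ℝ := ⟪cross a b, c⟫

/-- Standard basis vectors. -/
noncomputable def ε (i : Fin 3) : E := EuclideanSpace.single i 1

/-- The cofactor matrix of `M` applied to `x`. -/
noncomputable def cof (M : E →L[ℝ] E) (x : E) : E :=
  x 0 • cross (M (ε 1)) (M (ε 2)) + x 1 • cross (M (ε 2)) (M (ε 0)) +
    x 2 • cross (M (ε 0)) (M (ε 1))

/-- A compact connected regular level surface. -/
class Sf where
  /-- The defining function. -/
  φ : E → ℝ
  smooth : ContDiff ℝ ∞ φ
  reg : ∀ x, φ x = 0 → fderiv ℝ φ x ≠ 0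
  compact : IsCompact {x | φ x = 0}
  conn : IsConnected {x | φ x = 0}

variable [Sf]

/-- The surface. -/
def S : Set E := {x | Sf.φ x = 0}

/-- The gradient of the defining function. -/
noncomputable def grd (x : E) : E :=
  fderiv ℝ Sf.φ x (ε 0) • ε 0 + fderiv ℝ Sf.φ x (ε 1) • ε 1 + fderiv ℝ Sf.φ x (ε 2) • ε 2

/-- A smooth vector field that is the unit normal on the surface. -/
noncomputable def unv (x : E) : E := (√(‖grd x‖ ^ 2 + Sf.φ x ^ 2))⁻¹ • grd x

/-- The (unnormalised) normal vector of `f` restricted to the surface at the point `x`. -/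
noncomputable def nrm (f : E → E) (x : E) : E := cof (fderiv ℝ f x) (unv x)

/-- `f` is smooth and its restriction to the surface is an immersion. -/
def Imm (f : E → E) : Prop :=
  ContDiff ℝ ∞ f ∧ ∀ x ∈ S, ∀ w : E, ⟪unv x, w⟫ = 0 → fderiv ℝ f x w = 0 → w = 0

/-- The restriction of `p` to the surface is `δ`-small together with its first derivative. -/
def Small (δ : ℝ) (p : E → E) : Prop :=
  ∀ x ∈ S, ‖p x‖ ≤ δ ∧ ∀ w : E, ⟪unv x, w⟫ = 0 → ‖fderiv ℝ p x w‖ ≤ δ * ‖w‖

/-- The part of the fibre of `f` over `y` that lies in `A`. -/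
def fib (f : E → E) (A : Set E) (y : E) : Set E := {x | x ∈ A ∧ f x = y}

/-- Immersions of the surface without quadruple points. -/
def I4 (f : E → E) : Prop := Imm f ∧ ∀ y, (fib f S y).encard ≤ 3

/-- A smooth family of immersions from `f` to `g`. -/
def IStep (f g : E → E) : Prop :=
  ∃ H : ℝ → E → E, ContDiff ℝ ∞ (uncurry H) ∧ (∀ t ∈ Icc (0 : ℝ) 1, Imm (H t)) ∧
    H 0 = f ∧ H 1 = g

/-- A smooth family of immersions without quadruple points from `f` to `g`. -/
def Step (f g : E → E) : Prop :=
  ∃ H : ℝ → E → E, ContDiff ℝ ∞ (uncurry H) ∧ (∀ t ∈ Icc (0 : ℝ) 1, I4 (H t)) ∧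
    H 0 = f ∧ H 1 = g

/-- Regular homotopy through immersions without quadruple points (chains of smooth families). -/
def Rel (f g : E → E) : Prop := Relation.ReflTransGen Step f g

/-- General position of `g` on the compact part `K` of the surface, also with respect to the line
through `q` with direction `v`. -/
def GenOn (g : E → E) (K : Set E) (q v : E) : Prop :=
  (∀ x : Fin 4 → E, (∀ i, x i ∈ K) → Injective x → ¬ ∀ i, g (x i) = g (x 0)) ∧
  (∀ x : Fin 3 → E, (∀ i, x i ∈ K) → Injective x → (∀ i, g (x i) = g (x 0)) →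
    det3 (nrm g (x 0)) (nrm g (x 1)) (nrm g (x 2)) ≠ 0) ∧
  (∀ x ∈ K, cross (g x - q) v = 0 → ⟪nrm g x, v⟫ ≠ 0) ∧
  (∀ x ∈ K, ∀ x' ∈ K, x ≠ x' → g x = g x' → cross (g x - q) v ≠ 0)

end Pool.Agent.Lib.Q28
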