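import Pool.Agent.Lib.Q28.Basic

/-! Definitions for vertical moves, fingers, twists and the neighbour across a triple point. -/

namespace Pool.Agent.Lib.Q28

open scoped ContDiff RealInnerProductSpace Topology
open Metric Set Function Filter

set_option linter.unusedSectionVars false

variable [Sf]

/-- `y` is a triple point. -/
def Tri (f : E → E) (y : E) : Prop := 3 ≤ (fib f S y).encard

/-- `q` is a transverse triple point with preimages `x 0, x 1, x 2`. -/
def TT (f : E → E) (x : Fin 3 → E) (q : E) : Prop :=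
  (∀ i, x i ∈ S) ∧ Injective x ∧ (∀ i, f (x i) = q) ∧
    det3 (nrm f (x 0)) (nrm f (x 1)) (nrm f (x 2)) ≠ 0

/-- On the open set `D` the surface is a graph along the direction `v`. -/
def VD (f : E → E) (D : Set E) (v : E) : Prop :=
  IsOpen D ∧ (∀ x ∈ S, x ∈ D → ⟪nrm f x, v⟫ ≠ 0) ∧
    ∀ x ∈ S, ∀ x' ∈ S, x ∈ D → x' ∈ D → ∀ t : ℝ, f x' = f x + t • v → x' = x

/-- Vertical move. -/
noncomputable def vm (f : E → E) (χ : E → ℝ) (v : E) : E → E := fun x => f x + χ x • v

/-- `g` arises from `f` by pushing a straight finger from the base point `b` across `q`; the finger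
sweeps no triple point of the rest of the surface other than `q`. -/
def Finger (f : E → E) (b q : E) (g : E → E) : Prop :=
  b ∈ S ∧ ∃ (D : Set E) (χ : E → ℝ), VD f D (q - f b) ∧ b ∈ D ∧ ContDiff ℝ ∞ χ ∧ tsupport χ ⊆ D ∧
    1 < χ b ∧ (∀ x ∈ S, x ∈ D → ∀ t ∈ uIcc 0 (χ x),
      (fib f (S \ {x}) (f x + t • (q - f b))).encard ≤ 2 ∨ f x + t • (q - f b) = q) ∧
    g = vm f χ (q - f b)

/-- Rotation with Cayley vector `z`. -/
noncomputable def rot (z y : E) : E :=
  (1 + ‖z‖ ^ 2)⁻¹ • ((1 - ‖z‖ ^ 2) • y + (2 * ⟪z, y⟫) • z + (2 : ℝ) • cross z y)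

/-- Cut-off, equal to `1` for `t ≤ 1/2` and to `0` for `t ≥ 1`. -/
noncomputable def cut (t : ℝ) : ℝ := Real.smoothTransition (2 - 2 * t)

/-- Local twist of space about `c`, supported in the ball of radius `1/κ`. -/
noncomputable def tw (c z : E) (κ : ℝ) (y : E) : E :=
  c + rot (cut (κ ^ 2 * ‖y - c‖ ^ 2) • z) (y - c)

/-- Cayley vector of the rotation taking the direction of `n` to the direction of `m`. -/
noncomputable def zvec (n m : E) : E := (‖n‖ * ‖m‖ + ⟪n, m⟫)⁻¹ • cross n m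

/-- Injective local diffeomorphisms of space. -/
def Amb (Θ : E → E) : Prop :=
  ContDiff ℝ ∞ Θ ∧ Injective Θ ∧ ∀ y, Injective (fderiv ℝ Θ y)

/-- A finger across `q` from the side `σ` after a twist at the base point. -/
def GF (f : E → E) (q : E) (σ : ℝ) (g : E → E) : Prop :=
  ∃ b ∈ S, ∃ (m : E) (κ : ℝ), 0 < κ ∧ (∀ μ : ℝ, 0 ≤ μ → m + μ • nrm f b ≠ 0) ∧
    0 < σ * ⟪m, q - f b⟫ ∧ 1 < κ * ‖q - f b‖ ∧ (∀ y, Tri f y → 1 < κ * ‖y - f b‖) ∧
    Finger (tw (f b) (zvec (nrm f b) m) κ ∘ f) b q g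

/-- `γ` represents the class obtained from `f` by crossing the triple point `q` from side `σ`. -/
def Tau (f : E → E) (q : E) (σ : ℝ) (γ : E → E) : Prop :=
  ∃ δ, 0 < δ ∧ ∀ f' : E → E, ContDiff ℝ ∞ f' → Small δ (f' - f) →
    (∀ y ∈ S, f y = q → f' y = q) → {y | Tri f' y}.Finite → ∃ g, GF f' q σ g ∧ Rel g γ

end Pool.Agent.Lib.Q28
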