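import Pool.Agent.Lib.Q28.Tau

/-! Arrangements of five flat sheets in a ball and their parallel displacements. -/

namespace Pool.Agent.Lib.Q28.Five

open scoped ContDiff RealInnerProductSpace Topology
open Metric Set Function Filter

set_option linter.unusedSectionVars false

variable [Sf]

theorem four_of_five : ∀ a b c d : Fin 5, a ≠ b → a ≠ c → a ≠ d → b ≠ c → b ≠ d → c ≠ d →
    ∃ m : Fin 5, ∀ i, i ≠ m → i = a ∨ i = b ∨ i = c ∨ i = d := by decide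

theorem three_of_five : ∀ j m : Fin 5, j ≠ m → ∃ a b c : Fin 5, a ≠ b ∧ a ≠ c ∧ b ≠ c ∧
    a ≠ j ∧ b ≠ j ∧ c ≠ j ∧ a ≠ m ∧ b ≠ m ∧ c ≠ m := by decide

theorem three_rest : ∀ m : Fin 5, ∃ a b c : Fin 5, a ≠ b ∧ a ≠ c ∧ b ≠ c ∧
    a ≠ m ∧ b ≠ m ∧ c ≠ m := by decide

theorem miss_of_four : ∀ j a b c : Fin 5, a ≠ b → a ≠ c → b ≠ c → a ≠ j → b ≠ j → c ≠ j →
    ∃ m : Fin 5, m ≠ j ∧ a ≠ m ∧ b ≠ m ∧ c ≠ m ∧ ∀ i, i ≠ m → i = j ∨ i = a ∨ i = b ∨ i = c := by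
  decide

/-- A criterion for the absence of quadruple points: five labelled sheets over a region `W`. -/
theorem i4_of_labels {H g : E → E} (hH : Imm H) (hg : I4 g) {W : Set E} {Lab : Fin 5 → Set E}
    {P : Fin 5 → E → Prop} (h1 : ∀ z ∈ S, H z ∉ W → H z = g z)
    (h2 : ∀ z ∈ S, H z ∈ W → ∃ i, z ∈ Lab i ∧ P i (H z))
    (h3 : ∀ i, ∀ z ∈ S, ∀ z' ∈ S, z ∈ Lab i → z' ∈ Lab i → H z = H z' → z = z')
    (h4 : ∀ (m : Fin 5) (y : E), ¬ ∀ i, i ≠ m → P i y) : I4 H := by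
  refine ⟨hH, fun y => ?_⟩
  have e3 : (3 : ℕ∞) = ((3 : ℕ) : ℕ∞) := rfl
  rw [e3, encard_le_iff]
  intro x hx hinj
  by_cases hy : y ∈ W
  · have h5 : ∀ k, ∃ i, x k ∈ Lab i ∧ P i y := fun k => by
      have := h2 (x k) (hx k).1 (by rw [(hx k).2]; exact hy)
      rwa [(hx k).2] at this
    choose ι hι hP using h5
    have hne : ∀ k l, k ≠ l → ι k ≠ ι l := fun k l hkl h => hkl (hinj
      (h3 (ι k) _ (hx k).1 _ (hx l).1 (hι k) (h ▸ hι l) (by rw [(hx k).2, (hx l).2])))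
    obtain ⟨m, hm⟩ := four_of_five (ι 0) (ι 1) (ι 2) (ι 3) (hne _ _ (by decide))
      (hne _ _ (by decide)) (hne _ _ (by decide)) (hne _ _ (by decide)) (hne _ _ (by decide))
      (hne _ _ (by decide))
    refine h4 m y fun i hi => ?_
    rcases hm i hi with h | h | h | h <;> rw [h] <;> exact hP _
  · have h5 := hg.2 y
    rw [e3, encard_le_iff] at h5
    refine h5 x (fun k => ⟨(hx k).1, ?_⟩) hinj
    rw [← h1 _ (hx k).1 (by rw [(hx k).2]; exact hy), (hx k).2]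

/-- Five flat sheets in the ball of radius `η` about `q`, with cut-off functions. -/
structure Arr (F : E → E) (q v : E) (η : ℝ) (ν : Fin 5 → E) (lev e : Fin 5 → ℝ)
    (D : Fin 5 → Set E) (χ : Fin 5 → E → ℝ) : Prop where
  i4 : I4 F
  opn : ∀ i, IsOpen (D i)
  disj : ∀ i j, i ≠ j → ∀ x ∈ D i, x ∉ D j
  cov : ∀ x ∈ S, F x ∈ ball q η → ∃ i, x ∈ D i
  flat : ∀ i, ∀ x ∈ S, x ∈ D i → ⟪ν i, F x - q⟫ = lev i
  inj : ∀ i, ∀ x ∈ S, ∀ x' ∈ S, x ∈ D i → x' ∈ D i → F x = F x' → x = x'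
  surj : ∀ i, ∀ y ∈ ball q η, ⟪ν i, y - q⟫ = lev i → ∃ x ∈ S, x ∈ D i ∧ F x = y
  sgn : ∀ i, ∀ x ∈ S, x ∈ D i → 0 < e i * ⟪nrm F x, v⟫
  tr : ∀ i, ⟪ν i, v⟫ ≠ 0
  det : ∀ i j k, i ≠ j → i ≠ k → j ≠ k → det3 (ν i) (ν j) (ν k) ≠ 0
  vsmall : 10 * ‖v‖ < η / 8
  core : ∀ i j k, i ≠ j → i ≠ k → j ≠ k → ∀ y : E,
    (∀ l, l = i ∨ l = j ∨ l = k → ∃ u : ℝ, |u| ≤ 10 ∧ ⟪ν l, y⟫ = lev l + u * ⟪ν l, v⟫) →
      ‖y‖ < η / 8
  smooth : ∀ i, ContDiff ℝ ∞ (χ i)
  supp : ∀ i, tsupport (χ i) ⊆ D i ∩ F ⁻¹' ball q (η / 2)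
  range : ∀ i x, χ i x ∈ Icc (0 : ℝ) 1
  one : ∀ i, ∀ x ∈ S, x ∈ D i → ‖F x - q‖ ≤ η / 4 → χ i =ᶠ[𝓝 x] 1

/-- The displacement function. -/
noncomputable def disp (χ : Fin 5 → E → ℝ) (t : Fin 5 → ℝ) : E → ℝ := fun x => ∑ i, t i * χ i x

/-- The surface after moving the `i`-th sheet by `t i • v`. -/
noncomputable def mv (F : E → E) (v : E) (χ : Fin 5 → E → ℝ) (t : Fin 5 → ℝ) : E → E :=
  vm F (disp χ t) v

/-- The levels of the moved sheets. -/
noncomputable def pos (ν : Fin 5 → E) (lev : Fin 5 → ℝ) (v : E) (t : Fin 5 → ℝ) (i : Fin 5) : ℝ :=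
  lev i + t i * ⟪ν i, v⟫

/-- The four planes other than the `m`-th have a common point. -/
def Wall (ν : Fin 5 → E) (σ : Fin 5 → ℝ) (m : Fin 5) : Prop :=
  ∃ y : E, ∀ i, i ≠ m → ⟪ν i, y⟫ = σ i

variable {F : E → E} {q v : E} {η : ℝ} {ν : Fin 5 → E} {lev e : Fin 5 → ℝ}
  {D : Fin 5 → Set E} {χ : Fin 5 → E → ℝ}

theorem mv_zero (F : E → E) (v : E) (χ : Fin 5 → E → ℝ) : mv F v χ 0 = F := by
  funext x; simp [mv, vm, disp]

namespace Arr

variable (h : Arr F q v η ν lev e D χ)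
include h

theorem eta_pos : 0 < η := by
  have := h.vsmall; have := norm_nonneg v; linarith

theorem chi_zero {i : Fin 5} {x : E} (hx : x ∉ D i) : χ i x = 0 := by
  by_contra h0
  exact hx (h.supp i (subset_tsupport _ h0)).1

theorem disp_smooth (t : Fin 5 → ℝ) : ContDiff ℝ ∞ (disp χ t) :=
  ContDiff.sum fun i _ => contDiff_const.mul (h.smooth i)

theorem disp_eq (t : Fin 5 → ℝ) {i : Fin 5} {x : E} (hx : x ∈ D i) :
    disp χ t x = t i * χ i x := by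
  unfold disp
  rw [Finset.sum_eq_single i]
  · intro j _ hj
    rw [h.chi_zero (h.disj i j hj.symm x hx), mul_zero]
  · simp

theorem disp_ne (t : Fin 5 → ℝ) {x : E} (hx : disp χ t x ≠ 0) :
    ∃ i, x ∈ D i ∧ ‖F x - q‖ < η / 2 := by
  obtain ⟨i, -, hi⟩ := Finset.exists_ne_zero_of_sum_ne_zero hx
  have := h.supp i (subset_tsupport _ (right_ne_zero_of_mul hi))
  exact ⟨i, this.1, by simpa [dist_eq_norm] using this.2⟩

theorem mul_chi_le {a : ℝ} (ha : |a| ≤ 10) (i : Fin 5) (x : E) : |a * χ i x| ≤ 10 := by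
  have := h.range i x
  rw [abs_mul, abs_of_nonneg this.1]
  nlinarith [this.1, this.2, abs_nonneg a]

theorem disp_le {t : Fin 5 → ℝ} (ht : ∀ i, |t i| ≤ 10) (x : E) : |disp χ t x| ≤ 10 := by
  by_cases hx : disp χ t x = 0
  · rw [hx]; norm_num
  · obtain ⟨i, hi, -⟩ := h.disp_ne t hx
    rw [h.disp_eq t hi]
    exact h.mul_chi_le (ht i) i x

theorem norm_smul_lt {a : ℝ} (ha : |a| ≤ 10) : ‖a • v‖ < η / 8 := by
  rw [norm_smul, Real.norm_eq_abs]
  have := h.vsmall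
  nlinarith [norm_nonneg v]

theorem disp_tsupport (t : Fin 5 → ℝ) {x : E} (hx : x ∈ tsupport (disp χ t)) : ∃ i, x ∈ D i := by
  by_contra h0
  rw [not_exists] at h0
  have h1 : ∀ i, χ i =ᶠ[𝓝 x] 0 := fun i =>
    notMem_tsupport_iff_eventuallyEq.1 fun hi => h0 i (h.supp i hi).1
  refine notMem_tsupport_iff_eventuallyEq.2 ?_ hx
  filter_upwards [eventually_all.2 h1] with y hy
  simp [disp, hy]

theorem vd (i : Fin 5) : VD F (D i) v := by
  refine ⟨h.opn i, fun x hx hxD h0 => ?_, fun x hx x' hx' hxD hxD' t ht => ?_⟩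
  · have := h.sgn i x hx hxD
    rw [h0, mul_zero] at this
    exact lt_irrefl _ this
  · have h1 := h.flat i x hx hxD
    have h2 := h.flat i x' hx' hxD'
    rw [ht, show F x + t • v - q = (F x - q) + t • v by abel, inner_add_right, h1,
      real_inner_smul_right] at h2
    have h3 : t = 0 := by
      have : t * ⟪ν i, v⟫ = 0 := by linarith
      exact (mul_eq_zero.1 this).resolve_right (h.tr i)
    rw [h3, zero_smul, add_zero] at ht
    exact h.inj i x' hx' x hx hxD' hxD ht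

theorem mv_smooth (t : Fin 5 → ℝ) : ContDiff ℝ ∞ (mv F v χ t) :=
  vm_smooth h.i4.1.1 (h.disp_smooth t) v

theorem mv_imm (t : Fin 5 → ℝ) : Imm (mv F v χ t) :=
  vm_imm h.i4.1 (h.disp_smooth t) fun x hx hs => by
    obtain ⟨i, hi⟩ := h.disp_tsupport t hs
    exact (h.vd i).2.1 x hx hi

theorem mv_vd (t : Fin 5 → ℝ) (i : Fin 5) : VD (mv F v χ t) (D i) v :=
  (h.vd i).vm h.i4.1.1 (h.disp_smooth t)

theorem mv_eq (t : Fin 5 → ℝ) {i : Fin 5} {x : E} (hx : x ∈ D i) :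
    mv F v χ t x = F x + (t i * χ i x) • v := by
  rw [mv, vm, h.disp_eq t hx]

theorem mv_far {t : Fin 5 → ℝ} (ht : ∀ i, |t i| ≤ 10) {x : E}
    (hx : mv F v χ t x ∉ ball q (5 * η / 8)) : mv F v χ t x = F x := by
  by_cases h0 : disp χ t x = 0
  · simp [mv, vm, h0]
  · exfalso
    obtain ⟨i, -, hi⟩ := h.disp_ne t h0
    apply hx
    have h1 := h.norm_smul_lt (h.disp_le ht x)
    rw [mem_ball, dist_eq_norm, mv, vm,
      show F x + disp χ t x • v - q = (F x - q) + disp χ t x • v by abel]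
    have := norm_add_le (F x - q) (disp χ t x • v)
    linarith

theorem mv_cov {t : Fin 5 → ℝ} (ht : ∀ i, |t i| ≤ 10) {x : E} (hxS : x ∈ S)
    (hx : mv F v χ t x ∈ ball q (7 * η / 8)) : ∃ i, x ∈ D i := by
  apply h.cov x hxS
  have h1 := h.norm_smul_lt (h.disp_le ht x)
  rw [mem_ball, dist_eq_norm, mv, vm] at hx
  rw [mem_ball, dist_eq_norm, show F x - q = (F x + disp χ t x • v - q) - disp χ t x • v by abel]
  have := norm_sub_le (F x + disp χ t x • v - q) (disp χ t x • v)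
  linarith

theorem level {i : Fin 5} {x : E} (hxS : x ∈ S) (hx : x ∈ D i) (a : ℝ) :
    ⟪ν i, F x + a • v - q⟫ = lev i + a * ⟪ν i, v⟫ := by
  rw [show F x + a • v - q = (F x - q) + a • v by abel, inner_add_right, h.flat i x hxS hx,
    real_inner_smul_right]

theorem chi_one {i : Fin 5} {x : E} (hxS : x ∈ S) (hx : x ∈ D i) {a : ℝ} (ha : |a| ≤ 10)
    (hy : ‖F x + a • v - q‖ < η / 8) : χ i =ᶠ[𝓝 x] 1 := by
  apply h.one i x hxS hx
  have h1 := h.norm_smul_lt ha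
  rw [show F x - q = (F x + a • v - q) - a • v by abel]
  have := norm_sub_le (F x + a • v - q) (a • v)
  linarith

/-- What a point of the `i`-th moved sheet satisfies. -/
theorem mv_level {t : Fin 5 → ℝ} (ht : ∀ i, |t i| ≤ 10) {i : Fin 5} {x : E} (hxS : x ∈ S)
    (hx : x ∈ D i) :
    (∃ u : ℝ, |u| ≤ 10 ∧ ⟪ν i, mv F v χ t x - q⟫ = lev i + u * ⟪ν i, v⟫) ∧
      (‖mv F v χ t x - q‖ < η / 8 → ⟪ν i, mv F v χ t x - q⟫ = pos ν lev v t i) := by
  rw [h.mv_eq t hx]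
  refine ⟨⟨_, h.mul_chi_le (ht i) i x, h.level hxS hx _⟩, fun hy => ?_⟩
  have h1 := (h.chi_one hxS hx (h.mul_chi_le (ht i) i x) hy).eq_of_nhds
  rw [h.level hxS hx, h1, pos]
  simp

theorem mv_i4 {t : Fin 5 → ℝ} (ht : ∀ i, |t i| ≤ 10) (hw : ∀ m, ¬ Wall ν (pos ν lev v t) m) :
    I4 (mv F v χ t) := by
  have hη := h.eta_pos
  refine i4_of_labels (h.mv_imm t) h.i4 (W := ball q (5 * η / 8)) (Lab := D)
    (P := fun i y => (∃ u : ℝ, |u| ≤ 10 ∧ ⟪ν i, y - q⟫ = lev i + u * ⟪ν i, v⟫) ∧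
      (‖y - q‖ < η / 8 → ⟪ν i, y - q⟫ = pos ν lev v t i)) (fun z _ hz => h.mv_far ht hz)
    (fun z hz hW => ?_) (fun i z hz z' hz' h1 h2 h3 => ?_) fun m y hy => ?_
  · obtain ⟨i, hi⟩ := h.mv_cov ht hz (ball_subset_ball (by linarith) hW)
    exact ⟨i, hi, h.mv_level ht hz hi⟩
  · exact (h.mv_vd t i).2.2 z' hz' z hz h2 h1 0 (by simpa using h3)
  · obtain ⟨a, b, c, hab, hac, hbc, ha, hb, hc⟩ := three_rest m
    have h1 : ‖y - q‖ < η / 8 := h.core a b c hab hac hbc _ (by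
      rintro l (rfl | rfl | rfl)
      exacts [(hy _ ha).1, (hy _ hb).1, (hy _ hc).1])
    exact hw m ⟨y - q, fun i hi => (hy i hi).2 h1⟩

theorem mv_rel {t t' : Fin 5 → ℝ} (ht : ∀ i, |t i| ≤ 10) (ht' : ∀ i, |t' i| ≤ 10)
    (hw : ∀ s ∈ Icc (0 : ℝ) 1, ∀ m, ¬ Wall ν (pos ν lev v ((1 - s) • t + s • t')) m) :
    Rel (mv F v χ t) (mv F v χ t') := by
  refine (step_vm h.i4.1.1 (h.disp_smooth t) (h.disp_smooth t') fun s hs => ?_).rel
  have e1 : (fun x => (1 - s) * disp χ t x + s * disp χ t' x) =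
      disp χ ((1 - s) • t + s • t') := by
    funext x
    simp only [disp, Finset.mul_sum, ← Finset.sum_add_distrib, Pi.add_apply, Pi.smul_apply,
      smul_eq_mul]
    exact Finset.sum_congr rfl fun i _ => by ring
  rw [e1]
  refine h.mv_i4 (fun i => ?_) (hw s hs)
  have h1 := abs_le.1 (ht i)
  have h2 := abs_le.1 (ht' i)
  simp only [Pi.add_apply, Pi.smul_apply, smul_eq_mul]
  rw [abs_le]
  constructor <;> nlinarith [hs.1, hs.2]

/-- Points of the moved planes in the core lie on the moved sheets. -/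
theorem mv_surj (t : Fin 5 → ℝ) (i : Fin 5) {y : E} {a : ℝ} (ha : |t i + a| ≤ 10) (hy' : ‖y - q‖ < η / 8)
    (hl : ⟪ν i, y - q⟫ = pos ν lev v t i + a * ⟪ν i, v⟫) :
    ∃ x ∈ S, x ∈ D i ∧ χ i =ᶠ[𝓝 x] 1 ∧ mv F v χ t x + a • v = y := by
  have hη := h.eta_pos
  have h1 := h.norm_smul_lt ha
  obtain ⟨x, hx, hxD, hxy⟩ := h.surj i (y - (t i + a) • v) (by
      rw [mem_ball, dist_eq_norm, show y - (t i + a) • v - q = (y - q) - (t i + a) • v by abel]
      have := norm_sub_le (y - q) ((t i + a) • v)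
      linarith)
    (by
      rw [show y - (t i + a) • v - q = (y - q) - (t i + a) • v by abel, inner_sub_right, hl,
        real_inner_smul_right, pos]
      ring)
  have h2 : χ i =ᶠ[𝓝 x] 1 := h.chi_one hx hxD ha (by rw [hxy]; simpa using hy')
  refine ⟨x, hx, hxD, h2, ?_⟩
  rw [h.mv_eq t hxD, h2.eq_of_nhds, hxy]
  simp only [Pi.one_apply, mul_one, add_smul]
  abel

theorem nrm_mv (t : Fin 5 → ℝ) {i : Fin 5} {x : E} (hxS : x ∈ S) (hx : x ∈ D i)
    (h1 : χ i =ᶠ[𝓝 x] 1) : ∃ c : ℝ, c ≠ 0 ∧ nrm (mv F v χ t) x = c • ν i := by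
  have hν : ν i ≠ 0 := fun h0 => h.tr i (by simp [h0])
  obtain ⟨c, hc⟩ := nrm_of_flat (smooth_diff (h.mv_smooth t)) hxS hν
    (s := pos ν lev v t i + ⟪ν i, q⟫) (by
      filter_upwards [h1, (h.opn i).mem_nhds hx] with y hy hyD hyS
      have h2 := h.level hyS hyD (t i * χ i y)
      rw [← h.mv_eq t hyD, inner_sub_right, hy] at h2
      simp only [Pi.one_apply, mul_one] at h2
      rw [pos]; linarith)
  refine ⟨c, fun h0 => (h.mv_imm t).nrm_ne hxS (by rw [hc, h0, zero_smul]), hc⟩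

theorem vertex_small {t : Fin 5 → ℝ} (ht : ∀ i, |t i| ≤ 10) {a b c : Fin 5} (hab : a ≠ b)
    (hac : a ≠ c) (hbc : b ≠ c) {p : E}
    (hp : ∀ l, l = a ∨ l = b ∨ l = c → ⟪ν l, p - q⟫ = pos ν lev v t l) : ‖p - q‖ < η / 8 :=
  h.core a b c hab hac hbc _ fun l hl => ⟨t l, ht l, hp l hl⟩

theorem vertex_TT {t : Fin 5 → ℝ} (ht : ∀ i, |t i| ≤ 10) {a b c : Fin 5} (hab : a ≠ b)
    (hac : a ≠ c) (hbc : b ≠ c) {p : E}
    (hp : ∀ l, l = a ∨ l = b ∨ l = c → ⟪ν l, p - q⟫ = pos ν lev v t l) :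
    ∃ x, TT (mv F v χ t) x p := by
  have hη := h.eta_pos
  have hs := h.vertex_small ht hab hac hbc hp
  have key : ∀ l, l = a ∨ l = b ∨ l = c → ∃ x ∈ S, x ∈ D l ∧ mv F v χ t x = p ∧
      ∃ c : ℝ, c ≠ 0 ∧ nrm (mv F v χ t) x = c • ν l := by
    intro l hl
    obtain ⟨x, hx, hxD, h1, h2⟩ := h.mv_surj t l (y := p) (a := 0)
      (by simpa using ht l) hs (by simpa using hp l hl)
    exact ⟨x, hx, hxD, by simpa using h2, h.nrm_mv t hx hxD h1⟩
  obtain ⟨xa, ha1, ha2, ha3, ca, ha4, ha5⟩ := key a (by simp)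
  obtain ⟨xb, hb1, hb2, hb3, cb, hb4, hb5⟩ := key b (by simp)
  obtain ⟨xc, hc1, hc2, hc3, cc, hc4, hc5⟩ := key c (by simp)
  have n1 : xa ≠ xb := fun h0 => h.disj a b hab _ ha2 (h0 ▸ hb2)
  have n2 : xa ≠ xc := fun h0 => h.disj a c hac _ ha2 (h0 ▸ hc2)
  have n3 : xb ≠ xc := fun h0 => h.disj b c hbc _ hb2 (h0 ▸ hc2)
  refine ⟨![xa, xb, xc], fun i => ?_, fun i j hij => ?_, fun i => ?_, ?_⟩
  · fin_cases i <;> assumption
  · fin_cases i <;> fin_cases j <;> simp_all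
  · fin_cases i <;> assumption
  · change det3 (nrm _ xa) (nrm _ xb) (nrm _ xc) ≠ 0
    have : det3 (ca • ν a) (cb • ν b) (cc • ν c) = ca * cb * cc * det3 (ν a) (ν b) (ν c) := by
      simp [det3_eq]; ring
    rw [ha5, hb5, hc5, this]
    exact mul_ne_zero (mul_ne_zero (mul_ne_zero ha4 hb4) hc4) (h.det a b c hab hac hbc)

omit h in
theorem mv_single (t : Fin 5 → ℝ) (j : Fin 5) (u : ℝ) (x : E) :
    mv F v χ (t + Pi.single j u) x = mv F v χ t x + (u * χ j x) • v := by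
  have : disp χ (t + Pi.single j u) x = disp χ t x + u * χ j x := by
    simp only [disp, Pi.add_apply, add_mul, Finset.sum_add_distrib]
    congr 1
    rw [Finset.sum_eq_single j]
    · simp
    · intro i _ hi; simp [hi]
    · simp
  rw [mv, vm, this, mv, vm, add_smul, add_assoc]

/-- Moving one sheet across exactly one vertex of the other four is a finger move. -/
theorem finger {t : Fin 5 → ℝ} (ht : ∀ i, |t i| ≤ 10) (hw : ∀ m, ¬ Wall ν (pos ν lev v t) m)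
    {j m : Fin 5} (hjm : j ≠ m) {u lam : ℝ} (hu : |t j + u| ≤ 10) (hlam : lam ≠ 0)
    (hul : 1 < u / lam) {p : E} (hp : ∀ i, i ≠ j → i ≠ m → ⟪ν i, p - q⟫ = pos ν lev v t i)
    (hpj : ⟪ν j, p - q⟫ = pos ν lev v t j + lam * ⟪ν j, v⟫)
    (hw' : ∀ m', m' ≠ j → m' ≠ m → ∀ w ∈ uIcc 0 u,
      ¬ Wall ν (pos ν lev v (t + Pi.single j w)) m') {s : ℝ} (hs : 0 < s * (e j * u)) :
    (∃ x, TT (mv F v χ t) x p) ∧ Tau (mv F v χ t) p s (mv F v χ (t + Pi.single j u)) := by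
  have hη := h.eta_pos
  have hG := h.mv_i4 ht hw
  obtain ⟨a, b, c, hab, hac, hbc, haj, hbj, hcj, ham, hbm, hcm⟩ := three_of_five j m hjm
  have hp' : ∀ l, l = a ∨ l = b ∨ l = c → ⟪ν l, p - q⟫ = pos ν lev v t l := by
    rintro l (rfl | rfl | rfl)
    exacts [hp _ haj ham, hp _ hbj hbm, hp _ hcj hcm]
  have hps := h.vertex_small ht hab hac hbc hp'
  obtain ⟨x, hx⟩ := h.vertex_TT ht hab hac hbc hp'
  have hbd : ∀ w ∈ uIcc 0 u, |t j + w| ≤ 10 := by
    intro w hw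
    have h1 := abs_le.1 (ht j)
    have h2 := abs_le.1 hu
    rw [abs_le]
    rcases mem_uIcc.1 hw with h3 | h3 <;> constructor <;> linarith [h3.1, h3.2]
  have hlu : 0 < lam * u := by
    have : lam * u = lam ^ 2 * (u / lam) := by field_simp
    rw [this]; positivity
  have hlam' : lam ∈ uIcc 0 u := by
    rcases lt_or_gt_of_ne hlam with h1 | h1
    · rw [lt_div_iff_of_neg h1] at hul
      exact mem_uIcc.2 (Or.inr ⟨by linarith, h1.le⟩)
    · rw [lt_div_iff₀ h1] at hul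
      exact mem_uIcc.2 (Or.inl ⟨h1.le, by linarith⟩)
  obtain ⟨b₀, hb, hbD, hb1, hb2⟩ := h.mv_surj t j (y := p) (hbd lam hlam') hps hpj
  have hd : p - mv F v χ t b₀ = lam • v := by rw [← hb2]; abel
  refine ⟨⟨x, hx⟩, tau_finger hG hx (b := b₀) ⟨hb, D j, fun y => u / lam * χ j y, ?_, hbD,
    contDiff_const.mul (h.smooth j), ?_, ?_, ?_, ?_⟩ ?_⟩
  · rw [hd]; exact (h.mv_vd t j).smul hlam
  · exact (tsupport_mul_subset_right (f := fun _ => u / lam)).trans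
      ((h.supp j).trans inter_subset_left)
  · simpa [hb1.eq_of_nhds] using hul
  · intro z hz hzD θ hθ
    rw [hd, smul_smul]
    have hr := h.range j z
    have hw1 : θ * lam ∈ uIcc 0 (u * χ j z) := by
      have e1 : u * χ j z = u / lam * χ j z * lam := by field_simp
      rw [e1]
      rcases lt_or_gt_of_ne hlam with h1 | h1 <;> rcases mem_uIcc.1 hθ with h2 | h2 <;>
        refine mem_uIcc.2 ?_
      · right; constructor <;> nlinarith [h2.1, h2.2]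
      · left; constructor <;> nlinarith [h2.1, h2.2]
      · left; constructor <;> nlinarith [h2.1, h2.2]
      · right; constructor <;> nlinarith [h2.1, h2.2]
    have e2 : (2 : ℕ∞) = ((2 : ℕ) : ℕ∞) := rfl
    rw [or_iff_not_imp_left, e2, encard_le_iff]
    intro hn
    simp only [not_forall, not_not] at hn
    obtain ⟨x', hx', hinj⟩ := hn
    set y := mv F v χ t z + (θ * lam) • v with hy
    by_cases h0 : χ j z = 0
    · exfalso
      rw [h0, mul_zero, uIcc_self, mem_singleton_iff] at hw1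
      have h5 := hG.2 y
      have e3 : (3 : ℕ∞) = ((3 : ℕ) : ℕ∞) := rfl
      rw [e3, encard_le_iff] at h5
      refine h5 (Fin.cons z x') (fun k => ?_) ?_
      · refine Fin.cases ?_ (fun k => ?_) k
        · exact ⟨hz, by simp [hy, hw1]⟩
        · exact ⟨(hx' k).1.1, (hx' k).2⟩
      · rw [Fin.cons_injective_iff]
        refine ⟨?_, hinj⟩
        rintro ⟨k, hk⟩
        exact (hx' k).1.2 hk
    have hz2 : ‖F z - q‖ < η / 2 := by
      simpa [dist_eq_norm] using (h.supp j (subset_tsupport _ h0)).2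
    have hy2 : y = F z + (t j * χ j z + θ * lam) • v := by
      rw [hy, h.mv_eq t hzD, add_smul, add_assoc]
    have hb3 : |t j * χ j z + θ * lam| ≤ 10 := by
      have h1 := abs_le.1 (h.mul_chi_le (ht j) j z)
      have h2 := abs_le.1 (h.mul_chi_le hu j z)
      rw [add_mul] at h2
      rw [abs_le]
      rcases mem_uIcc.1 hw1 with h3 | h3 <;> constructor <;> linarith [h3.1, h3.2]
    have hy3 : y ∈ ball q (7 * η / 8) := by
      have h1 := h.norm_smul_lt hb3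
      rw [mem_ball, dist_eq_norm, hy2, show F z + (t j * χ j z + θ * lam) • v - q =
        (F z - q) + (t j * χ j z + θ * lam) • v by abel]
      have := norm_add_le (F z - q) ((t j * χ j z + θ * lam) • v)
      linarith
    have h5 : ∀ k, ∃ i, x' k ∈ D i := fun k =>
      h.mv_cov ht (hx' k).1.1 (by rw [(hx' k).2]; exact hy3)
    choose ι hι using h5
    have hne : ∀ k l, k ≠ l → ι k ≠ ι l := fun k l hkl h1 => hkl (hinj
      ((h.mv_vd t (ι l)).2.2 _ (hx' l).1.1 _ (hx' k).1.1 (hι l) (h1 ▸ hι k) 0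
        (by rw [(hx' k).2, (hx' l).2]; simp)))
    have hnj : ∀ k, ι k ≠ j := fun k h1 => (hx' k).1.2
      ((h.mv_vd t j).2.2 _ hz _ (hx' k).1.1 hzD (h1 ▸ hι k) (θ * lam) (hx' k).2)
    have hlv := fun k => h.mv_level ht (hx' k).1.1 (hι k)
    simp only [(hx' _).2] at hlv
    have hsm : ‖y - q‖ < η / 8 := h.core (ι 0) (ι 1) (ι 2) (hne _ _ (by decide))
      (hne _ _ (by decide)) (hne _ _ (by decide)) _ (by
        rintro l (rfl | rfl | rfl) <;> exact (hlv _).1)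
    have hone : χ j z = 1 := (h.chi_one hz hzD hb3 (hy2 ▸ hsm)).eq_of_nhds
    rw [hone, mul_one] at hw1
    obtain ⟨m', hm1, hm2, hm3, hm4, hm5⟩ := miss_of_four j (ι 0) (ι 1) (ι 2) (hne _ _ (by decide))
      (hne _ _ (by decide)) (hne _ _ (by decide)) (hnj _) (hnj _) (hnj _)
    have hm : m' = m := by
      by_contra h1
      refine hw' m' hm1 h1 _ hw1 ⟨y - q, fun i hi => ?_⟩
      have h2 : ∀ k, pos ν lev v (t + Pi.single j (θ * lam)) (ι k) = pos ν lev v t (ι k) :=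
        fun k => by simp [pos, hnj k]
      rcases hm5 i hi with rfl | rfl | rfl | rfl
      · rw [hy2, h.level hz hzD, hone]; simp [pos]
      all_goals rw [h2]; exact (hlv _).2 hsm
    subst hm
    have h6 : ∀ k, ι k ≠ m' → ⟪ν (ι k), y - p⟫ = 0 := fun k hk => by
      rw [show y - p = (y - q) - (p - q) by abel, inner_sub_right, (hlv k).2 hsm,
        hp _ (hnj k) hk, sub_self]
    exact sub_eq_zero.1 (eq_zero_of_inner3 (h.det (ι 0) (ι 1) (ι 2) (hne _ _ (by decide))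
      (hne _ _ (by decide)) (hne _ _ (by decide))) (h6 0 hm2) (h6 1 hm3) (h6 2 hm4))
  · funext y
    rw [hd, mv_single, vm, smul_smul]
    congr 2
    field_simp
  · rw [hd, real_inner_smul_right, mv, inner_nrm_vm h.i4.1.1 (h.disp_smooth t)]
    have h1 := h.sgn j b₀ hb hbD
    have h2 : 0 < (s * (e j * u)) * (lam * u) * (e j * ⟪nrm F b₀, v⟫) := by positivity
    have h3 : (s * (e j * u)) * (lam * u) * (e j * ⟪nrm F b₀, v⟫) =
      (s * (lam * ⟪nrm F b₀, v⟫)) * (e j * u) ^ 2 := by ring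
    rw [h3] at h2
    by_contra h4
    rw [not_lt] at h4
    nlinarith [sq_nonneg (e j * u), mul_nonneg (neg_nonneg.2 h4) (sq_nonneg (e j * u))]

end Arr

end Pool.Agent.Lib.Q28.Five
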