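import Pool.Agent.Lib.Q28.GenericEng

/-!
General position of a finite family of immersions after one small perturbation.
-/

namespace Pool.Agent.Lib.Q28

open MeasureTheory Set Function Module Filter Metric
open scoped Topology ContDiff RealInnerProductSpace Manifold

set_option linter.unusedSectionVars false

variable [Sf]

namespace Generic

theorem inner3 (a b : E) : ⟪a, b⟫ = a 0 * b 0 + a 1 * b 1 + a 2 * b 2 := by
  simp [PiLp.inner_apply, Fin.sum_univ_three, mul_comm]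

theorem cross0 (a b : E) : cross a b 0 = a 1 * b 2 - a 2 * b 1 := rfl
theorem cross1 (a b : E) : cross a b 1 = a 2 * b 0 - a 0 * b 2 := rfl
theorem cross2 (a b : E) : cross a b 2 = a 0 * b 1 - a 1 * b 0 := rfl

theorem ext3 {a b : E} (h0 : a 0 = b 0) (h1 : a 1 = b 1) (h2 : a 2 = b 2) : a = b := by
  ext i; fin_cases i
  exacts [h0, h1, h2]

theorem clm_apply (M : E →L[ℝ] E) (w : E) :
    M w = w 0 • M (ε 0) + w 1 • M (ε 1) + w 2 • M (ε 2) := by
  have : w = w 0 • ε 0 + w 1 • ε 1 + w 2 • ε 2 := by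
    apply ext3 <;> simp [ε]
  conv_lhs => rw [this]
  simp

theorem cof_perp (M : E →L[ℝ] E) {x w : E} (h : ⟪x, w⟫ = 0) : ⟪cof M x, M w⟫ = 0 := by
  rw [clm_apply M w]
  rw [inner3] at h
  have : ⟪cof M x, w 0 • M (ε 0) + w 1 • M (ε 1) + w 2 • M (ε 2)⟫ =
      (x 0 * w 0 + x 1 * w 1 + x 2 * w 2) * det3 (M (ε 0)) (M (ε 1)) (M (ε 2)) := by
    simp only [inner3, cof, det3, PiLp.add_apply, PiLp.smul_apply, smul_eq_mul, cross0, cross1,
      cross2]
    ring
  rw [this, h, zero_mul]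

theorem on_line {y q v : E} (hv : v ≠ 0) (h : cross (y - q) v = 0) : ∃ s : ℝ, y = q + s • v := by
  have hn : ⟪v, v⟫ ≠ 0 := fun h => hv (inner_self_eq_zero.1 h)
  have c0 : (y - q) 1 * v 2 - (y - q) 2 * v 1 = 0 := by rw [← cross0, h]; rfl
  have c1 : (y - q) 2 * v 0 - (y - q) 0 * v 2 = 0 := by rw [← cross1, h]; rfl
  have c2 : (y - q) 0 * v 1 - (y - q) 1 * v 0 = 0 := by rw [← cross2, h]; rfl
  refine ⟨⟪y - q, v⟫ / ⟪v, v⟫, ?_⟩
  rw [← sub_eq_iff_eq_add']
  apply ext3 <;> rw [PiLp.smul_apply, smul_eq_mul, div_mul_eq_mul_div, eq_div_iff hn, inner3,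
    inner3]
  · linear_combination v 1 * c2 - v 2 * c1
  · linear_combination v 2 * c0 - v 0 * c2
  · linear_combination v 0 * c1 - v 1 * c0

theorem dep_of_det3 (n : Fin 3 → E) (h : det3 (n 0) (n 1) (n 2) = 0) :
    ∃ c : Fin 3 → ℝ, c ≠ 0 ∧ ∑ i, c i • n i = 0 := by
  have hd : (Matrix.of fun i j => n i j).det = 0 := by
    rw [Matrix.det_fin_three, ← h]
    simp only [det3, inner3, cross0, cross1, cross2, Matrix.of_apply]
    ring
  obtain ⟨c, hc, h1⟩ := Matrix.exists_vecMul_eq_zero_iff.2 hd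
  refine ⟨c, hc, ?_⟩
  ext j
  have := congrFun h1 j
  simpa [Matrix.vecMul, dotProduct, Fin.sum_univ_three] using this

theorem dep_four (n : Fin 4 → E) : ∃ c : Fin 4 → ℝ, c ≠ 0 ∧ ∑ i, c i • n i = 0 := by
  have : ¬ LinearIndependent ℝ n := fun h => by
    have := h.fintype_card_le_finrank
    simp at this
  obtain ⟨c, h1, i, hi⟩ := Fintype.not_linearIndependent_iff.1 this
  exact ⟨c, fun h => hi (congrFun h i), h1⟩

theorem Imm_lower {f : E → E} (hf : Imm f) : ∃ c > 0, ∀ x ∈ S, ∀ w : E, ⟪unv x, w⟫ = 0 →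
    c * ‖w‖ ≤ ‖fderiv ℝ f x w‖ := by
  have hc : Continuous (fderiv ℝ f) := hf.1.continuous_fderiv (by simp)
  have hZ : IsCompact ((S ×ˢ sphere (0 : E) 1) ∩ {z : E × E | ⟪unv z.1, z.2⟫ = 0}) :=
    (isCompact_S.prod (isCompact_sphere _ _)).inter_right
      (isClosed_eq ((unv_smooth.continuous.comp continuous_fst).inner continuous_snd)
        continuous_const)
  have hc2 : Continuous fun z : E × E => ‖fderiv ℝ f z.1 z.2‖ :=
    ((hc.comp continuous_fst).clm_apply continuous_snd).norm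
  obtain ⟨c, hc0, hc1⟩ := hZ.exists_forall_le' (a := 0) hc2.continuousOn (by
      rintro ⟨x, w⟩ ⟨⟨hx, hw⟩, h⟩
      refine norm_pos_iff.2 fun h0 => ?_
      have := hf.2 x hx w h h0
      simp only at hw
      rw [this] at hw
      simp at hw)
  refine ⟨c, hc0, fun x hx w h => ?_⟩
  rcases eq_or_ne w 0 with rfl | hw
  · simp
  have hn : 0 < ‖w‖ := norm_pos_iff.2 hw
  have := hc1 (x, ‖w‖⁻¹ • w) ⟨⟨hx, by simp [norm_smul, hn.ne']⟩, by
    simp [inner_smul_right, h]⟩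
  simp only [map_smul, norm_smul, norm_inv, norm_norm] at this
  rwa [← div_eq_inv_mul, le_div_iff₀ hn] at this

/-- Homogeneous coordinates. -/
def hat (x : E) : Fin 4 → ℝ := ![1, x 0, x 1, x 2]

theorem hat_smooth (s : Fin 4) : ContDiff ℝ ∞ fun x => hat x s := by
  fin_cases s <;> simp [hat] <;> fun_prop

theorem aff_sep {y y' : E} (h : y ≠ y') : ∃ α : Fin 4 → ℝ,
    ∑ s, α s * hat y' s = 1 ∧ ∑ s, α s * hat y s = 0 := by
  have hn : ⟪y' - y, y' - y⟫ ≠ 0 := fun h0 => h (sub_eq_zero.1 (inner_self_eq_zero.1 h0)).symm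
  refine ⟨fun s => (![-⟪y, y' - y⟫, (y' - y) 0, (y' - y) 1, (y' - y) 2] : Fin 4 → ℝ) s /
    ⟪y' - y, y' - y⟫, ?_, ?_⟩
  · simp only [div_mul_eq_mul_div, ← Finset.sum_div]
    rw [div_eq_one_iff_eq hn]
    simp [Fin.sum_univ_four, hat, inner3, -inner_self_eq_norm_sq_to_K]
    ring
  · simp only [div_mul_eq_mul_div, ← Finset.sum_div]
    rw [div_eq_zero_iff]
    left
    simp [Fin.sum_univ_four, hat, inner3, -inner_self_eq_norm_sq_to_K]
    ring

theorem mono_sep {k : ℕ} (hk : k ≤ 4) {x : Fin k → E} (hx : Injective x) (i : Fin k) :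
    ∃ l : (Fin 4 → Fin 4) → ℝ, ∀ j, ∑ σ, l σ * ∏ r, hat (x j) (σ r) = if j = i then 1 else 0 := by
  have : ∀ r : Fin 4, ∃ α : Fin 4 → ℝ, ∑ s, α s * hat (x i) s = 1 ∧
      ∀ j : Fin k, j.val = r.val → j ≠ i → ∑ s, α s * hat (x j) s = 0 := by
    intro r
    by_cases h : ∃ j : Fin k, j.val = r.val ∧ j ≠ i
    · obtain ⟨j, hj, hji⟩ := h
      obtain ⟨α, h1, h2⟩ := aff_sep (hx.ne hji)
      refine ⟨α, h1, fun j' hj' _ => ?_⟩
      have : j' = j := Fin.ext (hj'.trans hj.symm)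
      rw [this, h2]
    · refine ⟨![1, 0, 0, 0], by simp [Fin.sum_univ_four, hat], fun j hj hji => ?_⟩
      exact absurd ⟨j, hj, hji⟩ h
  choose α h1 h2 using this
  refine ⟨fun σ => ∏ r, α r (σ r), fun j => ?_⟩
  have e : ∑ σ : Fin 4 → Fin 4, (∏ r, α r (σ r)) * ∏ r, hat (x j) (σ r) =
      ∏ r, ∑ s, α r s * hat (x j) s := by
    rw [Finset.prod_univ_sum, Fintype.piFinset_univ]
    simp only [Finset.prod_mul_distrib]
  rw [e]
  split_ifs with hji
  · simp [hji, h1]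
  · exact Finset.prod_eq_zero (Finset.mem_univ ⟨j.val, by omega⟩) (h2 _ j rfl hji)

theorem pert_small {ι : Type} [Fintype ι] {φ : ι → E → ℝ} (hφ : ∀ σ, ContDiff ℝ ∞ (φ σ))
    {δ : ℝ} (hδ : 0 < δ) : ∃ r > 0, ∀ C : ι → E, ‖C‖ < r → Small δ (pert φ C) := by
  have hc : Continuous fun x => ∑ σ, (‖φ σ x‖ + ‖fderiv ℝ (φ σ) x‖) :=
    continuous_finsetSum _ fun σ _ =>
      (hφ σ).continuous.norm.add ((hφ σ).continuous_fderiv (by simp)).norm
  obtain ⟨M, hM⟩ := isCompact_S.bddAbove_image hc.continuousOn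
  have hM' : ∀ x ∈ S, ∑ σ, (‖φ σ x‖ + ‖fderiv ℝ (φ σ) x‖) ≤ |M| + 1 := fun x hx =>
    (hM ⟨x, hx, rfl⟩).trans (by linarith [le_abs_self M])
  have hp : 0 < |M| + 1 := by positivity
  refine ⟨δ / (|M| + 1), by positivity, fun C hC x hx => ?_⟩
  have hC' : (|M| + 1) * ‖C‖ ≤ δ := by
    rw [lt_div_iff₀ hp] at hC; linarith
  have hC0 := norm_nonneg C
  constructor
  · calc ‖pert φ C x‖ ≤ ∑ σ, ‖φ σ x • C σ‖ := norm_sum_le _ _
      _ ≤ ∑ σ, (‖φ σ x‖ + ‖fderiv ℝ (φ σ) x‖) * ‖C‖ := by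
        refine Finset.sum_le_sum fun σ _ => ?_
        rw [norm_smul]
        have := norm_le_pi_norm C σ
        have := norm_nonneg (fderiv ℝ (φ σ) x)
        gcongr; linarith
      _ ≤ δ := by
        rw [← Finset.sum_mul]
        exact (mul_le_mul_of_nonneg_right (hM' x hx) hC0).trans hC'
  · intro w _
    have hD : HasFDerivAt (pert φ C) (∑ σ, (fderiv ℝ (φ σ) x).smulRight (C σ)) x :=
      HasFDerivAt.fun_sum fun σ _ =>
        (((hφ σ).differentiable (by simp)) x).hasFDerivAt.smul_const (C σ)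
    rw [hD.fderiv, sum_apply]
    calc _ ≤ ∑ σ, ‖((fderiv ℝ (φ σ) x).smulRight (C σ)) w‖ := norm_sum_le _ _
      _ ≤ ∑ σ, (‖φ σ x‖ + ‖fderiv ℝ (φ σ) x‖) * ‖C‖ * ‖w‖ := by
        refine Finset.sum_le_sum fun σ _ => ?_
        rw [ContinuousLinearMap.smulRight_apply, norm_smul, mul_right_comm]
        have h1 := norm_le_pi_norm C σ
        have h2 := (fderiv ℝ (φ σ) x).le_opNorm w
        have h3 : ‖fderiv ℝ (φ σ) x‖ * ‖w‖ ≤ (‖φ σ x‖ + ‖fderiv ℝ (φ σ) x‖) * ‖w‖ := by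
          gcongr; linarith [norm_nonneg (φ σ x)]
        exact mul_le_mul (h2.trans h3) h1 (norm_nonneg _) (by positivity)
      _ ≤ δ * ‖w‖ := by
        rw [← Finset.sum_mul, ← Finset.sum_mul]
        exact mul_le_mul_of_nonneg_right
          ((mul_le_mul_of_nonneg_right (hM' x hx) hC0).trans hC') (norm_nonneg _)

/-- The conclusion of the engine, specialised to multiples of the normals. -/
def Tr (g : E → E) (K : Set E) (k : ℕ) {Y : Type} [NormedAddCommGroup Y] [NormedSpace ℝ Y]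
    (c : E) (B : Y →L[ℝ] E) : Prop :=
  ∀ x : Fin k → E, (∀ i, x i ∈ K) → Injective x → ∀ z, (∀ i, g (x i) = c + B z) →
    ∀ θ : Fin k → E, (∀ i w, ⟪unv (x i), w⟫ = 0 → ⟪θ i, fderiv ℝ g (x i) w⟫ = 0) →
      (∀ ζ, ⟪∑ i, θ i, B ζ⟫ = 0) → θ = 0

theorem Tr.coef {g : E → E} {K : Set E} {k : ℕ} {Y : Type} [NormedAddCommGroup Y]
    [NormedSpace ℝ Y] {c : E} {B : Y →L[ℝ] E} (h : Tr g K k c B) (hn : ∀ x ∈ K, nrm g x ≠ 0)
    {x : Fin k → E} (hx : ∀ i, x i ∈ K) (hi : Injective x) {z : Y} (hz : ∀ i, g (x i) = c + B z)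
    {a : Fin k → ℝ} (ha : ∀ ζ, ⟪∑ i, a i • nrm g (x i), B ζ⟫ = 0) : a = 0 := by
  have := h x hx hi z hz (fun i => a i • nrm g (x i)) (fun i w hw => by
    rw [real_inner_smul_left, nrm, cof_perp _ hw, mul_zero]) ha
  funext i
  exact (smul_eq_zero.1 (congrFun this i)).resolve_right (hn _ (hx i))

theorem genOn_of_tr {g : E → E} {K : Set E} {q v : E} (hv : v ≠ 0) (hn : ∀ x ∈ K, nrm g x ≠ 0)
    (h4 : Tr g K 4 0 (ContinuousLinearMap.id ℝ E)) (h3 : Tr g K 3 0 (ContinuousLinearMap.id ℝ E))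
    (h1 : Tr g K 1 q (ContinuousLinearMap.toSpanSingleton ℝ v))
    (h2 : Tr g K 2 q (ContinuousLinearMap.toSpanSingleton ℝ v)) : GenOn g K q v := by
  refine ⟨fun x hx hi h => ?_, fun x hx hi h hd => ?_, fun x hx h hd => ?_,
    fun x hx x' hx' hne hg h => ?_⟩
  · obtain ⟨c, hc, hc0⟩ := dep_four fun i => nrm g (x i)
    exact hc (h4.coef hn hx hi (z := g (x 0)) (by simpa using h) (by simp [hc0]))
  · obtain ⟨c, hc, hc0⟩ := dep_of_det3 (fun i => nrm g (x i)) hd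
    exact hc (h3.coef hn hx hi (z := g (x 0)) (by simpa using h) (by simp [hc0]))
  · obtain ⟨s, hs⟩ := on_line hv h
    have := h1.coef hn (x := fun _ => x) (fun _ => hx) (fun i j _ => Subsingleton.elim i j)
      (z := s) (by simpa using hs) (a := fun _ => 1) (by simp [inner_smul_right, hd])
    simpa using congrFun this 0
  · obtain ⟨s, hs⟩ := on_line hv h
    have hi : Injective ![x, x'] := by
      intro i j hij
      fin_cases i <;> fin_cases j <;> simp_all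
    have hK : ∀ i, ![x, x'] i ∈ K := by
      intro i; fin_cases i <;> simp [hx, hx']
    have hz : ∀ i, g (![x, x'] i) = q + ContinuousLinearMap.toSpanSingleton ℝ v s := by
      intro i; fin_cases i <;> simp [← hg, hs]
    have e0 := h2.coef hn hK hi hz (a := ![-⟪nrm g x', v⟫, ⟪nrm g x, v⟫]) (by
      intro ζ
      simp [Fin.sum_univ_two, inner_smul_right, inner_add_left, real_inner_smul_left]
      right; ring)
    have e1 : ⟪nrm g x, v⟫ = 0 := by simpa using congrFun e0 1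
    have e2 := h2.coef hn hK hi hz (a := ![1, 0]) (by
      intro ζ
      simp [Fin.sum_univ_two, inner_smul_right, e1])
    simpa using congrFun e2 0

end Generic

open Generic in
/-- One small perturbation supported in `U` puts finitely many immersions in general position
on the compact set `K`. -/
theorem generic {J : Type} [Finite J] (F : J → E → E) (hF : ∀ j, Imm (F j)) {K U : Set E}
    (hK : IsCompact K) (hKS : K ⊆ S) (hU : IsOpen U) (hKU : K ⊆ U) (q v : E) (hv : v ≠ 0)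
    {δ : ℝ} (hδ : 0 < δ) :
    ∃ p : E → E, ContDiff ℝ ∞ p ∧ Small δ p ∧ tsupport p ⊆ U ∧ ∀ j, GenOn (F j + p) K q v := by
  obtain ⟨L, hL, hKL, hLU⟩ := exists_compact_between hK hU hKU
  obtain ⟨χ, hχ0, hχ1, -⟩ := exists_contMDiffMap_zero_one_of_isClosed (n := ⊤) 𝓘(ℝ, E)
    (s := (interior L)ᶜ) (t := K) isOpen_interior.isClosed_compl hK.isClosed
    (disjoint_compl_left_iff_subset.2 hKL)
  have hχ : ContDiff ℝ ∞ (χ : E → ℝ) := χ.contMDiff.contDiff
  set φ : (Fin 4 → Fin 4) → E → ℝ := fun σ x => χ x * ∏ r, hat x (σ r) with hφdef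
  have hφ : ∀ σ, ContDiff ℝ ∞ (φ σ) := fun σ =>
    hχ.mul (contDiff_prod fun r _ => hat_smooth (σ r))
  have hφd : ∀ σ, Differentiable ℝ (φ σ) := fun σ => (hφ σ).differentiable (by simp)
  have hFd : ∀ j, Differentiable ℝ (F j) := fun j => (hF j).1.differentiable (by simp)
  choose c hc0 hc using fun j => Imm_lower (hF j)
  obtain ⟨δ', hδ'0, hδ'δ, hδ'c⟩ : ∃ δ' > 0, δ' ≤ δ ∧ ∀ j, δ' < c j := by
    have : ∀ᶠ t in 𝓝[>] (0 : ℝ), t ≤ δ ∧ ∀ j, t < c j :=
      mem_nhdsWithin_of_mem_nhds ((eventually_le_nhds hδ).and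
        (eventually_all.2 fun j => eventually_lt_nhds (hc0 j)))
    obtain ⟨t, ht, ht0⟩ := (this.and self_mem_nhdsWithin).exists
    exact ⟨t, ht0, ht⟩
  obtain ⟨r, hr0, hr⟩ := pert_small hφ hδ'0
  set μ : Measure ((Fin 4 → Fin 4) → E) := Measure.addHaar with hμ
  have key : ∀ (j : J) {k : ℕ} (_ : k ≤ 4) {Y : Type} [NormedAddCommGroup Y] [NormedSpace ℝ Y]
      [FiniteDimensional ℝ Y] (_ : finrank ℝ Y ≤ k) (c : E) (B : Y →L[ℝ] E),
      ∀ᵐ C ∂μ, Tr (F j + pert φ C) K k c B := by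
    intro j k hk Y _ _ _ hY c B
    filter_upwards [engine hφd μ hY (hFd j) c B] with C hC x hx hi
    refine hC x (fun i => hKS (hx i)) fun i => ?_
    obtain ⟨l, hl⟩ := mono_sep hk hi i
    refine ⟨l, fun j => ?_⟩
    have : χ (x j) = 1 := hχ1 (hx j)
    simp only [hφdef, this, one_mul, hl]
  have hae : ∀ᵐ C ∂μ, ∀ j, Tr (F j + pert φ C) K 4 0 (ContinuousLinearMap.id ℝ E) ∧
      Tr (F j + pert φ C) K 3 0 (ContinuousLinearMap.id ℝ E) ∧
      Tr (F j + pert φ C) K 1 q (ContinuousLinearMap.toSpanSingleton ℝ v) ∧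
      Tr (F j + pert φ C) K 2 q (ContinuousLinearMap.toSpanSingleton ℝ v) :=
    ae_all_iff.2 fun j => (key j le_rfl (by simp) _ _).and ((key j (by norm_num) (by simp) _ _).and
      ((key j (by norm_num) (by simp) _ _).and (key j (by norm_num) (by simp) _ _)))
  obtain ⟨C, hC, hCg⟩ := Measure.exists_mem_of_measure_ne_zero_of_ae
    (measure_ball_pos μ 0 hr0).ne' (ae_restrict_of_ae hae)
  have hS := hr C (mem_ball_zero_iff.1 hC)
  refine ⟨pert φ C, ?_, fun x hx => ⟨(hS x hx).1.trans hδ'δ, fun w hw => ((hS x hx).2 w hw).trans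
    (by gcongr)⟩, ?_, fun j => ?_⟩
  · exact ContDiff.sum fun σ _ => (hφ σ).smul contDiff_const
  · refine (closure_minimal (fun x hx => ?_) hL.isClosed).trans hLU
    by_contra hxL
    have : χ x = 0 := hχ0 fun h => hxL (interior_subset h)
    exact hx (by simp [pert, hφdef, this])
  · obtain ⟨h4, h3, h1, h2⟩ := hCg j
    refine genOn_of_tr hv (fun x hx => nrm_ne_of_inj (hKS hx) fun w hw h0 => ?_) h4 h3 h1 h2
    rw [fderiv_add (hFd j x) (pert_diff hφd C x), add_apply, add_eq_zero_iff_eq_neg] at h0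
    have e1 := hc j x (hKS hx) w hw
    have e2 := (hS x (hKS hx)).2 w hw
    rw [h0, norm_neg] at e1
    by_contra hw0
    have := norm_pos_iff.2 hw0
    nlinarith [hδ'c j]

end Pool.Agent.Lib.Q28
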