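import Pool.Agent.Lib.Q28.Geo
import Pool.Agent.Lib.Q28.GenericSard

/-!
Multi-point transversality on the surface for a finite-dimensional family of perturbations.
-/

namespace Pool.Agent.Lib.Q28.Generic

open MeasureTheory Set Function Module Filter Metric
open scoped Topology ContDiff RealInnerProductSpace

set_option linter.unusedSectionVars false

variable [Sf]

/-- The perturbation with coefficients `C`. -/
noncomputable def pert {ι : Type} [Fintype ι] (φ : ι → E → ℝ) (C : ι → E) (x : E) : E :=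
  ∑ σ, φ σ x • C σ

theorem pert_diff {ι : Type} [Fintype ι] {φ : ι → E → ℝ} (hφ : ∀ σ, Differentiable ℝ (φ σ))
    (C : ι → E) : Differentiable ℝ (pert φ C) := by
  unfold pert
  fun_prop

theorem engine_chart {ι : Type} [Fintype ι] {φ : ι → E → ℝ} (hφ : ∀ σ, Differentiable ℝ (φ σ))
    (μ : Measure (ι → E)) [μ.IsAddHaarMeasure] {k : ℕ} {Y : Type} [NormedAddCommGroup Y]
    [NormedSpace ℝ Y] [FiniteDimensional ℝ Y] (hd : finrank ℝ Y ≤ k) {F : E → E}
    (hF : Differentiable ℝ F) (c : E) (B : Y →L[ℝ] E) {sp : Fin k → ℝ × ℝ → E}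
    (hs : ∀ i, Differentiable ℝ (sp i)) (hsS : ∀ i a, sp i a ∈ S) :
    ∀ᵐ C ∂μ, ∀ x : Fin k → E, (∀ i, ∃ a, sp i a = x i) →
      (∀ i, ∃ l : ι → ℝ, ∀ j, ∑ σ, l σ * φ σ (x j) = if j = i then 1 else 0) →
      ∀ z, (∀ i, (F + pert φ C) (x i) = c + B z) → ∀ θ : Fin k → E,
        (∀ i w, ⟪unv (x i), w⟫ = 0 → ⟪θ i, fderiv ℝ (F + pert φ C) (x i) w⟫ = 0) →
        (∀ ζ, ⟪∑ i, θ i, B ζ⟫ = 0) → θ = 0 := by
  classical
  set T : Fin k → ι → (ι → E) →L[ℝ] (Fin k → E) := fun i σ =>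
    (ContinuousLinearMap.single ℝ (fun _ : Fin k => E) i).comp
      (ContinuousLinearMap.proj (R := ℝ) (φ := fun _ : ι => E) σ) with hT
  set G : (Fin k → ℝ × ℝ) × Y → (Fin k → E) := fun ξ i => F (sp i (ξ.1 i)) - c - B ξ.2 with hG
  set Λ : (Fin k → ℝ × ℝ) × Y → (ι → E) →L[ℝ] (Fin k → E) := fun ξ =>
    ∑ i, ∑ σ, φ σ (sp i (ξ.1 i)) • T i σ with hΛ
  have hGd : Differentiable ℝ G := by
    rw [hG]; fun_prop
  have hΛd : Differentiable ℝ Λ := by
    rw [hΛ]; fun_prop
  have hΛa : ∀ ξ C i, Λ ξ C i = pert φ C (sp i (ξ.1 i)) := by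
    intro ξ C i
    simp only [hΛ, hT, pert, sum_apply, Finset.sum_apply, smul_apply, Pi.smul_apply,
      ContinuousLinearMap.comp_apply, ContinuousLinearMap.single_apply,
      ContinuousLinearMap.proj_apply]
    rw [Finset.sum_eq_single i]
    · simp
    · intro j _ hj
      simp [Pi.single_eq_of_ne hj.symm]
    · simp
  have hdim : finrank ℝ ((Fin k → ℝ × ℝ) × Y) ≤ finrank ℝ (Fin k → E) := by
    rw [finrank_prod, finrank_pi_fintype, finrank_pi_fintype]
    simp
    omega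
  have h := param μ hdim G Λ hGd hΛd
  rw [ae_iff]
  refine measure_mono_null ?_ h
  intro C hC
  simp only [mem_ofPred_eq, not_forall] at hC
  obtain ⟨x, hxS, hsep, z, hz, θ, hθ1, hθ2, hθ⟩ := hC
  choose a ha using hxS
  choose l hl using hsep
  refine ⟨(a, z), ?_, ?_, ∑ i, (innerSL ℝ (θ i)).comp
    (ContinuousLinearMap.proj (R := ℝ) (φ := fun _ : Fin k => E) i), ?_, ?_⟩
  · intro u
    refine ⟨fun σ => ∑ i, l i σ • u i, ?_⟩
    funext j
    rw [hΛa]
    simp only [pert, ha, Finset.smul_sum, smul_smul]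
    rw [Finset.sum_comm]
    simp only [← Finset.sum_smul, mul_comm (φ _ _), hl]
    simp
  · funext i
    have := hz i
    simp only [Pi.add_apply] at this
    simp only [Pi.add_apply, hΛa, hG, ha, Pi.zero_apply]
    rw [← sub_eq_zero] at this
    rw [← this]; abel
  · intro h0
    apply hθ
    have h1 := congrArg (fun T : (Fin k → E) →L[ℝ] ℝ => T θ) h0
    simp only [sum_apply, ContinuousLinearMap.comp_apply, ContinuousLinearMap.proj_apply,
      innerSL_apply_apply, zero_apply] at h1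
    rw [Finset.sum_eq_zero_iff_of_nonneg (fun i _ => real_inner_self_nonneg)] at h1
    funext i
    exact inner_self_eq_zero.1 (h1 i (Finset.mem_univ i))
  · intro h
    have hg : Differentiable ℝ (F + pert φ C) := hF.add (pert_diff hφ C)
    have e : (fun η => G η + Λ η C) = fun η i =>
        (F + pert φ C) (sp i (η.1 i)) - c - B η.2 := by
      funext η i
      simp only [Pi.add_apply, hΛa, hG]; abel
    have hD : HasFDerivAt (fun (η : (Fin k → ℝ × ℝ) × Y) (i : Fin k) =>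
        (F + pert φ C) (sp i (η.1 i)) - c - B η.2)
        (ContinuousLinearMap.pi fun i =>
          (fderiv ℝ (F + pert φ C) (sp i (a i))).comp ((fderiv ℝ (sp i) (a i)).comp
            ((ContinuousLinearMap.proj (R := ℝ) (φ := fun _ : Fin k => ℝ × ℝ) i).comp
              (ContinuousLinearMap.fst ℝ _ Y))) - B.comp (ContinuousLinearMap.snd ℝ _ Y))
        (a, z) := by
      rw [hasFDerivAt_pi]
      intro i
      have h1 : HasFDerivAt (fun η : (Fin k → ℝ × ℝ) × Y => η.1 i)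
          ((ContinuousLinearMap.proj (R := ℝ) (φ := fun _ : Fin k => ℝ × ℝ) i).comp
              (ContinuousLinearMap.fst ℝ _ Y)) (a, z) :=
        ((ContinuousLinearMap.proj (R := ℝ) (φ := fun _ : Fin k => ℝ × ℝ) i).comp
              (ContinuousLinearMap.fst ℝ _ Y)).hasFDerivAt
      have h2 := (hg (sp i (a i))).hasFDerivAt.comp (a, z) ((hs i (a i)).hasFDerivAt.comp (a, z) h1)
      exact (h2.sub_const c).sub (B.comp (ContinuousLinearMap.snd ℝ (Fin k → ℝ × ℝ) Y)).hasFDerivAt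
    rw [e, hD.fderiv]
    simp only [sum_apply, ContinuousLinearMap.comp_apply, ContinuousLinearMap.proj_apply,
      innerSL_apply_apply, ContinuousLinearMap.pi_apply, sub_apply, inner_sub_right,
      Finset.sum_sub_distrib]
    rw [← sum_inner, hθ2, sub_zero]
    refine Finset.sum_eq_zero fun i _ => ?_
    rw [ha]
    refine hθ1 i _ ?_
    rw [← ha]
    exact chart_tangent (hs i) (hsS i) _ _

theorem engine {ι : Type} [Fintype ι] {φ : ι → E → ℝ} (hφ : ∀ σ, Differentiable ℝ (φ σ))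
    (μ : Measure (ι → E)) [μ.IsAddHaarMeasure] {k : ℕ} {Y : Type} [NormedAddCommGroup Y]
    [NormedSpace ℝ Y] [FiniteDimensional ℝ Y] (hd : finrank ℝ Y ≤ k) {F : E → E}
    (hF : Differentiable ℝ F) (c : E) (B : Y →L[ℝ] E) :
    ∀ᵐ C ∂μ, ∀ x : Fin k → E, (∀ i, x i ∈ S) →
      (∀ i, ∃ l : ι → ℝ, ∀ j, ∑ σ, l σ * φ σ (x j) = if j = i then 1 else 0) →
      ∀ z, (∀ i, (F + pert φ C) (x i) = c + B z) → ∀ θ : Fin k → E,
        (∀ i w, ⟪unv (x i), w⟫ = 0 → ⟪θ i, fderiv ℝ (F + pert φ C) (x i) w⟫ = 0) →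
        (∀ ζ, ⟪∑ i, θ i, B ζ⟫ = 0) → θ = 0 := by
  obtain ⟨J, _, sp, h1, h2, h3⟩ := exists_charts
  filter_upwards [ae_all_iff.2 fun j : Fin k → J =>
    engine_chart hφ μ hd hF c B (sp := fun i => sp (j i)) (fun i => h1 _) fun i => h2 _] with C hC x hx
  choose j a ha using fun i => h3 _ (hx i)
  exact hC j x fun i => ⟨a i, ha i⟩

end Pool.Agent.Lib.Q28.Generic
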