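import Pool.Agent.Lib.Q28.Alg

/-! Local geometry of the level surface: retractions, curves and charts. -/

namespace Pool.Agent.Lib.Q28

open scoped ContDiff RealInnerProductSpace Topology
open Metric Set Function Filter

set_option linter.unusedSectionVars false

/-- Orthogonal projection along a unit vector. -/
noncomputable def prj (n : E) : E →L[ℝ] E := ContinuousLinearMap.id ℝ E - (innerSL ℝ n).smulRight n

theorem prj_apply (n w : E) : prj n w = w - ⟪n, w⟫ • n := by simp [prj]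

theorem norm_prj_le {n : E} (hn : ‖n‖ = 1) : ‖prj n‖ ≤ 1 := by
  refine ContinuousLinearMap.opNorm_le_bound _ zero_le_one fun w => ?_
  rw [prj_apply, one_mul]
  refine abs_le_of_sq_le_sq' ?_ (norm_nonneg _) |>.2
  rw [@norm_sub_sq_real, real_inner_smul_right, norm_smul, hn, real_inner_comm n w, mul_one,
    Real.norm_eq_abs, sq_abs]
  nlinarith [sq_nonneg ⟪n, w⟫]

variable [Sf]

/-- A local retraction onto the surface along the normal line at `x₀`. -/
theorem exists_retr {x₀ : E} (hx₀ : x₀ ∈ S) :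
    ∃ N : E → E, ContDiffAt ℝ 1 N x₀ ∧ N x₀ = x₀ ∧ HasFDerivAt N (prj (unv x₀)) x₀ ∧
      (∀ y (l : ℝ), N (y + l • unv x₀) = N y) ∧
      ∀ᶠ y in 𝓝 x₀, N y ∈ S ∧ (y ∈ S → N y = y) ∧ ∃ l : ℝ, N y = y + l • unv x₀ := by
  set n := unv x₀ with hn
  have hnn : ⟪n, n⟫ = 1 := inner_self_S hx₀
  have hc : ‖grd x₀‖ ≠ 0 := norm_ne_zero_iff.2 (grd_ne hx₀)
  have hφ := Sf.smooth
  let P : E → E := fun y => y - ⟪n, y - x₀⟫ • n
  have hP : ContDiff ℝ 1 P :=
    contDiff_id.sub ((contDiff_const.inner ℝ (contDiff_id.sub contDiff_const)).smul contDiff_const)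
  have hPd : HasFDerivAt P (prj n) x₀ := by
    have h1 := ((innerSL ℝ n).hasFDerivAt.comp x₀ ((hasFDerivAt_id x₀).sub_const x₀)).smul_const n
    refine HasFDerivAt.congr_fderiv ((hasFDerivAt_id x₀).sub h1) ?_
    ext1 w; simp [prj]
  have hP0 : P x₀ = x₀ := by simp [P]
  let Φ : E → E := fun y => P y + (Sf.φ y * ‖grd x₀‖⁻¹) • n
  have hΦ : ContDiff ℝ 1 Φ :=
    hP.add (((hφ.of_le (by simp)).mul contDiff_const).smul contDiff_const)
  have hΦd : HasFDerivAt Φ ((ContinuousLinearEquiv.refl ℝ E : E ≃L[ℝ] E) : E →L[ℝ] E) x₀ := by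
    have h1 := (((hφ.differentiable (by simp)) x₀).hasFDerivAt.mul_const ‖grd x₀‖⁻¹).smul_const n
    refine HasFDerivAt.congr_fderiv (hPd.add h1) ?_
    ext1 w
    simp only [add_apply, prj_apply, ContinuousLinearMap.smulRight_apply, smul_apply,
      fderiv_phi hx₀, smul_eq_mul, ← mul_assoc, inv_mul_cancel₀ hc, one_mul, ← hn]
    simp
  have hΦ0 : Φ x₀ = x₀ := by simp [Φ, hP0, mem_S.1 hx₀]
  have hs : HasStrictFDerivAt Φ ((ContinuousLinearEquiv.refl ℝ E : E ≃L[ℝ] E) : E →L[ℝ] E) x₀ :=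
    hΦ.contDiffAt.hasStrictFDerivAt' hΦd (by simp)
  let Ψ : E → E := hΦ.contDiffAt.localInverse hΦd (by simp)
  have hΨ : ContDiffAt ℝ 1 Ψ x₀ := by
    have := hΦ.contDiffAt.to_localInverse hΦd (by simp)
    rwa [hΦ0] at this
  have hΨd : HasFDerivAt Ψ (ContinuousLinearMap.id ℝ E) x₀ := by
    have := hs.to_localInverse.hasFDerivAt
    rwa [hΦ0] at this
  have hl : ∀ᶠ y in 𝓝 x₀, Ψ (Φ y) = y := hs.eventually_left_inverse
  have hr : ∀ᶠ y in 𝓝 x₀, Φ (Ψ y) = y := by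
    have := hs.eventually_right_inverse
    rwa [hΦ0] at this
  have hΨ0 : Ψ x₀ = x₀ := by
    have := hl.self_of_nhds
    rwa [hΦ0] at this
  have hPt : Tendsto P (𝓝 x₀) (𝓝 x₀) := by
    have := hP.continuous.continuousAt (x := x₀)
    rwa [ContinuousAt, hP0] at this
  refine ⟨fun y => Ψ (P y), ?_, by simp only [hP0, hΨ0], ?_, fun y l => ?_, ?_⟩
  · exact ContDiffAt.comp x₀ (by rwa [hP0]) hP.contDiffAt
  · have h1 : HasFDerivAt Ψ (ContinuousLinearMap.id ℝ E) (P x₀) := by rwa [hP0]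
    exact HasFDerivAt.congr_fderiv (h1.comp x₀ hPd) (ContinuousLinearMap.id_comp _)
  · have : P (y + l • n) = P y := by
      simp only [P]
      rw [add_sub_right_comm y _ x₀, inner_add_right, real_inner_smul_right, hnn, add_smul,
        mul_one]
      abel
    simp only [this]
  · filter_upwards [hl, hPt.eventually hr] with y h1 h2
    have hPn : ∀ z, ⟪n, P z - x₀⟫ = 0 := fun z => by
      simp only [P]
      rw [sub_right_comm, inner_sub_right, real_inner_smul_right, hnn]; ring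
    have h3 : Sf.φ (Ψ (P y)) = 0 := by
      have h4 := hPn y
      rw [← h2] at h4
      simp only [Φ] at h4
      rw [add_sub_right_comm, inner_add_right, hPn, real_inner_smul_right, hnn, zero_add,
        mul_one] at h4
      exact (mul_eq_zero.1 h4).resolve_right (inv_ne_zero hc)
    refine ⟨h3, fun hy => ?_, ⟪n, Ψ (P y) - x₀⟫ - ⟪n, y - x₀⟫, ?_⟩
    · have : Φ y = P y := by simp [Φ, mem_S.1 hy]
      rw [← this, h1]
    · have h4 : P (Ψ (P y)) = P y := by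
        conv_rhs => rw [← h2]
        simp [Φ, h3]
      have h5 : Ψ (P y) - ⟪n, Ψ (P y) - x₀⟫ • n = y - ⟪n, y - x₀⟫ • n := h4
      rw [sub_smul, ← add_sub_assoc, add_sub_right_comm, ← h5]
      abel

/-- The retraction on a ball. -/
theorem exists_retr_ball {x₀ : E} (hx₀ : x₀ ∈ S) :
    ∃ (N : E → E) (r : ℝ), 0 < r ∧ (∀ y (l : ℝ), N (y + l • unv x₀) = N y) ∧
      ∀ y ∈ ball x₀ r, N y ∈ S ∧ (y ∈ S → N y = y) ∧ (∃ l : ℝ, N y = y + l • unv x₀) ∧
        DifferentiableAt ℝ N y ∧ ‖fderiv ℝ N y‖ ≤ 2 ∧ ∀ w, ⟪unv (N y), fderiv ℝ N y w⟫ = 0 := by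
  obtain ⟨N, h1, -, h3, h4, h5⟩ := exists_retr hx₀
  have e1 : ∀ᶠ y in 𝓝 x₀, ContDiffAt ℝ 1 N y := h1.eventually (by simp)
  have e2 : ∀ᶠ y in 𝓝 x₀, ‖fderiv ℝ N y‖ < 2 := by
    have c : ContinuousAt (fderiv ℝ N) x₀ := (h1.fderiv_right (m := 0) (by simp)).continuousAt
    refine c.norm.eventually_lt continuousAt_const ?_
    rw [h3.fderiv]
    exact (norm_prj_le (norm_unv hx₀)).trans_lt one_lt_two
  obtain ⟨r, hr, hr'⟩ := Metric.eventually_nhds_iff_ball.1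
    (e1.and (e2.and (h5.and h5.eventually_nhds)))
  refine ⟨N, r, hr, h4, fun y hy => ?_⟩
  obtain ⟨a1, a2, a3, a4⟩ := hr' y hy
  have hd : DifferentiableAt ℝ N y := a1.differentiableAt (by simp)
  refine ⟨a3.1, a3.2.1, a3.2.2, hd, a2.le, fun w => (tangent_iff a3.1).2 ?_⟩
  have b1 : (fun z => Sf.φ (N z)) =ᶠ[𝓝 y] fun _ => 0 := a4.mono fun z hz => hz.1
  have b2 := ((Sf.smooth.differentiable (by simp)) (N y)).hasFDerivAt.comp y hd.hasFDerivAt
  have b3 := b2.unique ((hasFDerivAt_const (0 : ℝ) y).congr_of_eventuallyEq b1)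
  simpa using congrArg (fun T : E →L[ℝ] ℝ => T w) b3

/-- A map with small tangential derivative is Lipschitz on close points of the surface. -/
theorem tangential_lip {x₀ : E} (hx₀ : x₀ ∈ S) :
    ∃ r, 0 < r ∧ ∀ {δ : ℝ} {p : E → E}, Differentiable ℝ p → ∀ {x x' : E}, x ∈ S → x' ∈ S →
      x ∈ ball x₀ r → x' ∈ ball x₀ r → ∀ {A : Set E}, (∀ y ∈ S, ‖y - x‖ ≤ 2 * ‖x' - x‖ → y ∈ A) →
      0 ≤ δ → (∀ y ∈ S, y ∈ A → ∀ w : E, ⟪unv y, w⟫ = 0 → ‖fderiv ℝ p y w‖ ≤ δ * ‖w‖) →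
      ‖p x' - p x‖ ≤ 4 * δ * ‖x' - x‖ := by
  obtain ⟨N, r, hr, -, hN⟩ := exists_retr_ball hx₀
  refine ⟨r, hr, fun {δ p} hp {x x'} hx hx' hb hb' {A} hA hδ h => ?_⟩
  set d := x' - x with hd
  have hy : ∀ t ∈ Icc (0 : ℝ) 1, x + t • d ∈ ball x₀ r := fun t ht =>
    (convex_ball x₀ r).add_smul_sub_mem hb hb' ht
  have hγ : ∀ t ∈ Icc (0 : ℝ) 1,
      HasDerivAt (fun t : ℝ => N (x + t • d)) (fderiv ℝ N (x + t • d) d) t := by
    intro t ht
    have h1 : HasDerivAt (fun t : ℝ => x + t • d) d t := by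
      simpa using ((hasDerivAt_id t).smul_const d).const_add x
    exact (hN _ (hy t ht)).2.2.2.1.hasFDerivAt.comp_hasDerivAt t h1
  have hγA : ∀ t ∈ Icc (0 : ℝ) 1, N (x + t • d) ∈ A := by
    intro t ht
    apply hA _ (hN _ (hy t ht)).1
    have h1 := (convex_ball x₀ r).norm_image_sub_le_of_norm_fderiv_le (𝕜 := ℝ)
      (fun y hy => (hN y hy).2.2.2.1) (fun y hy => (hN y hy).2.2.2.2.1) hb (hy t ht)
    rw [(hN x hb).2.1 hx, add_sub_cancel_left, norm_smul, Real.norm_eq_abs,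
      abs_of_nonneg ht.1] at h1
    nlinarith [ht.2, norm_nonneg d]
  have key := norm_image_sub_le_of_norm_deriv_le_segment_01' (f := fun t => p (N (x + t • d)))
    (f' := fun t => fderiv ℝ p (N (x + t • d)) (fderiv ℝ N (x + t • d) d)) (C := 4 * δ * ‖d‖)
    (fun t ht => ((hp _).hasFDerivAt.comp_hasDerivAt t (hγ t ht)).hasDerivWithinAt)
    (fun t ht => by
      have ht' : t ∈ Icc (0 : ℝ) 1 := Ico_subset_Icc_self ht
      have h1 : ‖fderiv ℝ N (x + t • d) d‖ ≤ 2 * ‖d‖ := (ContinuousLinearMap.le_opNorm _ _).trans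
        (mul_le_mul_of_nonneg_right (hN _ (hy t ht')).2.2.2.2.1 (norm_nonneg _))
      calc _ ≤ δ * ‖fderiv ℝ N (x + t • d) d‖ :=
            h _ (hN _ (hy t ht')).1 (hγA t ht') _ ((hN _ (hy t ht')).2.2.2.2.2 d)
        _ ≤ δ * (2 * ‖d‖) := mul_le_mul_of_nonneg_left h1 hδ
        _ ≤ _ := by nlinarith [mul_nonneg hδ (norm_nonneg d)])
  have g0 : N (x + (0 : ℝ) • d) = x := by simpa using (hN x hb).2.1 hx
  have g1 : N (x + (1 : ℝ) • d) = x' := by simpa [hd] using (hN x' hb').2.1 hx'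
  simpa only [g0, g1] using key

/-- Chords near `x₀` are almost tangent. -/
theorem inner_chord {x₀ : E} (hx₀ : x₀ ∈ S) {η : ℝ} (hη : 0 < η) :
    ∃ ρ, 0 < ρ ∧ ∀ x ∈ S, ∀ x' ∈ S, x ∈ ball x₀ ρ → x' ∈ ball x₀ ρ →
      |⟪unv x₀, x' - x⟫| ≤ η * ‖x' - x‖ := by
  have hc : 0 < ‖grd x₀‖ := norm_pos_iff.2 (grd_ne hx₀)
  have hs : HasStrictFDerivAt Sf.φ (fderiv ℝ Sf.φ x₀) x₀ :=
    Sf.smooth.contDiffAt.hasStrictFDerivAt (by simp)
  have h1 := hs.isLittleO.def (mul_pos hc hη)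
  rw [nhds_prod_eq] at h1
  obtain ⟨s, hs1, t, ht1, hst⟩ := Filter.mem_prod_iff.1 h1
  obtain ⟨r, hr, hrst⟩ := Metric.mem_nhds_iff.1 (inter_mem hs1 ht1)
  refine ⟨r, hr, fun x hx x' hx' hb hb' => ?_⟩
  have h3 := hst (show (x', x) ∈ s ×ˢ t from ⟨(hrst hb').1, (hrst hb).2⟩)
  simp only [mem_ofPred_eq, mem_S.1 hx, mem_S.1 hx', fderiv_phi hx₀, sub_self, zero_sub,
    Real.norm_eq_abs, mul_assoc, abs_neg, abs_mul, abs_norm] at h3
  exact le_of_mul_le_mul_left h3 hc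

/-- A curve on the surface through `x` with prescribed tangent vector. -/
theorem exists_curve {x w : E} (hx : x ∈ S) (hw : ⟪unv x, w⟫ = 0) :
    ∃ c : ℝ → E, (∀ t, c t ∈ S) ∧ c 0 = x ∧ HasDerivAt c w 0 := by
  classical
  obtain ⟨N, -, h2, h3, -, h5⟩ := exists_retr hx
  have h1 : HasDerivAt (fun t : ℝ => x + t • w) w 0 := by
    simpa using ((hasDerivAt_id (0 : ℝ)).smul_const w).const_add x
  have e : x = (fun t : ℝ => x + t • w) 0 := by simp
  have h4 : HasDerivAt (fun t : ℝ => N (x + t • w)) w 0 := by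
    have h6 : HasFDerivAt N (prj (unv x)) ((fun t : ℝ => x + t • w) 0) := by rwa [← e]
    refine HasDerivAt.congr_deriv (h6.comp_hasDerivAt (0 : ℝ) h1) ?_
    simp [prj_apply, hw]
  have h6 : ∀ᶠ t : ℝ in 𝓝 0, N (x + t • w) ∈ S :=
    h1.continuousAt.eventually (p := fun y => N y ∈ S) (by rw [← e]; exact h5.mono fun y hy => hy.1)
  refine ⟨fun t => if N (x + t • w) ∈ S then N (x + t • w) else x, fun t => ?_, by simp [h2], ?_⟩
  · by_cases h : N (x + t • w) ∈ S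
    · simp only [h, if_true]
    · simp only [h, if_false, hx]
  · exact h4.congr_of_eventuallyEq (h6.mono fun t ht => if_pos ht)

/-- Finitely many differentiable maps of the plane cover the surface. -/
theorem exists_charts : ∃ (J : Type) (_ : Finite J) (sp : J → ℝ × ℝ → E),
    (∀ j, Differentiable ℝ (sp j)) ∧ (∀ j a, sp j a ∈ S) ∧ ∀ x ∈ S, ∃ j a, sp j a = x := by
  have key : ∀ x₀ : S, ∃ (sp : ℝ × ℝ → E) (r : ℝ), 0 < r ∧ Differentiable ℝ sp ∧ (∀ a, sp a ∈ S) ∧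
      ∀ x ∈ S, x ∈ ball (x₀ : E) r → ∃ a, sp a = x := by
    rintro ⟨x₀, hx₀⟩
    obtain ⟨N, r, hr, hl, hN⟩ := exists_retr_ball hx₀
    have hn := norm_unv hx₀
    obtain ⟨a, b, -, -, ha1, hb1, -, hab⟩ := exists_tangent_basis hn
    let u : ℝ × ℝ → E := fun z => x₀ + (r / 3 * Real.sin z.1) • a + (r / 3 * Real.sin z.2) • b
    have hu : Differentiable ℝ u := by simp only [u]; fun_prop
    have hub : ∀ z, u z ∈ ball x₀ r := by
      intro z
      rw [mem_ball_iff_norm, show u z - x₀ = (r / 3 * Real.sin z.1) • a +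
        (r / 3 * Real.sin z.2) • b by simp only [u]; abel]
      refine (norm_add_le _ _).trans_lt ?_
      simp only [norm_smul, ha1, hb1, mul_one, Real.norm_eq_abs, abs_mul,
        abs_of_pos (show 0 < r / 3 by positivity)]
      nlinarith [Real.abs_sin_le_one z.1, Real.abs_sin_le_one z.2]
    refine ⟨fun z => N (u z), r / 3, by positivity,
      fun z => (hN _ (hub z)).2.2.2.1.comp z (hu z), fun z => (hN _ (hub z)).1, fun x hx hb => ?_⟩
    have hb' : ‖x - x₀‖ < r / 3 := mem_ball_iff_norm.1 hb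
    set w := prj (unv x₀) (x - x₀) with hw
    have hw0 : ⟪unv x₀, w⟫ = 0 := by
      rw [hw, prj_apply, inner_sub_right, real_inner_smul_right, inner_self_S hx₀]; ring
    have hw1 : ‖w‖ ≤ r / 3 := ((prj (unv x₀)).le_opNorm _).trans (by
      nlinarith [norm_prj_le hn, norm_nonneg (x - x₀), norm_nonneg (prj (unv x₀))])
    have hs : ∀ c : E, ‖c‖ ≤ 1 → r / 3 * Real.sin (Real.arcsin (⟪c, w⟫ / (r / 3))) = ⟪c, w⟫ := by
      intro c hc
      have h1 : |⟪c, w⟫| ≤ r / 3 := (abs_real_inner_le_norm c w).trans (by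
        nlinarith [norm_nonneg c, norm_nonneg w])
      have h2 := abs_le.1 h1
      have h3 : 0 < r / 3 := by positivity
      rw [Real.sin_arcsin (by rw [le_div_iff₀ h3]; linarith) (by rw [div_le_iff₀ h3]; linarith)]
      field_simp
    refine ⟨(Real.arcsin (⟪cross b (unv x₀), w⟫ / (r / 3)),
      Real.arcsin (⟪cross (unv x₀) a, w⟫ / (r / 3))), ?_⟩
    have e1 := hs (cross b (unv x₀)) ((norm_cross_le _ _).trans (by rw [hb1, hn]; norm_num))
    have e2 := hs (cross (unv x₀) a) ((norm_cross_le _ _).trans (by rw [ha1, hn]; norm_num))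
    simp only [u, e1, e2]
    rw [add_assoc, ← tangent_decomp hn hab hw0, hw, prj_apply,
      show x₀ + (x - x₀ - ⟪unv x₀, x - x₀⟫ • unv x₀) = x + (-⟪unv x₀, x - x₀⟫) • unv x₀ by
        rw [neg_smul]; abel, hl]
    exact (hN x (ball_subset_ball (by linarith) hb)).2.1 hx
  choose sp r hr h1 h2 h3 using key
  obtain ⟨t, ht⟩ := isCompact_S.elim_nhds_subcover' (fun x hx => ball x (r ⟨x, hx⟩))
    fun x hx => ball_mem_nhds x (hr _)
  refine ⟨t, inferInstance, fun j => sp j, fun j => h1 j, fun j => h2 j, fun x hx => ?_⟩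
  obtain ⟨j, hj, h⟩ := mem_iUnion₂.1 (ht hx)
  obtain ⟨a, ha⟩ := h3 j x hx h
  exact ⟨⟨j, hj⟩, a, ha⟩

theorem chart_tangent {sp : ℝ × ℝ → E} (h1 : Differentiable ℝ sp) (h2 : ∀ a, sp a ∈ S)
    (a h : ℝ × ℝ) : ⟪unv (sp a), fderiv ℝ sp a h⟫ = 0 := by
  rw [tangent_iff (h2 a)]
  have b2 := ((Sf.smooth.differentiable (by simp)) (sp a)).hasFDerivAt.comp a (h1 a).hasFDerivAt
  have b1 : Sf.φ ∘ sp = fun _ => 0 := funext fun z => h2 z
  rw [b1] at b2
  simpa using congrArg (fun T : ℝ × ℝ →L[ℝ] ℝ => T h) (b2.unique (hasFDerivAt_const (0 : ℝ) a))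

end Pool.Agent.Lib.Q28
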