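import Pool.Agent.Lib.Q28.MainLoc

/-! Creation of a transverse triple point inside a small ball. -/

open scoped ContDiff RealInnerProductSpace Topology
open Metric Set Function Filter

namespace Pool.Agent.Lib.Q28.Main

set_option linter.unusedSectionVars false

variable [Sf]

theorem dense_off {f : E → E} (hf : ContDiff ℝ ∞ f) : Dense {y | ∀ x ∈ S, f x ≠ y} := by
  obtain ⟨J, _, sp, h1, -, h3⟩ := exists_charts
  refine dense_iff_inter_open.2 fun U hU hne => ?_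
  obtain ⟨z, hz, h⟩ := exists_avoid (fun j a => f (sp j a)) (fun _ => univ)
    (fun j a _ => (smooth_diff hf _).comp a (h1 j a)) hU hne
  refine ⟨z, hz, fun x hx => ?_⟩
  obtain ⟨j, a, rfl⟩ := h3 x hx
  exact h j a trivial

theorem loc_line {f g : E → E} {V : Set E} {c : E} {r : ℝ} (h1 : ∀ x ∈ S, x ∉ V → g =ᶠ[𝓝 x] f)
    (h2 : ∀ x ∈ S, x ∈ V → f x ∈ ball c (r / 2)) (h3 : ∀ x ∈ S, ‖g x - f x‖ ≤ r / 2) :
    ∀ s ∈ Icc (0 : ℝ) 1, Loc (closedBall c r) f fun x => f x + s • (g x - f x) := by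
  intro s hs x hx
  have key : x ∉ V → (fun x => f x + s • (g x - f x)) =ᶠ[𝓝 x] f := fun h =>
    (h1 x hx h).mono fun y hy => by simp [hy]
  by_cases h : x ∈ V
  · have h4 := h2 x hx h
    rw [mem_ball_iff_norm] at h4
    have hr : 0 < r := by linarith [norm_nonneg (f x - c)]
    refine ⟨fun h5 => (h5 (mem_closedBall_iff_norm.2 (by linarith))).elim, fun _ => ?_⟩
    rw [mem_closedBall_iff_norm, show f x + s • (g x - f x) - c = (f x - c) + s • (g x - f x) by abel]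
    refine (norm_add_le _ _).trans ?_
    rw [norm_smul, Real.norm_of_nonneg hs.1]
    have := mul_le_of_le_one_left (norm_nonneg (g x - f x)) hs.2
    linarith [h3 x hx]
  · exact ⟨fun _ => key h, fun h5 => mem_of_eq_of_mem (key h).eq_of_nhds h5⟩

theorem eventually_zero {F : Type*} [Zero F] [TopologicalSpace F] {p : E → F} {x : E}
    (h : x ∉ tsupport p) : ∀ᶠ y in 𝓝 x, p y = 0 := notMem_tsupport_iff_eventuallyEq.1 h

theorem exists_flat_single {f : E → E} (hf : I4 f) {x₀ : E} (hx₀ : x₀ ∈ S) {r : ℝ} (hr : 0 < r) :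
    ∃ g, LStep (closedBall (f x₀) r) f g ∧ ‖g x₀ - f x₀‖ ≤ r / 2 ∧
      (∀ x ∈ S, g x = g x₀ → x = x₀) ∧ ∀ᶠ x in 𝓝 x₀, ⟪nrm g x₀, g x - g x₀⟫ = 0 := by
  obtain ⟨δ₁, hδ₁, h1⟩ := lstep_small hf
  obtain ⟨ρ, hρ, δ₂, hδ₂, h2⟩ := hf.1.sep'
  have hVo : IsOpen (ball x₀ ρ ∩ f ⁻¹' ball (f x₀) (r / 2)) :=
    isOpen_ball.inter (isOpen_ball.preimage hf.1.1.continuous)
  set V := ball x₀ ρ ∩ f ⁻¹' ball (f x₀) (r / 2) with hV
  have hx₀V : x₀ ∈ V := ⟨mem_ball_self hρ,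
    show f x₀ ∈ ball (f x₀) (r / 2) from mem_ball_self (half_pos hr)⟩
  obtain ⟨β, hβ, hβV, -, -, hβ1⟩ := exists_cutoff (isCompact_singleton (x := x₀)) hVo
    (singleton_subset_iff.2 hx₀V)
  obtain ⟨C, hC, h3⟩ := exists_small_smul hβ
  set δ := min δ₁ (min δ₂ (r / 2)) with hδ
  have hδ0 : 0 < δ := by positivity
  obtain ⟨y, hy, hy1⟩ := (dense_off hf.1.1).exists_mem_open
    (isOpen_ball (x := f x₀) (ε := δ / 2 / C)) ⟨_, mem_ball_self (by positivity)⟩
  rw [mem_ball_iff_norm] at hy1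
  have s1 := h3 (δ / 2 / C) (fun _ => y - f x₀) (differentiable_const _)
    fun x _ => ⟨hy1.le, fun w _ => by simp; positivity⟩
  rw [mul_div_cancel₀ _ hC.ne'] at s1
  set g₁ : E → E := fun x => f x + β x • (y - f x₀) with hg₁
  have c1 : ContDiff ℝ ∞ g₁ := hf.1.1.add (hβ.smul contDiff_const)
  have s2 : Small (δ / 2) (g₁ - f) := by
    convert s1 using 1; funext x; simp [hg₁]
  have d1 : δ ≤ δ₁ := min_le_left _ _
  have d2 : δ ≤ δ₂ := (min_le_right _ _).trans (min_le_left _ _)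
  have d3 : δ ≤ r / 2 := (min_le_right _ _).trans (min_le_right _ _)
  obtain ⟨g, c2, s3, hs, h4⟩ := flatten (ι := Unit) (h2 g₁ c1 (s2.mono (by linarith))).1
    (x := fun _ => x₀) (fun _ => hx₀) (fun _ _ _ => rfl) (fun _ => hVo.mem_nhds hx₀V)
    (half_pos hδ0)
  have s4 := s2.triangle s3 (smooth_diff hf.1.1) (smooth_diff c1) (smooth_diff c2)
  rw [add_halves] at s4
  obtain ⟨e1, e2, e3⟩ := h4 ()
  have e4 : g x₀ = y := by
    rw [e1, hg₁]; simp [(hβ1 x₀ rfl).eq_of_nhds]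
  have hout : ∀ x ∈ S, x ∉ V → g =ᶠ[𝓝 x] f := fun x _ hx => by
    filter_upwards [eventually_zero fun h => hx (hβV h), eventually_zero fun h => hx (hs h)]
      with z h5 h6
    rw [Pi.sub_apply, sub_eq_zero] at h6
    simp [h6, hg₁, h5]
  refine ⟨g, h1 f g hf.1.1 c2 (by rw [sub_self]; exact small_zero hδ₁.le) (s4.mono d1) _
    (loc_line hout (fun x _ hx => hx.2) fun x hx => (s4 x hx).1.trans d3),
    (s4 x₀ hx₀).1.trans d3, fun x hx h5 => ?_, by rw [e2, e1]; exact e3⟩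
  by_cases h6 : x ∈ V
  · exact (h2 g c2 (s4.mono d2)).2 x hx x₀ hx₀ h6.1 h5
  · exact (hy x hx (by rw [← (hout x hx h6).eq_of_nhds, h5, e4])).elim

theorem exists_tilt {ν : E} {v : Fin 3 → E} (h : ∀ i, ⟪ν, v i⟫ ≠ 0) :
    ∃ m : Fin 3 → E, (∀ i, ⟪m i, v i⟫ ≠ 0) ∧ det3 (m 0) (m 1) (m 2) ≠ 0 := by
  have h1 : ∀ᶠ τ : ℝ in 𝓝 0, ∀ i, ⟪ν + τ • ε i, v i⟫ ≠ 0 :=
    eventually_all.2 fun i => ContinuousAt.eventually_ne (by fun_prop) (by simpa using h i)
  have h2 : ∀ᶠ τ : ℝ in 𝓝[≠] 0, τ ≠ -(ν 0 + ν 1 + ν 2) := by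
    by_cases h3 : -(ν 0 + ν 1 + ν 2) = 0
    · rw [h3]; exact self_mem_nhdsWithin
    · exact (eventually_ne_nhds (Ne.symm h3)).filter_mono nhdsWithin_le_nhds
  obtain ⟨τ, ⟨h3, h4⟩, h5⟩ := (((h1.filter_mono nhdsWithin_le_nhds).and h2).and
    (self_mem_nhdsWithin (s := ({0}ᶜ : Set ℝ)))).exists
  refine ⟨fun i => ν + τ • ε i, h3, ?_⟩
  have e : det3 (ν + τ • ε 0) (ν + τ • ε 1) (ν + τ • ε 2) = τ ^ 2 * (τ + (ν 0 + ν 1 + ν 2)) := by
    simp [det3_eq]; ring
  rw [e]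
  exact mul_ne_zero (pow_ne_zero 2 h5) fun h6 => h4 (by linarith)

theorem exists_three {x₀ : E} (hx₀ : x₀ ∈ S) {W : Set E} (hW : W ∈ 𝓝 x₀) :
    ∃ b : Fin 3 → E, Injective b ∧ ∀ i, b i ∈ S ∧ b i ∈ W := by
  obtain ⟨b0, h0, h0', -⟩ := exists_near_not_mem hx₀ hW finite_empty
  obtain ⟨b1, h1, h1', n1⟩ := exists_near_not_mem hx₀ hW (finite_singleton b0)
  obtain ⟨b2, h2, h2', n2⟩ := exists_near_not_mem hx₀ hW (toFinite {b0, b1})
  simp only [mem_insert_iff, mem_singleton_iff, not_or] at n1 n2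
  refine ⟨![b0, b1, b2], fun i j hij => ?_, fun i => by fin_cases i <;> simp [*]⟩
  have := Ne.symm n1
  have := Ne.symm n2.1
  have := Ne.symm n2.2
  fin_cases i <;> fin_cases j <;> simp_all

theorem exists_triple {g : E → E} (hg : I4 g) {x₀ : E} (hx₀ : x₀ ∈ S)
    (hsingle : ∀ x ∈ S, g x = g x₀ → x = x₀) (hflat : ∀ᶠ x in 𝓝 x₀, ⟪nrm g x₀, g x - g x₀⟫ = 0)
    {r₀ : ℝ} (hr₀ : 0 < r₀) :
    ∃ G x q, LStep (closedBall (g x₀) r₀) g G ∧ q ∈ closedBall (g x₀) r₀ ∧ TT G x q := by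
  have hgs := hg.1.1
  have hgc := hgs.continuous
  set y := g x₀ with hy
  set ν := nrm g x₀ with hν
  have hν0 : ν ≠ 0 := hg.1.nrm_ne hx₀
  have hνn : 0 < ‖ν‖ := norm_pos_iff.2 hν0
  obtain ⟨V, hV, hVo, hx₀V⟩ := _root_.eventually_nhds_iff.1 hflat
  obtain ⟨δ, hδ, h1⟩ := preimage_near hgc (isClosed_singleton (x := y)) hVo
    fun x hx h => hsingle x hx h ▸ hx₀V
  set r := min r₀ δ with hr
  have hr0 : 0 < r := by positivity
  have hplane : ∀ x ∈ S, g x ∈ closedBall y r → ⟪ν, g x - y⟫ = 0 := fun x hx h =>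
    hV x (h1 g (fun _ _ => by simpa using hδ.le) x hx
      ⟨y, rfl, (mem_closedBall_iff_norm.1 h).trans (min_le_right _ _)⟩)
  set p := y + (r / 8 / ‖ν‖) • ν with hp
  have hpy : ‖p - y‖ = r / 8 := by
    rw [hp, add_sub_cancel_left, norm_smul, Real.norm_of_nonneg (by positivity)]
    field_simp
  have hWo : IsOpen (V ∩ g ⁻¹' ball y (r / 8)) := hVo.inter (isOpen_ball.preimage hgc)
  set W := V ∩ g ⁻¹' ball y (r / 8) with hW
  have hWm : ∀ x ∈ W, ‖g x - y‖ < r / 8 := fun x hx =>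
    mem_ball_iff_norm.1 (show g x ∈ ball y (r / 8) from hx.2)
  obtain ⟨b, hb, hbW⟩ := exists_three hx₀ (hWo.mem_nhds ⟨hx₀V,
    show y ∈ ball y (r / 8) from mem_ball_self (by positivity)⟩)
  set v : Fin 3 → E := fun i => p - g (b i) with hv
  have hνv : ∀ i, ⟪ν, v i⟫ ≠ 0 := fun i => by
    have e : v i = (r / 8 / ‖ν‖) • ν - (g (b i) - y) := by simp only [hv, hp]; abel
    rw [e, inner_sub_right, hV _ (hbW i).2.1, sub_zero, real_inner_smul_right,
      real_inner_self_eq_norm_sq]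
    positivity
  have hvn : ∀ i, ‖v i‖ ≤ r / 4 := fun i => by
    have e : v i = (p - y) - (g (b i) - y) := by simp only [hv]; abel
    have h2 := hWm _ (hbW i).2
    rw [e]
    linarith [norm_sub_le (p - y) (g (b i) - y)]
  have htr : ∀ i, ⟪nrm g (b i), v i⟫ ≠ 0 := fun i => by
    obtain ⟨t, ht⟩ := nrm_of_flat (smooth_diff hgs) (s := ⟪ν, y⟫) (hbW i).1 hν0
      (eventually_of_mem (hVo.mem_nhds (hbW i).2.1) fun z hz _ => by
        have := hV z hz
        rwa [inner_sub_right, sub_eq_zero] at this)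
    have h2 := hg.1.nrm_ne (hbW i).1
    rw [ht] at h2 ⊢
    rw [real_inner_smul_left]
    exact mul_ne_zero (left_ne_zero_of_smul h2) (hνv i)
  choose ρ hρ δ' hδ' hVD using fun i => exists_VD hgs (hbW i).1 (htr i)
  obtain ⟨m, hm, hdet⟩ := exists_tilt hνv
  set a : Fin 3 → E → ℝ := fun i x => ⟪m i, p - g x⟫ / ⟪m i, v i⟫ with ha
  have has : ∀ i, ContDiff ℝ ∞ (a i) := fun i =>
    (contDiff_const.inner ℝ (contDiff_const.sub hgs)).div_const _
  obtain ⟨U, hU, hUd⟩ := (finite_range b).t2_separation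
  set D : Fin 3 → Set E := fun i => ball (b i) (ρ i) ∩ (U (b i) ∩ (W ∩ {x | |a i x| < 2})) with hD
  have hDo : ∀ i, IsOpen (D i) := fun i => isOpen_ball.inter ((hU _).2.inter
    (hWo.inter (isOpen_lt (has i).continuous.abs continuous_const)))
  have hab : ∀ i, a i (b i) = 1 := fun i => div_self (hm i)
  have hbD : ∀ i, b i ∈ D i := fun i =>
    ⟨mem_ball_self (hρ i), (hU _).1, (hbW i).2, by simp [hab i]⟩
  have hVD' : ∀ i, VD g (D i) (v i) := fun i =>
    (hVD i g hgs (by rw [sub_self]; exact small_zero (hδ' i).le) (v i)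
      (by simpa using (hδ' i).le)).1.mono (hDo i) inter_subset_left
  have hdis : ∀ i j, j ≠ i → ∀ x ∈ D i, x ∉ D j := fun i j hij x hi hj =>
    disjoint_left.1 (hUd ⟨i, rfl⟩ ⟨j, rfl⟩ fun h => hij (hb h).symm) hi.2.1 hj.2.1
  choose β hβ hβD _ hβ01 hβ1 using fun i => exists_cutoff (isCompact_singleton (x := b i)) (hDo i)
    (singleton_subset_iff.2 (hbD i))
  set χ : ℝ → Fin 3 → E → ℝ := fun s i x => s * (β i x * a i x) with hχ
  have hχs : ∀ s i, ContDiff ℝ ∞ (χ s i) := fun s i => contDiff_const.mul ((hβ i).mul (has i))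
  have hχD : ∀ s i, tsupport (χ s i) ⊆ D i := fun s i =>
    (tsupport_mul_subset_right.trans tsupport_mul_subset_left).trans (hβD i)
  set G : ℝ → E → E := fun s x => g x + ∑ i, χ s i x • v i with hG
  have hGs : ContDiff ℝ ∞ (uncurry G) := by
    refine (hgs.comp contDiff_snd).add (ContDiff.sum fun i _ =>
      ContDiff.smul (f := fun z : ℝ × E => χ z.1 i z.2) (g := fun _ => v i) ?_ contDiff_const)
    exact contDiff_fst.mul (((hβ i).mul (has i)).comp contDiff_snd)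
  have hloc : ∀ s x i, (∀ j, j ≠ i → x ∉ D j) → G s =ᶠ[𝓝 x] vm g (χ s i) (v i) := by
    intro s x i h
    have h2 : ∀ᶠ z in 𝓝 x, ∀ j, j ≠ i → χ s j z = 0 := eventually_all.2 fun j => by
      by_cases hj : j = i
      · simp [hj]
      · exact (eventually_zero fun h3 => h j hj (hχD s j h3)).mono fun z hz _ => hz
    filter_upwards [h2] with z hz
    simp only [hG, vm]
    rw [Finset.sum_eq_single i (fun j _ hj => by rw [hz j hj, zero_smul]) (by simp)]
  have hin : ∀ s i, ∀ x ∈ D i, G s x = g x + χ s i x • v i := fun s i x hx =>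
    (hloc s x i fun j hj => hdis i j hj x hx).eq_of_nhds
  have hout : ∀ s x, (∀ j, x ∉ D j) → G s =ᶠ[𝓝 x] g := fun s x h =>
    (hloc s x 0 fun j _ => h j).trans (vm_eventuallyEq g _ fun h3 => h 0 (hχD s 0 h3))
  have hball : ∀ s ∈ Icc (0 : ℝ) 1, ∀ i, ∀ x ∈ D i, G s x ∈ closedBall y r := by
    intro s hs i x hx
    have h2 := hWm x hx.2.2.1
    have h3 : |a i x| < 2 := hx.2.2.2
    have h4 : |χ s i x| ≤ 2 := by
      simp only [hχ, abs_mul]
      rw [abs_of_nonneg hs.1, abs_of_nonneg (hβ01 i x).1]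
      have := mul_le_of_le_one_left (abs_nonneg (a i x)) (hβ01 i x).2
      have := mul_le_of_le_one_left (mul_nonneg (hβ01 i x).1 (abs_nonneg (a i x))) hs.2
      linarith
    rw [hin s i x hx, mem_closedBall_iff_norm,
      show g x + χ s i x • v i - y = (g x - y) + χ s i x • v i by abel]
    refine (norm_add_le _ _).trans ?_
    rw [norm_smul, Real.norm_eq_abs]
    have := mul_le_mul h4 (hvn i) (norm_nonneg _) zero_le_two
    linarith
  have himm : ∀ s, Imm (G s) := fun s =>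
    imm_of_local (hGs.comp (contDiff_const.prodMk contDiff_id)) fun x hx => by
      by_cases h : ∃ i, x ∈ D i
      · obtain ⟨i, hi⟩ := h
        exact ⟨_, vm_imm hg.1 (hχs s i) fun z hz h2 => (hVD' i).2.1 z hz (hχD s i h2),
          hloc s x i fun j hj => hdis i j hj x hi⟩
      · exact ⟨g, hg.1, hout s x (not_exists.1 h)⟩
  have hsub : closedBall y r ⊆ closedBall y r₀ := closedBall_subset_closedBall (min_le_left _ _)
  refine ⟨G 1, b, p, LStep.mono ⟨G, hGs, fun s hs => ⟨⟨himm s, fun z => ?_⟩, fun x hx => ?_⟩,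
    by funext x; simp [hG, hχ], rfl⟩ hsub, hsub (mem_closedBall_iff_norm.2 (by linarith)),
    fun i => (hbW i).1, hb, fun i => ?_, ?_⟩
  · by_cases h : ∀ x ∈ fib (G s) S z, G s x = g x
    · exact (encard_le_encard (show fib (G s) S z ⊆ fib g S z from
        fun x hx => ⟨hx.1, (h x hx).symm.trans hx.2⟩)).trans (hg.2 z)
    simp only [not_forall] at h
    obtain ⟨x, hx, hne⟩ := h
    obtain ⟨i, hi⟩ : ∃ i, x ∈ D i := by
      by_contra h
      exact hne (hout s x (not_exists.1 h)).eq_of_nhds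
    have hz : z ∈ closedBall y r := hx.2 ▸ hball s hs i x hi
    have hz1 : ⟪ν, z - y⟫ ≠ 0 := by
      have h2 : χ s i x ≠ 0 := fun h => hne (by rw [hin s i x hi, h]; simp)
      rw [← hx.2, hin s i x hi, show g x + χ s i x • v i - y = (g x - y) + χ s i x • v i by abel,
        inner_add_right, hV x hi.2.2.1.1, zero_add, real_inner_smul_right]
      exact mul_ne_zero h2 (hνv i)
    refine (encard_le_iff (k := 3)).2 fun w hw hinj => ?_
    have h2 : ∀ k, ∃ j, w k ∈ D j := fun k => by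
      by_contra h
      have h3 : g (w k) = z := (hout s _ (not_exists.1 h)).eq_of_nhds.symm.trans (hw k).2
      exact hz1 (h3 ▸ hplane _ (hw k).1 (h3 ▸ hz))
    choose j hj using h2
    obtain ⟨k, k', hk, hjj⟩ := Fintype.exists_ne_map_eq_of_card_lt j (by simp)
    refine hk (hinj ((hVD' (j k)).2.2 _ (hw k').1 _ (hw k).1 (hjj ▸ hj k') (hj k)
      (χ s (j k) (w k') - χ s (j k) (w k)) ?_))
    have e1 := (hin s _ _ (hj k)).symm.trans (hw k).2
    have e2 := (hin s (j k) _ (hjj ▸ hj k')).symm.trans (hw k').2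
    rw [sub_smul, ← add_sub_assoc, e2, ← e1, add_sub_cancel_right]
  · by_cases h : ∃ i, x ∈ D i
    · obtain ⟨i, hi⟩ := h
      exact ⟨fun h => (h (mem_closedBall_iff_norm.2 (by linarith [hWm x hi.2.2.1]))).elim,
        fun _ => hball s hs i x hi⟩
    · exact ⟨fun _ => hout s x (not_exists.1 h),
        fun h2 => (hout s x (not_exists.1 h)).eq_of_nhds ▸ h2⟩
  · rw [hin 1 i _ (hbD i)]
    simp [hχ, hab, (hβ1 i _ rfl).eq_of_nhds, hv]
  · have h2 : ∀ i, ∃ t : ℝ, t ≠ 0 ∧ nrm (G 1) (b i) = t • m i := fun i => by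
      obtain ⟨t, ht⟩ := nrm_of_flat (smooth_diff (himm 1).1) (s := ⟪m i, p⟫) (hbW i).1
        (ν := m i) (fun h => hm i (by simp [h])) (by
          filter_upwards [(hDo i).mem_nhds (hbD i), hβ1 i _ rfl] with z hz h3 _
          rw [hin 1 i z hz, inner_add_right, real_inner_smul_right]
          simp only [hχ, h3, Pi.one_apply, one_mul, ha]
          rw [div_mul_cancel₀ _ (hm i), inner_sub_right]; ring)
      exact ⟨t, left_ne_zero_of_smul (ht ▸ (himm 1).nrm_ne (hbW i).1), ht⟩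
    choose t ht ht' using h2
    have e : det3 (t 0 • m 0) (t 1 • m 1) (t 2 • m 2) = t 0 * t 1 * t 2 * det3 (m 0) (m 1) (m 2) := by
      simp [det3_eq]; ring
    rw [ht', ht', ht', e]
    exact mul_ne_zero (mul_ne_zero (mul_ne_zero (ht 0) (ht 1)) (ht 2)) hdet

theorem exists_aug {f : E → E} (hf : I4 f) {x₀ : E} (hx₀ : x₀ ∈ S) {r : ℝ} (hr : 0 < r) :
    ∃ γ, Aug (closedBall (f x₀) r) f γ := by
  obtain ⟨g, h1, h2, h3, h4⟩ := exists_flat_single hf hx₀ hr
  obtain ⟨G, x, q, h5, h6, h7⟩ := exists_triple h1.step.right hx₀ h3 h4 (half_pos hr)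
  have hsub : closedBall (g x₀) (r / 2) ⊆ closedBall (f x₀) r :=
    closedBall_subset_closedBall' (by rw [dist_eq_norm]; linarith)
  obtain ⟨γ, -, hγ⟩ := tau_exists h5.step.right h7 one_ne_zero
  exact ⟨γ, G, x, q, Relation.ReflTransGen.tail h1.leq (h5.mono hsub), hsub h6, h7, hγ⟩

end Pool.Agent.Lib.Q28.Main
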