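import Pool.Agent.Lib.Q28.Connect

/-! Local moves, patching and auxiliary triple points. -/

open scoped ContDiff RealInnerProductSpace Topology
open Metric Set Function Filter

namespace Pool.Agent.Lib.Q28.Main

set_option linter.unusedSectionVars false

variable [Sf]

/-- `g` differs from `f` only inside the region `B` of space. -/
def Loc (B : Set E) (f g : E → E) : Prop :=
  ∀ x ∈ S, (f x ∉ B → g =ᶠ[𝓝 x] f) ∧ (f x ∈ B → g x ∈ B)

/-- A family without quadruple points that moves only inside `B`. -/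
def LStep (B : Set E) (f g : E → E) : Prop :=
  ∃ H : ℝ → E → E, ContDiff ℝ ∞ (uncurry H) ∧
    (∀ s ∈ Icc (0 : ℝ) 1, I4 (H s) ∧ Loc B f (H s)) ∧ H 0 = f ∧ H 1 = g

/-- Chains of local families. -/
def LEq (B : Set E) : (E → E) → (E → E) → Prop := Relation.ReflTransGen (LStep B)

/-- `γ` is obtained by creating a triple point inside `B` and crossing it. -/
def Aug (B : Set E) (f γ : E → E) : Prop :=
  ∃ (f' : E → E) (x : Fin 3 → E) (q : E), LEq B f f' ∧ q ∈ B ∧ TT f' x q ∧ Tau f' q 1 γ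

theorem Loc.refl (B : Set E) (f : E → E) : Loc B f f :=
  fun _ _ => ⟨fun _ => EventuallyEq.rfl, id⟩

theorem Loc.symm {B : Set E} {f g : E → E} (h : Loc B f g) : Loc B g f := fun x hx =>
  ⟨fun h1 => ((h x hx).1 fun h2 => h1 ((h x hx).2 h2)).symm, fun h1 => by
    by_contra h2
    exact h2 (((h x hx).1 h2).eq_of_nhds ▸ h1)⟩

theorem Loc.trans {B : Set E} {f g k : E → E} (h : Loc B f g) (h' : Loc B g k) : Loc B f k :=
  fun x hx => ⟨fun h1 => ((h' x hx).1 fun h2 => h1 ((h.symm x hx).2 h2)).trans ((h x hx).1 h1),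
    fun h1 => (h' x hx).2 ((h x hx).2 h1)⟩

theorem Loc.mono {B B' : Set E} {f g : E → E} (h : Loc B f g) (hB : B ⊆ B') : Loc B' f g :=
  fun x hx => ⟨fun h1 => (h x hx).1 fun h2 => h1 (hB h2), fun h1 => by
    by_cases h2 : f x ∈ B
    · exact hB ((h x hx).2 h2)
    · exact ((h x hx).1 h2).eq_of_nhds ▸ h1⟩

theorem LStep.mono {B B' : Set E} {f g : E → E} (h : LStep B f g) (hB : B ⊆ B') :
    LStep B' f g := by
  obtain ⟨H, h1, h2, h3, h4⟩ := h
  exact ⟨H, h1, fun s hs => ⟨(h2 s hs).1, (h2 s hs).2.mono hB⟩, h3, h4⟩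

theorem LStep.step {B : Set E} {f g : E → E} (h : LStep B f g) : Step f g := by
  obtain ⟨H, h1, h2, h3, h4⟩ := h
  exact ⟨H, h1, fun s hs => (h2 s hs).1, h3, h4⟩

theorem LStep.loc {B : Set E} {f g : E → E} (h : LStep B f g) : Loc B f g := by
  obtain ⟨H, -, h2, -, rfl⟩ := h
  exact (h2 1 ⟨zero_le_one, le_rfl⟩).2

theorem LStep.leq {B : Set E} {f g : E → E} (h : LStep B f g) : LEq B f g :=
  Relation.ReflTransGen.single h

theorem LEq.loc {B : Set E} {f g : E → E} (h : LEq B f g) : Loc B f g := by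
  induction h with
  | refl => exact Loc.refl _ _
  | tail _ h ih => exact ih.trans h.loc

theorem LEq.i4 {B : Set E} {f g : E → E} (h : LEq B f g) (hf : I4 f) : I4 g := by
  induction h with
  | refl => exact hf
  | tail _ h _ => exact h.step.right

theorem Loc.tt {B : Set E} {f g : E → E} {x : Fin 3 → E} {q : E} (h : Loc B f g) (hq : q ∉ B)
    (ht : TT f x q) : TT g x q := by
  obtain ⟨h1, h2, h3, h4⟩ := ht
  have e : ∀ i, g =ᶠ[𝓝 (x i)] f := fun i => (h _ (h1 i)).1 (by rw [h3 i]; exact hq)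
  exact ⟨h1, h2, fun i => (e i).eq_of_nhds.trans (h3 i), by
    rwa [nrm_congr_ev (e 0), nrm_congr_ev (e 1), nrm_congr_ev (e 2)]⟩

theorem LEq.tau {B : Set E} {f g γ : E → E} {x : Fin 3 → E} {q : E} (h : LEq B f g) (hq : q ∉ B)
    (ht : TT f x q) (hγ : Tau f q 1 γ) : Tau g q 1 γ := by
  induction h with
  | refl => exact hγ
  | tail h1 h ih =>
    obtain ⟨H, h2, h3, rfl, rfl⟩ := h
    exact (tau_family h2 (fun s hs => ⟨(h3 s hs).1, (h3 s hs).2.tt hq ((LEq.loc h1).tt hq ht)⟩)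
      one_ne_zero γ).1 ih

theorem imm_of_local {G : E → E} (hG : ContDiff ℝ ∞ G)
    (h : ∀ x ∈ S, ∃ G', Imm G' ∧ G =ᶠ[𝓝 x] G') : Imm G :=
  ⟨hG, fun x hx w hw h0 => by
    obtain ⟨G', h1, h2⟩ := h x hx
    rw [h2.fderiv_eq] at h0
    exact h1.2 x hx w hw h0⟩

theorem patch_loc {B B' : Set E} {f g g' : E → E} (hd : Disjoint B B') (h : Loc B f g)
    (h' : Loc B' f g') : Loc B' g (g + g' - f) := fun x hx => by
  constructor
  · intro h1
    have h2 : f x ∉ B' := fun h2 =>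
      h1 (((h x hx).1 (disjoint_right.1 hd h2)).eq_of_nhds ▸ h2)
    filter_upwards [(h' x hx).1 h2] with y hy
    simp [hy]
  · intro h1
    have h2 : f x ∉ B := fun h2 => disjoint_left.1 hd ((h x hx).2 h2) h1
    have h3 := ((h x hx).1 h2).eq_of_nhds
    have : (g + g' - f) x = g' x := by simp [h3]
    rw [this]
    exact (h' x hx).2 (h3 ▸ h1)

theorem Loc.fib_subset {B : Set E} {f g : E → E} (h : Loc B f g) {y : E} (hy : y ∉ B) :
    fib g S y ⊆ fib f S y := fun x hx =>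
  ⟨hx.1, ((h.symm x hx.1).1 (by rw [hx.2]; exact hy)).eq_of_nhds.trans hx.2⟩

theorem patch_i4 {B B' : Set E} {f g g' : E → E} (hd : Disjoint B B') (hf : ContDiff ℝ ∞ f)
    (h : Loc B f g) (h' : Loc B' f g') (hg : I4 g) (hg' : I4 g') : I4 (g + g' - f) := by
  have l1 := patch_loc hd h h'
  have l2 := patch_loc hd.symm h' h
  rw [add_comm g' g] at l2
  refine ⟨imm_of_local ((hg.1.1.add hg'.1.1).sub hf) fun x hx => ?_, fun y => ?_⟩
  · by_cases h1 : g x ∈ B'
    · refine ⟨g', hg'.1, (l2 x hx).1 fun h2 => ?_⟩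
      exact disjoint_left.1 hd ((l2 x hx).2 h2) ((l1 x hx).2 h1)
    · exact ⟨g, hg.1, (l1 x hx).1 h1⟩
  · by_cases h1 : y ∈ B'
    · exact (encard_le_encard (l2.fib_subset (disjoint_right.1 hd h1))).trans (hg'.2 y)
    · exact (encard_le_encard (l1.fib_subset h1)).trans (hg.2 y)

theorem LEq.patch {B B' : Set E} {f g g' : E → E} (hd : Disjoint B B') (hf : I4 f)
    (h : Loc B f g) (hg : I4 g) (h' : LEq B' f g') : LEq B' g (g + g' - f) := by
  induction h' with
  | refl => rw [add_sub_cancel_right]; exact Relation.ReflTransGen.refl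
  | tail h1 h2 ih =>
    obtain ⟨H, h2, h3, rfl, rfl⟩ := h2
    have l0 := LEq.loc h1
    refine Relation.ReflTransGen.tail ih ⟨fun s => g + H s - f, ?_, fun s hs => ?_, rfl, rfl⟩
    · exact ((hg.1.1.comp contDiff_snd).add h2).sub (hf.1.1.comp contDiff_snd)
    · have l1 := l0.trans (h3 s hs).2
      exact ⟨patch_i4 hd hf.1.1 h l1 hg (h3 s hs).1,
        (patch_loc hd h l0).symm.trans (patch_loc hd h l1)⟩

theorem Aug.transfer {B B' : Set E} {f g γ : E → E} (hd : Disjoint B B') (hf : I4 f)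
    (h : LEq B f g) (ha : Aug B' f γ) : Aug B' g γ := by
  obtain ⟨f', x, q, h1, hq, h2, h3⟩ := ha
  have l1 := LEq.patch hd hf h.loc (h.i4 hf) h1
  have l2 := LEq.patch hd.symm hf h1.loc (h1.i4 hf) h
  rw [add_comm f' g] at l2
  have hq' := disjoint_right.1 hd hq
  exact ⟨_, x, q, l1, hq, l2.loc.tt hq' h2, l2.tau hq' h2 h3⟩

theorem Aug.tri {B : Set E} {f g γ : E → E} {x : Fin 3 → E} {q : E} (hf : I4 f) (ht : TT f x q)
    (hg : Tau f q 1 g) (hq : q ∉ B) (ha : Aug B f γ) : Rel g γ := by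
  obtain ⟨f', x', q', h1, -, h2, h3⟩ := ha
  exact tau_unique (h1.i4 hf) h2
    (tau_connect (h1.i4 hf) (h1.loc.tt hq ht) h2 (h1.tau hq ht hg)) h3

theorem Aug.disj {B B' : Set E} {f γ γ' : E → E} (hd : Disjoint B B') (hf : I4 f)
    (ha : Aug B f γ) (ha' : Aug B' f γ') : Rel γ γ' := by
  obtain ⟨f', x, q, h1, hq, h2, h3⟩ := ha
  exact Aug.tri (h1.i4 hf) h2 h3 (disjoint_left.1 hd hq) (ha'.transfer hd hf h1)

/-- Straight-line families of small perturbations. -/
theorem lstep_small {f : E → E} (hf : I4 f) :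
    ∃ δ, 0 < δ ∧ ∀ g₀ g₁ : E → E, ContDiff ℝ ∞ g₀ → ContDiff ℝ ∞ g₁ → Small δ (g₀ - f) →
      Small δ (g₁ - f) → ∀ B : Set E,
        (∀ s ∈ Icc (0 : ℝ) 1, Loc B g₀ fun x => g₀ x + s • (g₁ x - g₀ x)) → LStep B g₀ g₁ := by
  obtain ⟨δ, hδ, h⟩ := hf.close
  refine ⟨δ, hδ, fun g₀ g₁ h0 h1 s0 s1 B hB =>
    ⟨fun s x => g₀ x + s • (g₁ x - g₀ x), by unfold uncurry; fun_prop, fun s hs =>
      ⟨(h _ (by fun_prop) ?_).1, hB s hs⟩, by funext x; simp, by funext x; simp⟩⟩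
  have d0 := smooth_diff (h0.sub hf.1.1)
  have d1 := smooth_diff (h1.sub hf.1.1)
  have := (s0.smul_const d0 (1 - s)).add (s1.smul_const d1 s) (d0.const_smul _) (d1.const_smul _)
  rw [abs_of_nonneg (sub_nonneg.2 hs.2), abs_of_nonneg hs.1,
    show (1 - s) * δ + s * δ = δ by ring] at this
  convert this using 1
  funext x
  simp only [Pi.sub_apply, Pi.add_apply, Pi.smul_apply]
  module

end Pool.Agent.Lib.Q28.Main
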